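import Mathlib

/-! `Ext` over a ring by resolutions with matrices (text of helper99, universe polymorphic). -/

set_option autoImplicit false

universe v w

namespace Pool.Agent.DQ

variable {R : Type v} [Ring R]

open Matrix

/-- `M` has the resolution `… → R^{n 2} → R^{n 1} → M → 0` by finite free left modules, where
`R^{n (k+1)} → R^{n k}` is `v ↦ v B_k` for `k ≥ 1` and `ε : R^{n 1} → M`; by convention
`n 0 = 0`. -/
structure IsRes {M : Type w} [AddCommGroup M] [Module R M] (n : ℕ → ℕ)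
    (B : ∀ k, Matrix (Fin (n (k + 1))) (Fin (n k)) R) (ε : (Fin (n 1) → R) →ₗ[R] M) : Prop where
  zero : n 0 = 0
  surj : Function.Surjective ε
  ker : ∀ v, ε v = 0 ↔ ∃ u, u ᵥ* B 1 = v
  exact : ∀ k, 1 ≤ k → ∀ v, v ᵥ* B k = 0 ↔ ∃ u, u ᵥ* B (k + 1) = v

/-- `Ext^j_R(M, R) = 0`: the dual complex `w ↦ B_k w` of every resolution of `M` by finite free
modules is exact at the `j`-th place. -/
def ExtZero (R : Type v) [Ring R] (M : Type w) [AddCommGroup M] [Module R M] (j : ℕ) : Prop :=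
  ∀ (n : ℕ → ℕ) (B : ∀ k, Matrix (Fin (n (k + 1))) (Fin (n k)) R)
    (ε : (Fin (n 1) → R) →ₗ[R] M), IsRes n B ε →
    ∀ w, B (j + 1) *ᵥ w = 0 → ∃ u, B j *ᵥ u = w

/-- `… → R^{g 2} → R^{g 1} → E → 0`, `w ↦ C_k w`, is a resolution by finite free right modules of
`E = {w ∈ R^{n (d+1)} : B_{d+1} w = 0} / B_d R^{n d}` (`= Ext^d_R(M, R)` if `B` is a resolution
of `M`); `W : R^{g 1} → R^{n (d+1)}` induces `R^{g 1} → E`. -/
structure IsResExt (d : ℕ) (n : ℕ → ℕ) (B : ∀ k, Matrix (Fin (n (k + 1))) (Fin (n k)) R)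
    (g : ℕ → ℕ) (C : ∀ k, Matrix (Fin (g k)) (Fin (g (k + 1))) R)
    (W : Matrix (Fin (n (d + 1))) (Fin (g 1)) R) : Prop where
  zero : g 0 = 0
  cocycle : B (d + 1) * W = 0
  surj : ∀ w, B (d + 1) *ᵥ w = 0 → ∃ u t, W *ᵥ u + B d *ᵥ t = w
  ker : ∀ u, (∃ t, W *ᵥ u = B d *ᵥ t) ↔ ∃ v, C 1 *ᵥ v = u
  exact : ∀ k, 1 ≤ k → ∀ u, C k *ᵥ u = 0 ↔ ∃ v, C (k + 1) *ᵥ v = u

/-- The natural map `M → Ext^d_R(Ext^d_R(M, R), R)` is bijective: let `B` be a resolution of `M`,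
`C` a resolution of `Ext^d_R(M, R)` and `W_{j,k} : R^{g k} → R^{n j}`, `j + k = d + 2`, a morphism
of complexes which lifts the inclusion of `Ext^d_R(M, R)` into the cokernel of `B_d`; then the
natural map is induced by `v ↦ v W_{1,d+1}` from `R^{n 1} / R^{n 2} B_1` to
`{u ∈ R^{g (d+1)} : u C_{d+1} = 0} / R^{g d} C_d`. -/
def BidualBij (R : Type v) [Ring R] (M : Type w) [AddCommGroup M] [Module R M] (d : ℕ) : Prop :=
  ∀ (n : ℕ → ℕ) (B : ∀ k, Matrix (Fin (n (k + 1))) (Fin (n k)) R)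
    (ε : (Fin (n 1) → R) →ₗ[R] M), IsRes n B ε →
  ∀ (g : ℕ → ℕ) (C : ∀ k, Matrix (Fin (g k)) (Fin (g (k + 1))) R)
    (W : ∀ j k, j + k = d + 2 → Matrix (Fin (n j)) (Fin (g k)) R),
    IsResExt d n B g C (W (d + 1) 1 (by omega)) →
    (∀ j k (h : j + k = d + 1), W (j + 1) k (by omega) * C k = B j * W j (k + 1) (by omega)) →
    (∀ v : Fin (n 1) → R, (∃ t : Fin (g d) → R, v ᵥ* W 1 (d + 1) (by omega) = t ᵥ* C d) →
      ε v = 0) ∧
    ∀ u : Fin (g (d + 1)) → R, u ᵥ* C (d + 1) = 0 →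
      ∃ (v : Fin (n 1) → R) (t : Fin (g d) → R), v ᵥ* W 1 (d + 1) (by omega) + t ᵥ* C d = u

end Pool.Agent.DQ
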