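import Mathlib
import Pool.Agent.Lib.MP_4aa2a9_ag.DQ.Alg

/-!
# Official statement layer for MP_4aa2a9_ag and MP_b4eb46_ag

Everything used in the statements of the two results is defined in this file and in `Alg.lean`
(`IsRes`, `ExtZero`, `IsResExt`, `BidualBij`).  Sheaves are given by their sections with explicit
operations; `ħ` is `PowerSeries.X`.
-/

open TopologicalSpace

universe u

namespace Pool.Agent.DQOff

/-- A sheaf of `ℂ[[ħ]]`-modules on `X`.  (A sheaf on an open subset `D` of `X` is represented by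
its direct image on `X`; only its sections over open sets `V ≤ D` are ever used.) -/
structure Sheaf (X : Type u) [TopologicalSpace X] where
  sec : Opens X → Type u
  zero : ∀ V, sec V
  add : ∀ V, sec V → sec V → sec V
  neg : ∀ V, sec V → sec V
  smul : ∀ V, PowerSeries ℂ → sec V → sec V
  res : ∀ V W, V ≤ W → sec W → sec V
  add_comm : ∀ V s t, add V s t = add V t s
  add_assoc : ∀ V s t r, add V (add V s t) r = add V s (add V t r)
  zero_add : ∀ V s, add V (zero V) s = s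
  neg_add : ∀ V s, add V (neg V s) s = zero V
  one_smul : ∀ V s, smul V 1 s = s
  mul_smul : ∀ V a b s, smul V (a * b) s = smul V a (smul V b s)
  smul_add : ∀ V a s t, smul V a (add V s t) = add V (smul V a s) (smul V a t)
  add_smul : ∀ V a b s, smul V (a + b) s = add V (smul V a s) (smul V b s)
  res_add : ∀ V W (h : V ≤ W) s t, res V W h (add W s t) = add V (res V W h s) (res V W h t)
  res_smul : ∀ V W (h : V ≤ W) a s, res V W h (smul W a s) = smul V a (res V W h s)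
  res_id : ∀ V (h : V ≤ V) s, res V V h s = s
  res_res : ∀ V W Z (h : V ≤ W) (k : W ≤ Z) (l : V ≤ Z) s,
    res V W h (res W Z k s) = res V Z l s
  sep : ∀ V s t, (∀ x ∈ V, ∃ W, ∃ h : W ≤ V, x ∈ W ∧ res W V h s = res W V h t) → s = t
  glue : ∀ (V : Opens X) (ι : Type u) (U : ι → Opens X) (hU : ∀ a, U a ≤ V),
    (∀ x ∈ V, ∃ a, x ∈ U a) → ∀ s : ∀ a, sec (U a),
    (∀ a b W (h : W ≤ U a) (k : W ≤ U b), res W (U a) h (s a) = res W (U b) k (s b)) →
    ∃ t : sec V, ∀ a, res (U a) V (hU a) t = s a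

variable {X : Type u} [TopologicalSpace X]

/-- the sum of finitely many sections -/
def Sheaf.sum (F : Sheaf X) (V : Opens X) (k : ℕ) (s : Fin k → F.sec V) : F.sec V :=
  (List.ofFn s).foldr (F.add V) (F.zero V)

/-- A `ℂ[[ħ]]`-algebroid on `X`, given by its local objects: the object `i` lives on the open set
`dom i`, the morphisms between two objects form a sheaf `Hom i j` on `dom i ∩ dom j`, and
composition (`comp i j k V b a` is `b ∘ a`) is bilinear; the domains cover `X` and any two objects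
are locally isomorphic.  Only the sections, units and compositions over open sets inside the domains
matter. -/
structure Algebroid (X : Type u) [TopologicalSpace X] where
  Obj : Type u
  dom : Obj → Opens X
  covers : ∀ x : X, ∃ i, x ∈ dom i
  Hom : Obj → Obj → Sheaf X
  one : ∀ i V, (Hom i i).sec V
  comp : ∀ i j k V, (Hom j k).sec V → (Hom i j).sec V → (Hom i k).sec V
  add_comp : ∀ i j k V b c a,
    comp i j k V ((Hom j k).add V b c) a = (Hom i k).add V (comp i j k V b a) (comp i j k V c a)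
  comp_add : ∀ i j k V b a c,
    comp i j k V b ((Hom i j).add V a c) = (Hom i k).add V (comp i j k V b a) (comp i j k V b c)
  smul_comp : ∀ i j k V r b a,
    comp i j k V ((Hom j k).smul V r b) a = (Hom i k).smul V r (comp i j k V b a)
  comp_smul : ∀ i j k V r b a,
    comp i j k V b ((Hom i j).smul V r a) = (Hom i k).smul V r (comp i j k V b a)
  res_one : ∀ i V W (h : V ≤ W), W ≤ dom i → (Hom i i).res V W h (one i W) = one i V
  res_comp : ∀ i j k V W (h : V ≤ W), W ≤ dom i → W ≤ dom j → W ≤ dom k → ∀ b a,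
    (Hom i k).res V W h (comp i j k W b a) =
      comp i j k V ((Hom j k).res V W h b) ((Hom i j).res V W h a)
  one_comp : ∀ i j V, V ≤ dom i → V ≤ dom j → ∀ a, comp i j j V (one j V) a = a
  comp_one : ∀ i j V, V ≤ dom i → V ≤ dom j → ∀ a, comp i i j V a (one i V) = a
  assoc : ∀ i j k l V, V ≤ dom i → V ≤ dom j → V ≤ dom k → V ≤ dom l → ∀ c b a,
    comp i k l V c (comp i j k V b a) = comp i j l V (comp j k l V c b) a
  locally_iso : ∀ i j x, x ∈ dom i → x ∈ dom j → ∃ V, x ∈ V ∧ V ≤ dom i ∧ V ≤ dom j ∧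
    ∃ (a : (Hom i j).sec V) (b : (Hom j i).sec V),
      comp i j i V b a = one i V ∧ comp j i j V a b = one j V

/-- A (left) module over the algebroid `A` on the open set `D`: sheaves `sh i` on `dom i ∩ D` on
which the morphisms of `A` act bilinearly (a `ℂ[[ħ]]`-linear functor from `A` to sheaves).  As for
`Sheaf`, only the sections and actions over open sets `V ≤ dom i ∩ dom j ∩ D` matter. -/
structure Mod (A : Algebroid X) (D : Opens X) where
  sh : A.Obj → Sheaf X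
  act : ∀ i j V, (A.Hom i j).sec V → (sh i).sec V → (sh j).sec V
  add_act : ∀ i j V a b s,
    act i j V ((A.Hom i j).add V a b) s = (sh j).add V (act i j V a s) (act i j V b s)
  act_add : ∀ i j V a s t,
    act i j V a ((sh i).add V s t) = (sh j).add V (act i j V a s) (act i j V a t)
  smul_act : ∀ i j V r a s,
    act i j V ((A.Hom i j).smul V r a) s = (sh j).smul V r (act i j V a s)
  act_smul : ∀ i j V r a s,
    act i j V a ((sh i).smul V r s) = (sh j).smul V r (act i j V a s)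
  res_act : ∀ i j V W (h : V ≤ W), W ≤ A.dom i → W ≤ A.dom j → W ≤ D → ∀ a s,
    (sh j).res V W h (act i j W a s) = act i j V ((A.Hom i j).res V W h a) ((sh i).res V W h s)
  one_act : ∀ i V, V ≤ A.dom i → V ≤ D → ∀ s, act i i V (A.one i V) s = s
  comp_act : ∀ i j k V, V ≤ A.dom i → V ≤ A.dom j → V ≤ A.dom k → V ≤ D → ∀ b a s,
    act i k V (A.comp i j k V b a) s = act j k V b (act i j V a s)

/-! ### Coherence -/

variable {A : Algebroid X} {D : Opens X}

/-- `∑ c l · g l`, where `c l` are sections of `End i` and `g l` sections of `M` over `V` -/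
def Mod.lin (M : Mod A D) (i : A.Obj) (V : Opens X) (k : ℕ) (c : Fin k → (A.Hom i i).sec V)
    (g : Fin k → (M.sh i).sec V) : (M.sh i).sec V :=
  (M.sh i).sum V k fun l => M.act i i V (c l) (g l)

/-- the sections `g l` over `V` generate `M` on `V`: every section over `W ≤ V` is locally a linear
combination of them -/
def Mod.Generates (M : Mod A D) (i : A.Obj) (V : Opens X) (k : ℕ)
    (g : Fin k → (M.sh i).sec V) : Prop :=
  ∀ (W : Opens X), W ≤ V → ∀ (s : (M.sh i).sec W), ∀ x ∈ W,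
    ∃ Z, ∃ (h : Z ≤ W) (h' : Z ≤ V), x ∈ Z ∧ ∃ c : Fin k → (A.Hom i i).sec Z,
      (M.sh i).res Z W h s = M.lin i Z k c fun l => (M.sh i).res Z V h' (g l)

/-- the relations `r p` over `V` generate the module of relations on `V` of the sections `g l`
over `V` -/
def Mod.GenRel (M : Mod A D) (i : A.Obj) (V : Opens X) (k : ℕ) (g : Fin k → (M.sh i).sec V)
    (m : ℕ) (r : Fin m → Fin k → (A.Hom i i).sec V) : Prop :=
  (∀ p, M.lin i V k (r p) g = (M.sh i).zero V) ∧
  ∀ (W : Opens X) (h : W ≤ V) (c : Fin k → (A.Hom i i).sec W),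
    M.lin i W k c (fun l => (M.sh i).res W V h (g l)) = (M.sh i).zero W →
    ∀ x ∈ W, ∃ Z, ∃ (h : Z ≤ W) (h' : Z ≤ V), x ∈ Z ∧ ∃ e : Fin m → (A.Hom i i).sec Z, ∀ l,
      (A.Hom i i).res Z W h (c l) = (A.Hom i i).sum Z m fun p =>
        A.comp i i i Z (e p) ((A.Hom i i).res Z V h' (r p l))

/-- coherent module: locally finitely generated, and for finitely many sections `g l` over `U` the
module of relations is locally finitely generated. -/
def Mod.Coherent (M : Mod A D) : Prop :=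
  (∀ i, ∀ x ∈ A.dom i, x ∈ D → ∃ V, x ∈ V ∧ V ≤ A.dom i ∧ V ≤ D ∧
    ∃ (k : ℕ) (g : Fin k → (M.sh i).sec V), M.Generates i V k g) ∧
  ∀ i U, U ≤ A.dom i → U ≤ D → ∀ (k : ℕ) (g : Fin k → (M.sh i).sec U), ∀ x ∈ U,
    ∃ V, ∃ h : V ≤ U, x ∈ V ∧ ∃ (m : ℕ) (r : Fin m → Fin k → (A.Hom i i).sec V),
      M.GenRel i V k (fun l => (M.sh i).res V U h (g l)) m r

/-! ### Direct image -/

/-- `P` is the direct image `j_* M` for `j : D → X`: the map `r i V` identifies the sections of `P`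
over `V` with the sections of `M` over `V ∩ D`. -/
structure IsPush (M : Mod A D) (P : Mod A ⊤)
    (r : ∀ i V, (P.sh i).sec V → (M.sh i).sec (V ⊓ D)) : Prop where
  bij : ∀ i V, Function.Bijective (r i V)
  add : ∀ i V s t, r i V ((P.sh i).add V s t) = (M.sh i).add (V ⊓ D) (r i V s) (r i V t)
  smul : ∀ i V a s, r i V ((P.sh i).smul V a s) = (M.sh i).smul (V ⊓ D) a (r i V s)
  res : ∀ i V W (h : V ≤ W) (k : V ⊓ D ≤ W ⊓ D) s,
    r i V ((P.sh i).res V W h s) = (M.sh i).res (V ⊓ D) (W ⊓ D) k (r i W s)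
  act : ∀ i j V (k : V ⊓ D ≤ V) a s, r j V (P.act i j V a s) =
    M.act i j (V ⊓ D) ((A.Hom i j).res (V ⊓ D) V k a) (r i V s)

/-! ### Stalks, `Ext` and reflexivity -/

/-- `T` is the stalk of `F` at `x`, with the germ maps `g` -/
structure IsStalk (F : Sheaf X) (x : X) (T : Type u) [AddCommGroup T]
    (g : ∀ V, x ∈ V → F.sec V → T) : Prop where
  surj : ∀ t, ∃ V, ∃ (h : x ∈ V) (s : F.sec V), g V h s = t
  eq_iff : ∀ V W (h : x ∈ V) (k : x ∈ W) (s : F.sec V) (t : F.sec W), g V h s = g W k t ↔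
    ∃ Z, ∃ (h' : Z ≤ V) (k' : Z ≤ W), x ∈ Z ∧ F.res Z V h' s = F.res Z W k' t
  add : ∀ V (h : x ∈ V) s t, g V h (F.add V s t) = g V h s + g V h t

/-- the ring `R` is the stalk of `End i` at `x`, and the left `R`-module `T` is the stalk of `M` -/
structure IsStalkMod (M : Mod A D) (i : A.Obj) (x : X) (R T : Type u) [Ring R] [AddCommGroup T]
    [Module R T] (g : ∀ V, x ∈ V → (A.Hom i i).sec V → R) (h : ∀ V, x ∈ V → (M.sh i).sec V → T) :
    Prop where
  ring : IsStalk (A.Hom i i) x R g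
  module : IsStalk (M.sh i) x T h
  one : ∀ V (k : x ∈ V), V ≤ A.dom i → g V k (A.one i V) = 1
  mul : ∀ V (k : x ∈ V), V ≤ A.dom i → ∀ b a,
    g V k (A.comp i i i V b a) = g V k b * g V k a
  smul : ∀ V (k : x ∈ V), V ≤ A.dom i → V ≤ D → ∀ a s,
    h V k (M.act i i V a s) = g V k a • h V k s

/-- `Ext^j_A(M, A) = 0`, on stalks: `Ext^j_{A_x}(M_x, A_x) = 0` -/
def Mod.ExtZero (M : Mod A D) (j : ℕ) : Prop :=
  ∀ i, ∀ x ∈ A.dom i, x ∈ D → ∀ (R T : Type u) [Ring R] [AddCommGroup T] [Module R T] g h,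
    IsStalkMod M i x R T g h → Pool.Agent.DQ.ExtZero R T j

/-- the natural map `M → Ext^d_A(Ext^d_A(M, A), A)` is an isomorphism, on stalks -/
def Mod.BidualBij (M : Mod A D) (d : ℕ) : Prop :=
  ∀ i, ∀ x ∈ A.dom i, x ∈ D → ∀ (R T : Type u) [Ring R] [AddCommGroup T] [Module R T] g h,
    IsStalkMod M i x R T g h → Pool.Agent.DQ.BidualBij R T d

/-- `M` has no `ħ`-torsion -/
def Mod.TorsionFree (M : Mod A D) : Prop :=
  ∀ i V, V ≤ A.dom i → V ≤ D → ∀ s,
    (M.sh i).smul V PowerSeries.X s = (M.sh i).zero V → s = (M.sh i).zero V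

/-- `M` is `d`-reflexive: no `ħ`-torsion, `Ext^j_A(M, A) = 0` for `j < d`, and
`M → Ext^d_A(Ext^d_A(M, A), A)` is an isomorphism. -/
def Mod.Reflexive (M : Mod A D) (d : ℕ) : Prop :=
  M.TorsionFree ∧ (∀ j < d, M.ExtZero j) ∧ M.BidualBij d

/-! ### Star products on open subsets of `ℂ^n` -/

section star

variable {n : ℕ}

/-- `∂f/∂z_a` -/
noncomputable def dz (a : Fin n) (f : (Fin n → ℂ) → ℂ) : (Fin n → ℂ) → ℂ :=
  fun z => fderiv ℂ f z (Pi.single a 1)

/-- iterated derivative along a list of coordinates -/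
noncomputable def dzs (l : List (Fin n)) (f : (Fin n → ℂ) → ℂ) : (Fin n → ℂ) → ℂ :=
  l.foldr dz f

/-- a bidifferential operator: a finite sum of terms `c(z) ∂_l f ∂_m g` -/
abbrev BiDiff (n : ℕ) : Type :=
  List (((Fin n → ℂ) → ℂ) × List (Fin n) × List (Fin n))

/-- value of a bidifferential operator -/
noncomputable def BiDiff.ev (P : BiDiff n) (f g : (Fin n → ℂ) → ℂ) (z : Fin n → ℂ) : ℂ :=
  (P.map fun t => t.1 z * dzs t.2.1 f z * dzs t.2.2 g z).sum

/-- `f ⋆ g = ∑ P_k(f_i, g_j) ħ^{i+j+k}` for `f = ∑ f_i ħ^i`, `g = ∑ g_j ħ^j` -/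
noncomputable def starMul (P : ℕ → BiDiff n) (f g : ℕ → (Fin n → ℂ) → ℂ) :
    ℕ → (Fin n → ℂ) → ℂ :=
  fun m z => ∑ p ∈ Finset.HasAntidiagonal.antidiagonal m, ∑ q ∈ Finset.HasAntidiagonal.antidiagonal p.2,
    (P p.1).ev (f q.1) (g q.2) z

/-- a star product on the open subset `W` of `ℂ^n` -/
structure IsStar (W : Set (Fin n → ℂ)) (P : ℕ → BiDiff n) : Prop where
  hol : ∀ k, ∀ t ∈ P k, DifferentiableOn ℂ t.1 W
  zero : ∀ V ⊆ W, IsOpen V → ∀ f g : (Fin n → ℂ) → ℂ,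
    DifferentiableOn ℂ f V → DifferentiableOn ℂ g V → ∀ z ∈ V, (P 0).ev f g z = f z * g z
  unit : ∀ V ⊆ W, IsOpen V → ∀ f : (Fin n → ℂ) → ℂ,
    DifferentiableOn ℂ f V → ∀ k, 1 ≤ k → ∀ z ∈ V,
      (P k).ev f (fun _ => 1) z = 0 ∧ (P k).ev (fun _ => 1) f z = 0
  assoc : ∀ V ⊆ W, IsOpen V → ∀ f g h : ℕ → (Fin n → ℂ) → ℂ,
    (∀ k, DifferentiableOn ℂ (f k) V) → (∀ k, DifferentiableOn ℂ (g k) V) →
    (∀ k, DifferentiableOn ℂ (h k) V) → ∀ m, ∀ z ∈ V,
      starMul P (starMul P f g) h m z = starMul P f (starMul P g h) m z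

/-- sections of `O[[ħ]]` over `V`, normalised to vanish outside `V` -/
def IsHolSeq (V : Set (Fin n → ℂ)) (f : ℕ → (Fin n → ℂ) → ℂ) : Prop :=
  ∀ k, DifferentiableOn ℂ (f k) V ∧ ∀ z ∉ V, f k z = 0

end star

/-! ### Complex manifolds, DQ-algebroids, analytic sets -/

section manifold

open scoped Manifold ContDiff

variable (n : ℕ) (X : Type u) [TopologicalSpace X] [ChartedSpace (Fin n → ℂ) X]

/-- holomorphic coordinate charts of the complex manifold `X` -/
abbrev Chart : Set (OpenPartialHomeomorph X (Fin n → ℂ)) :=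
  IsManifold.maximalAtlas 𝓘(ℂ, Fin n → ℂ) ω X

variable {X}

/-- `End i`, over the open subset `V` on which the coordinates `e` are defined, is isomorphic (by
`Θ`) to the star algebra of `P` on `e(V)`. -/
structure IsStarChart (A : Algebroid X) (i : A.Obj) (e : X → Fin n → ℂ)
    (V : Opens X) (P : ℕ → BiDiff n)
    (Θ : ∀ W : Opens X, (A.Hom i i).sec W → ℕ → (Fin n → ℂ) → ℂ) : Prop where
  dom : V ≤ A.dom i
  star : IsStar (e '' V) P
  hol : ∀ W ≤ V, ∀ a, IsHolSeq (e '' W) (Θ W a)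
  surj : ∀ W ≤ V, ∀ f, IsHolSeq (e '' W) f → ∃ a, Θ W a = f
  inj : ∀ W ≤ V, ∀ a b, Θ W a = Θ W b → a = b
  add : ∀ W ≤ V, ∀ a b m z, Θ W ((A.Hom i i).add W a b) m z = Θ W a m z + Θ W b m z
  smul : ∀ W ≤ V, ∀ c a m z, Θ W ((A.Hom i i).smul W c a) m z =
    ∑ p ∈ Finset.HasAntidiagonal.antidiagonal m, PowerSeries.coeff p.1 c * Θ W a p.2 z
  mul : ∀ W ≤ V, ∀ b a m, ∀ z ∈ e '' W,
    Θ W (A.comp i i i W b a) m z = starMul P (Θ W b) (Θ W a) m z
  res : ∀ (W W' : Opens X) (h : W' ≤ W), W ≤ V → ∀ a m, ∀ z ∈ e '' W',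
    Θ W' ((A.Hom i i).res W' W h a) m z = Θ W a m z

/-- DQ-algebroid: locally equivalent to star algebras -/
def IsDQ (A : Algebroid X) : Prop :=
  ∀ i, ∀ x ∈ A.dom i, ∃ e ∈ Chart n X, ∃ (V : Opens X) (P : ℕ → BiDiff n)
    (Θ : ∀ W : Opens X, (A.Hom i i).sec W → ℕ → (Fin n → ℂ) → ℂ),
    x ∈ V ∧ (V : Set X) ⊆ e.source ∧ IsStarChart n A i e V P Θ

/-- closed complex analytic subset -/
def IsAnalytic (Y : Set X) : Prop :=
  IsClosed Y ∧ ∀ y ∈ Y, ∃ e ∈ Chart n X, y ∈ e.source ∧ ∃ (V : Opens (Fin n → ℂ)) (m : ℕ)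
    (f : Fin m → (Fin n → ℂ) → ℂ), e y ∈ V ∧ (V : Set (Fin n → ℂ)) ⊆ e.target ∧
    (∀ j, DifferentiableOn ℂ (f j) V) ∧ ∀ z ∈ V, e.symm z ∈ Y ↔ ∀ j, f j z = 0

/-- the analytic set `Y` has codimension `≥ c` at all its points: in suitable local coordinates at
`y` some `c`-dimensional plane through `y` meets `Y` near `y` only at `y` -/
def HasCodimGE (Y : Set X) (c : ℕ) : Prop :=
  ∀ y ∈ Y, ∃ e ∈ Chart n X, y ∈ e.source ∧ ∃ L : Submodule ℂ (Fin n → ℂ),
    Module.finrank ℂ L = c ∧ ∃ V : Opens X, y ∈ V ∧ (V : Set X) ⊆ e.source ∧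
      ∀ x ∈ V, x ∈ Y → e x - e y ∈ L → x = y

end manifold

/-! ### Localisation and lattices -/

/-- `A'` is the localisation `ℂ((ħ)) ⊗ A`, via `φ` and the bijection `o` of the local objects. -/
structure IsLoc (A A' : Algebroid X) (o : A.Obj → A'.Obj)
    (φ : ∀ i j V, (A.Hom i j).sec V → (A'.Hom (o i) (o j)).sec V) : Prop where
  obj : Function.Bijective o
  dom : ∀ i, A'.dom (o i) = A.dom i
  add : ∀ i j V a b, φ i j V ((A.Hom i j).add V a b) =
    (A'.Hom (o i) (o j)).add V (φ i j V a) (φ i j V b)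
  smul : ∀ i j V r a, φ i j V ((A.Hom i j).smul V r a) =
    (A'.Hom (o i) (o j)).smul V r (φ i j V a)
  res : ∀ i j V W (h : V ≤ W) a, W ≤ A.dom i → W ≤ A.dom j →
    φ i j V ((A.Hom i j).res V W h a) = (A'.Hom (o i) (o j)).res V W h (φ i j W a)
  one : ∀ i V, V ≤ A.dom i → φ i i V (A.one i V) = A'.one (o i) V
  comp : ∀ i j k V, V ≤ A.dom i → V ≤ A.dom j → V ≤ A.dom k → ∀ b a,
    φ i k V (A.comp i j k V b a) = A'.comp (o i) (o j) (o k) V (φ j k V b) (φ i j V a)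
  bij : ∀ i j V, V ≤ A'.dom i → V ≤ A'.dom j →
    Function.Bijective ((A'.Hom i j).smul V PowerSeries.X)
  ker : ∀ i j V, V ≤ A.dom i → V ≤ A.dom j → ∀ a, φ i j V a = (A'.Hom (o i) (o j)).zero V →
    ∀ x ∈ V, ∃ W, ∃ h : W ≤ V, x ∈ W ∧ ∃ k : ℕ,
      (A.Hom i j).smul W (PowerSeries.X ^ k) ((A.Hom i j).res W V h a) = (A.Hom i j).zero W
  surj : ∀ i j V, V ≤ A.dom i → V ≤ A.dom j → ∀ a, ∀ x ∈ V, ∃ W, ∃ h : W ≤ V, x ∈ W ∧
    ∃ (k : ℕ) (b : (A.Hom i j).sec W),
      (A'.Hom (o i) (o j)).smul W (PowerSeries.X ^ k) ((A'.Hom (o i) (o j)).res W V h a) =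
        φ i j W b

/-- `N` is an `A`-lattice of the `A'`-module `M`, embedded by `ι`: a coherent `A`-submodule with
`ℂ((ħ)) ⊗ N = M`. -/
structure IsLattice {A A' : Algebroid X} {D : Opens X} (o : A.Obj → A'.Obj)
    (φ : ∀ i j V, (A.Hom i j).sec V → (A'.Hom (o i) (o j)).sec V) (M : Mod A' D) (N : Mod A D)
    (ι : ∀ i V, (N.sh i).sec V → (M.sh (o i)).sec V) : Prop where
  coherent : N.Coherent
  add : ∀ i V s t, ι i V ((N.sh i).add V s t) = (M.sh (o i)).add V (ι i V s) (ι i V t)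
  smul : ∀ i V r s, ι i V ((N.sh i).smul V r s) = (M.sh (o i)).smul V r (ι i V s)
  res : ∀ i V W (h : V ≤ W) s, W ≤ A.dom i → W ≤ D →
    ι i V ((N.sh i).res V W h s) = (M.sh (o i)).res V W h (ι i W s)
  act : ∀ i j V, V ≤ A.dom i → V ≤ A.dom j → V ≤ D → ∀ a s,
    ι j V (N.act i j V a s) = M.act (o i) (o j) V (φ i j V a) (ι i V s)
  inj : ∀ i V, V ≤ A.dom i → V ≤ D → ∀ s, ι i V s = (M.sh (o i)).zero V → s = (N.sh i).zero V
  surj : ∀ i V, V ≤ A.dom i → V ≤ D → ∀ s, ∀ x ∈ V, ∃ W, ∃ h : W ≤ V, x ∈ W ∧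
    ∃ (k : ℕ) (t : (N.sh i).sec W),
      (M.sh (o i)).smul W (PowerSeries.X ^ k) ((M.sh (o i)).res W V h s) = ι i W t

end Pool.Agent.DQOff
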