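import Mathlib

/-! All base theorems: `BaseO` (modules W, C, S) and `BaseD` (module D, proved from `BaseO`). -/
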