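import Mathlib

/-! DQ: base theorems W, C, S. -/
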