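import Mathlib

/-! # DQ, module S: exported theorems

`fib`, `pull`, `pull_gm`, `EMod.push`, `EMod.pushVal`, `EMod.push_ext`, `EMod.push_at`,
`EMod.pushSec` (SPush), `EMod.exists_ext`, `EMod.push_on_mp`, `EMod.push_on`, `EMod.push_exists`
(SExt), `push_cohAt_of_push_push` (SIter), `exists_mon_kill` (SKill), `push_cohAt_disc`
(SPushDisc), `finite_mapping` (SFin), `finite_monic` (SMonic), `snp_range`, `snp`, `snp_regular`
(SNP). -/
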