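import Pool.Agent.Lib.MP_4aa2a9_ag.DQ.Alg

/-!
# DQ, module HA1, part k: transport of `ExtZero` and `BidualBij` along isomorphisms
-/

set_option autoImplicit false

universe v w w'

namespace Pool.Agent.DQ

open Matrix

section

variable {R : Type v} [Ring R] {M : Type w} [AddCommGroup M] [Module R M]
  {M' : Type w'} [AddCommGroup M'] [Module R M']

/-- transport of a resolution along an isomorphism -/
theorem IsRes.of_equiv {n : ℕ → ℕ} {B : ∀ k, Matrix (Fin (n (k + 1))) (Fin (n k)) R}
    {ε : (Fin (n 1) → R) →ₗ[R] M} (h : IsRes n B ε) (e : M ≃ₗ[R] M') :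
    IsRes n B (e.toLinearMap ∘ₗ ε) where
  zero := h.zero
  surj := e.surjective.comp h.surj
  ker v := by
    rw [← h.ker v]
    exact e.map_eq_zero_iff
  exact := h.exact

theorem ExtZero.of_equiv {j : ℕ} (h : ExtZero R M j) (e : M ≃ₗ[R] M') : ExtZero R M' j :=
  fun n B _ hres => h n B _ (hres.of_equiv e.symm)

theorem BidualBij.of_equiv {d : ℕ} (h : BidualBij R M d) (e : M ≃ₗ[R] M') :
    BidualBij R M' d := by
  intro n B ε hres g C W hE hW
  obtain ⟨h1, h2⟩ := h n B _ (hres.of_equiv e.symm) g C W hE hW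
  exact ⟨fun v hv => (e.symm.map_eq_zero_iff).1 (h1 v hv), h2⟩

/-- the linear equivalence given by an additive bijection compatible with scalars -/
noncomputable def linEquivOfMap (f : M → M') (hadd : ∀ m m', f (m + m') = f m + f m')
    (hsmul : ∀ (a : R) m, f (a • m) = a • f m) (hbij : Function.Bijective f) : M ≃ₗ[R] M' :=
  LinearEquiv.ofBijective { toFun := f, map_add' := hadd, map_smul' := hsmul } hbij

end

end Pool.Agent.DQ
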