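import Pool.Agent.Lib.MP_4aa2a9_ag.Mg.G049

/-!
# DQ, module L, part e: modules which are the cohomology of a dual complex; reflexivity
-/

set_option autoImplicit false

universe v w w' u

namespace Pool.Agent.DQ

open Matrix MulOpposite

section hd

variable {R : Type v} [Ring R] {E : Type w} [AddCommGroup E] [Module R E] {d : ℕ}
  {g : ℕ → ℕ} {C : ∀ k, Matrix (Fin (g k)) (Fin (g (k + 1))) R}

/-- `E` is the cohomology at `R^{g (d+1)}` of the row complex `C`, by the map `φ` on cycles -/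
structure HdMod (R : Type v) [Ring R] (E : Type w) [AddCommGroup E] [Module R E] (d : ℕ)
    (g : ℕ → ℕ) (C : ∀ k, Matrix (Fin (g k)) (Fin (g (k + 1))) R)
    (φ : (Fin (g (d + 1)) → R) → E) : Prop where
  add : ∀ u u', u ᵥ* C (d + 1) = 0 → u' ᵥ* C (d + 1) = 0 → φ (u + u') = φ u + φ u'
  smul : ∀ (a : R) u, u ᵥ* C (d + 1) = 0 → φ (a • u) = a • φ u
  surj : ∀ e, ∃ u, u ᵥ* C (d + 1) = 0 ∧ φ u = e
  ker : ∀ u, u ᵥ* C (d + 1) = 0 → (φ u = 0 ↔ ∃ t, t ᵥ* C d = u)

variable {φ : (Fin (g (d + 1)) → R) → E}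

theorem HdMod.sum (H : HdMod R E d g C φ) {a : ℕ} (v : Fin a → R)
    (u : Fin a → Fin (g (d + 1)) → R) (hu : ∀ i, u i ᵥ* C (d + 1) = 0) :
    φ (∑ i, v i • u i) = ∑ i, v i • φ (u i) := by
  have key : ∀ s : Finset (Fin a), (∑ i ∈ s, v i • u i) ᵥ* C (d + 1) = 0 ∧
      φ (∑ i ∈ s, v i • u i) = ∑ i ∈ s, v i • φ (u i) := by
    classical
    intro s
    induction s using Finset.induction_on with
    | empty =>
      refine ⟨by simp, ?_⟩
      rw [Finset.sum_empty, Finset.sum_empty]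
      exact (H.ker 0 (Matrix.zero_vecMul _)).2 ⟨0, Matrix.zero_vecMul _⟩
    | insert i s hi ih =>
      have h1 : (v i • u i) ᵥ* C (d + 1) = 0 := by rw [Matrix.smul_vecMul, hu, smul_zero]
      rw [Finset.sum_insert hi, Finset.sum_insert hi]
      exact ⟨by rw [Matrix.add_vecMul, h1, ih.1, add_zero], by
        rw [H.add _ _ h1 ih.1, ih.2, H.smul _ _ (hu i)]⟩
  exact (key Finset.univ).2

/-- presentation of `E` with respect to generators -/
theorem HdMod.exists_V (H : HdMod R E d g C φ) {a : ℕ} (ε : (Fin a → R) →ₗ[R] E)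
    (hε : Function.Surjective ε) :
    ∃ V : Matrix (Fin a) (Fin (g (d + 1))) R, HdPres d g C ε V := by
  choose u hu hφ using fun i : Fin a => H.surj (ε (Pi.single i 1))
  refine ⟨Matrix.of u, ?_⟩
  have hcyc : ∀ v : Fin a → R, (v ᵥ* Matrix.of u) ᵥ* C (d + 1) = 0 := by
    intro v
    rw [vecMul_eq_sum v, Matrix.sum_vecMul]
    refine Finset.sum_eq_zero fun i _ => ?_
    rw [Matrix.smul_vecMul]
    change v i • (u i ᵥ* C (d + 1)) = 0
    rw [hu, smul_zero]
  have hev : ∀ v : Fin a → R, φ (v ᵥ* Matrix.of u) = ε v := by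
    intro v
    have e2 : v = ∑ j, v j • (Pi.single j (1 : R) : Fin a → R) := by
      ext l
      simp [Finset.sum_apply, Pi.single_apply]
    rw [vecMul_eq_sum]
    refine (H.sum v u hu).trans ?_
    conv_rhs => rw [e2, map_sum]
    refine Finset.sum_congr rfl fun i _ => ?_
    rw [map_smul, hφ]
  refine ⟨hε, ?_, fun v => ?_, fun u' hu' => ?_⟩
  · refine mat_ext_row fun v => ?_
    rw [← Matrix.vecMul_vecMul, hcyc, Matrix.vecMul_zero]
  · rw [← hev, H.ker _ (hcyc v)]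
    exact exists_congr fun t => eq_comm
  · obtain ⟨v, hv⟩ := hε (φ u')
    have h1 : (u' - v ᵥ* Matrix.of u) ᵥ* C (d + 1) = 0 := by
      rw [Matrix.sub_vecMul, hu', hcyc, sub_zero]
    have h2 : φ (u' - v ᵥ* Matrix.of u) = 0 := by
      have h3 := H.add _ _ h1 (hcyc v)
      rw [sub_add_cancel, hev, hv] at h3
      exact left_eq_add.1 (h3.trans (add_comm _ _))
    obtain ⟨t, ht⟩ := (H.ker _ h1).1 h2
    exact ⟨v, t, by rw [ht]; abel⟩

theorem HdMod.finite (H : HdMod R E d g C φ) [IsNoetherianRing R] : Module.Finite R E := by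
  let Z : Submodule R (Fin (g (d + 1)) → R) := LinearMap.ker (Matrix.vecMulLinear (C (d + 1)))
  let f : Z →ₗ[R] E :=
    { toFun := fun z => φ z.1
      map_add' := fun z z' => H.add _ _ z.2 z'.2
      map_smul' := fun a z => H.smul _ _ z.2 }
  have : Module.Finite R Z := Module.IsNoetherian.finite R Z
  exact Module.Finite.of_surjective f fun e => by
    obtain ⟨u, hu, rfl⟩ := H.surj e
    exact ⟨⟨u, hu⟩, rfl⟩

/-- reflexivity of `E` -/
theorem HdMod.bidualBij {S : Type u} [CommRing S] {h : R} {π : R →+* S} (Q : RingSit h π)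
    (H : HdMod R E d g C φ) (T : TorMod R h d E) (hC0 : g 0 = 0)
    (hCC : ∀ k, C k * C (k + 1) = 0)
    (hCr : ∀ k < d, ∀ u, u ᵥ* C (k + 1) = 0 → ∃ t, t ᵥ* C k = u) : BidualBij R E d := by
  intro n' B' ε' hres g' C' W' hE hW
  have D : BiDat d n' B' ε' g' C' W' := ⟨hres, hE, hW⟩
  obtain ⟨V, hp⟩ := H.exists_V ε' hres.surj
  obtain ⟨-, m, hm⟩ := T.bidual Q D
  exact hp.bij D hC0 hCC hCr (fun j hj => T.colEx Q hres j hj) h m hm
    (fun u hu => T.rows_tf_pow Q hres hE m u hu)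

end hd

/-! ### The double dual lattice at a stalk -/

section hull

variable {R : Type v} [Ring R] {h : R} {d : ℕ} {N : Type w'} [AddCommGroup N] [Module R N]
  {M : Type w} [AddCommGroup M] [Module R M]

/-- `m` is an element of the double dual lattice -/
def InHull (R : Type v) [Ring R] (h : R) (d : ℕ) {N : Type w'} [AddCommGroup N] [Module R N]
    {M : Type w} [AddCommGroup M] [Module R M] (ι : N → M) (m : M) : Prop :=
  ∃ (n : ℕ → ℕ) (B : ∀ k, Matrix (Fin (n (k + 1))) (Fin (n k)) R) (ε : (Fin (n 1) → R) →ₗ[R] N)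
    (g : ℕ → ℕ) (C : ∀ k, Matrix (Fin (g k)) (Fin (g (k + 1))) R)
    (W : ∀ j k, j + k = d + 2 → Matrix (Fin (n j)) (Fin (g k)) R), BiDat d n B ε g C W ∧
    ∃ (k : ℕ) (m' : N), h ^ k • m = ι m' ∧ DivBy h C ε W m' k

/-- the double dual lattice -/
def hull (R : Type v) [Ring R] (h : R) (d : ℕ) {N : Type w'} [AddCommGroup N] [Module R N]
    {M : Type w} [AddCommGroup M] [Module R M] (ι : N → M) : Submodule R M :=
  Submodule.span R {m | InHull R h d ι m}

/-- the situation at a stalk -/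
structure StSit {S : Type u} [CommRing S] (h : R) (π : R →+* S) (d : ℕ) (ι : N → M) : Prop where
  Q : RingSit h π
  T : TorMod R h d N
  add : ∀ m m', ι (m + m') = ι m + ι m'
  smul : ∀ (a : R) m, ι (a • m) = a • ι m
  inj : ∀ m, ι m = 0 → m = 0
  bij : Function.Bijective fun m : M => h • m
  loc : ∀ m : M, ∃ (k : ℕ) (m' : N), h ^ k • m = ι m'

variable {S : Type u} [CommRing S] {π : R →+* S} {ι : N → M}
  {n : ℕ → ℕ} {B : ∀ k, Matrix (Fin (n (k + 1))) (Fin (n k)) R} {ε : (Fin (n 1) → R) →ₗ[R] N}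
  {g : ℕ → ℕ} {C : ∀ k, Matrix (Fin (g k)) (Fin (g (k + 1))) R}
  {W : ∀ j k, j + k = d + 2 → Matrix (Fin (n j)) (Fin (g k)) R}

/-- `m` is the image of the cycle `u` -/
def HRel (h : R) (ι : N → M) (C : ∀ k, Matrix (Fin (g k)) (Fin (g (k + 1))) R)
    (ε : (Fin (n 1) → R) →ₗ[R] N)
    (W : ∀ j k, j + k = d + 2 → Matrix (Fin (n j)) (Fin (g k)) R)
    (u : Fin (g (d + 1)) → R) (m : M) : Prop :=
  ∃ (k : ℕ) (v : Fin (n 1) → R) (t : Fin (g d) → R),
    v ᵥ* W 1 (d + 1) (by omega) + t ᵥ* C d = h ^ k • u ∧ h ^ k • m = ι (ε v)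

namespace StSit

variable (A : StSit h π d ι)

include A

theorem pow_inj (k : ℕ) {m m' : M} (e : h ^ k • m = h ^ k • m') : m = m' := by
  induction k with
  | zero => simpa using e
  | succ k ih =>
    refine ih (A.bij.1 ?_)
    change h • h ^ k • m = h • h ^ k • m'
    rw [← mul_smul, ← mul_smul, ← pow_succ', e]

theorem pow_surj (k : ℕ) (m : M) : ∃ m', h ^ k • m' = m := by
  induction k with
  | zero => exact ⟨m, by simp⟩
  | succ k ih =>
    obtain ⟨m', rfl⟩ := ih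
    obtain ⟨m'', hm⟩ := A.bij.2 m'
    exact ⟨m'', by rw [pow_succ, mul_smul]; exact congrArg _ hm⟩

theorem map_zero : ι 0 = 0 := by
  have := A.smul 0 0
  rwa [zero_smul, zero_smul] at this

theorem map_sub (m m' : N) : ι (m - m') = ι m - ι m' := by
  have := A.add (m - m') m'
  rw [sub_add_cancel] at this
  exact (sub_eq_of_eq_add this).symm

/-- the uniform exponent -/
theorem exists_rel (D : BiDat d n B ε g C W) :
    ∃ k : ℕ, ∀ u, u ᵥ* C (d + 1) = 0 → ∃ (m : M) (v : Fin (n 1) → R) (t : Fin (g d) → R),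
      v ᵥ* W 1 (d + 1) (by omega) + t ᵥ* C d = h ^ k • u ∧ h ^ k • m = ι (ε v) := by
  obtain ⟨-, k, hk⟩ := A.T.bidual A.Q D
  refine ⟨k, fun u hu => ?_⟩
  obtain ⟨v, t, hvt⟩ := hk u hu
  obtain ⟨m, hm⟩ := A.pow_surj k (ι (ε v))
  exact ⟨m, v, t, hvt, hm⟩

theorem rel_unique (D : BiDat d n B ε g C W) {u : Fin (g (d + 1)) → R} {m m' : M}
    (hm : HRel h ι C ε W u m) (hm' : HRel h ι C ε W u m') : m = m' := by
  obtain ⟨k, v, t, h1, h2⟩ := hm
  obtain ⟨k', v', t', h1', h2'⟩ := hm'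
  have h3 : ε (h ^ k' • v - h ^ k • v') = 0 := by
    refine (A.T.bidual A.Q D).1 _ ⟨h ^ k • t' - h ^ k' • t, ?_⟩
    have e1 : v ᵥ* W 1 (d + 1) (by omega) = h ^ k • u - t ᵥ* C d := by rw [← h1]; abel
    have e2 : v' ᵥ* W 1 (d + 1) (by omega) = h ^ k' • u - t' ᵥ* C d := by rw [← h1']; abel
    rw [Matrix.sub_vecMul, Matrix.smul_vecMul, Matrix.smul_vecMul, e1, e2, smul_sub, smul_sub,
      Matrix.sub_vecMul, Matrix.smul_vecMul, Matrix.smul_vecMul, ← mul_smul, ← mul_smul,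
      ← pow_add, ← pow_add, add_comm k' k]
    abel
  rw [_root_.map_sub, map_smul, map_smul, sub_eq_zero] at h3
  have h4 := congrArg ι h3
  rw [A.smul, A.smul, ← h2, ← h2', ← mul_smul, ← mul_smul, ← pow_add, ← pow_add,
    add_comm k' k] at h4
  exact A.pow_inj _ h4

/-- every representation with a divisible right hand side gives the image -/
theorem rel_of (D : BiDat d n B ε g C W) {u : Fin (g (d + 1)) → R}
    {m : M} (hm : HRel h ι C ε W u m) {k : ℕ} {v : Fin (n 1) → R} {t : Fin (g d) → R}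
    (h1 : v ᵥ* W 1 (d + 1) (by omega) + t ᵥ* C d = h ^ k • u) : h ^ k • m = ι (ε v) := by
  obtain ⟨m', hm'⟩ := A.pow_surj k (ι (ε v))
  have := A.rel_unique D hm ⟨k, v, t, h1, hm'⟩
  rw [this, hm']

open Classical in
/-- the map from cycles to `M` -/
noncomputable def _root_.Pool.Agent.DQ.hψ (h : R) (ι : N → M)
    (C : ∀ k, Matrix (Fin (g k)) (Fin (g (k + 1))) R)
    (ε : (Fin (n 1) → R) →ₗ[R] N)
    (W : ∀ j k, j + k = d + 2 → Matrix (Fin (n j)) (Fin (g k)) R)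
    (u : Fin (g (d + 1)) → R) : M := Classical.epsilon fun m => HRel h ι C ε W u m

theorem rel_hψ (D : BiDat d n B ε g C W) {u : Fin (g (d + 1)) → R} (hu : u ᵥ* C (d + 1) = 0) :
    HRel h ι C ε W u (hψ h ι C ε W u) := by
  obtain ⟨k, hk⟩ := A.exists_rel D
  obtain ⟨m, v, t, h1, h2⟩ := hk u hu
  exact Classical.epsilon_spec (p := fun m => HRel h ι C ε W u m) ⟨m, k, v, t, h1, h2⟩

theorem eq_hψ (D : BiDat d n B ε g C W) {u : Fin (g (d + 1)) → R} (hu : u ᵥ* C (d + 1) = 0)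
    {m : M} (hm : HRel h ι C ε W u m) : hψ h ι C ε W u = m :=
  A.rel_unique D (A.rel_hψ D hu) hm

theorem rel_add {u u' : Fin (g (d + 1)) → R} {m m' : M}
    (hm : HRel h ι C ε W u m) (hm' : HRel h ι C ε W u' m') : HRel h ι C ε W (u + u') (m + m') := by
  obtain ⟨k, v, t, h1, h2⟩ := hm
  obtain ⟨k', v', t', h1', h2'⟩ := hm'
  refine ⟨k + k', h ^ k' • v + h ^ k • v', h ^ k' • t + h ^ k • t', ?_, ?_⟩
  · have e1 : h ^ (k + k') • u = h ^ k' • (h ^ k • u) := by
      rw [← mul_smul, ← pow_add, add_comm k k']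
    have e2 : h ^ (k + k') • u' = h ^ k • (h ^ k' • u') := by rw [← mul_smul, ← pow_add]
    rw [smul_add, e1, e2, ← h1, ← h1']
    simp only [Matrix.add_vecMul, Matrix.smul_vecMul, smul_add]
    abel
  · have e1 : h ^ (k + k') • m = h ^ k' • (h ^ k • m) := by
      rw [← mul_smul, ← pow_add, add_comm k k']
    have e2 : h ^ (k + k') • m' = h ^ k • (h ^ k' • m') := by rw [← mul_smul, ← pow_add]
    rw [smul_add, e1, e2, h2, h2', _root_.map_add, map_smul, map_smul, A.add, A.smul, A.smul]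

theorem rel_smul (a : R) {u : Fin (g (d + 1)) → R} {m : M}
    (hm : HRel h ι C ε W u m) : HRel h ι C ε W (a • u) (a • m) := by
  obtain ⟨k, v, t, h1, h2⟩ := hm
  refine ⟨k, a • v, a • t, ?_, ?_⟩
  · rw [Matrix.smul_vecMul, Matrix.smul_vecMul, ← smul_add, h1, ← mul_smul, ← mul_smul,
      A.Q.red.pow_comm]
  · rw [← mul_smul, A.Q.red.pow_comm, mul_smul, h2, map_smul, A.smul]

theorem inHull_iff (D : BiDat d n B ε g C W) (m : M) :
    InHull R h d ι m ↔ ∃ u, u ᵥ* C (d + 1) = 0 ∧ hψ h ι C ε W u = m := by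
  constructor
  · rintro ⟨n', B', ε', g', C', W', D', k, m', h1, h2⟩
    obtain ⟨v, u, t, h3, h4, h5⟩ := D'.divBy D (fun j hj => A.T.colEx A.Q D.res j hj) h2
    refine ⟨u, h4, A.eq_hψ D h4 ⟨k, v, -t, ?_, ?_⟩⟩
    · rw [h5, Matrix.neg_vecMul]; abel
    · rw [h1, h3]
  · rintro ⟨u, hu, rfl⟩
    obtain ⟨k, v, t, h1, h2⟩ := A.rel_hψ D hu
    refine ⟨n, B, ε, g, C, W, D, k, ε v, h2, v, u, -t, rfl, hu, ?_⟩
    rw [← h1, Matrix.neg_vecMul]; abel

theorem mem_hull (D : BiDat d n B ε g C W) (m : M) :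
    m ∈ hull R h d ι ↔ ∃ u, u ᵥ* C (d + 1) = 0 ∧ hψ h ι C ε W u = m := by
  constructor
  · intro hm
    induction hm using Submodule.span_induction with
    | mem x hx => exact (A.inHull_iff D x).1 hx
    | zero =>
      refine ⟨0, Matrix.zero_vecMul _, A.eq_hψ D (Matrix.zero_vecMul _) ⟨0, 0, 0, ?_, ?_⟩⟩
      · rw [Matrix.zero_vecMul, Matrix.zero_vecMul, smul_zero, add_zero]
      · rw [smul_zero, _root_.map_zero, A.map_zero]
    | add x y _ _ hx hy =>
      obtain ⟨u, hu, rfl⟩ := hx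
      obtain ⟨u', hu', rfl⟩ := hy
      have h1 : (u + u') ᵥ* C (d + 1) = 0 := by rw [Matrix.add_vecMul, hu, hu', add_zero]
      exact ⟨u + u', h1, A.eq_hψ D h1 (A.rel_add (A.rel_hψ D hu) (A.rel_hψ D hu'))⟩
    | smul a x _ hx =>
      obtain ⟨u, hu, rfl⟩ := hx
      have h1 : (a • u) ᵥ* C (d + 1) = 0 := by rw [Matrix.smul_vecMul, hu, smul_zero]
      exact ⟨a • u, h1, A.eq_hψ D h1 (A.rel_smul a (A.rel_hψ D hu))⟩
  · intro hm
    exact Submodule.subset_span ((A.inHull_iff D m).2 hm)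

theorem hψ_add (D : BiDat d n B ε g C W) {u u' : Fin (g (d + 1)) → R}
    (hu : u ᵥ* C (d + 1) = 0) (hu' : u' ᵥ* C (d + 1) = 0) :
    hψ h ι C ε W (u + u') = hψ h ι C ε W u + hψ h ι C ε W u' :=
  A.eq_hψ D (by rw [Matrix.add_vecMul, hu, hu', add_zero])
    (A.rel_add (A.rel_hψ D hu) (A.rel_hψ D hu'))

theorem hψ_smul (D : BiDat d n B ε g C W) (a : R) {u : Fin (g (d + 1)) → R}
    (hu : u ᵥ* C (d + 1) = 0) : hψ h ι C ε W (a • u) = a • hψ h ι C ε W u :=
  A.eq_hψ D (by rw [Matrix.smul_vecMul, hu, smul_zero]) (A.rel_smul a (A.rel_hψ D hu))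

theorem hψ_ker (D : BiDat d n B ε g C W) {u : Fin (g (d + 1)) → R}
    (hu : u ᵥ* C (d + 1) = 0) : hψ h ι C ε W u = 0 ↔ ∃ t, t ᵥ* C d = u := by
  constructor
  · intro h0
    obtain ⟨k, v, t, h1, h2⟩ := A.rel_hψ D hu
    rw [h0, smul_zero] at h2
    obtain ⟨z, hz⟩ := (D.res.ker v).1 (A.inj _ h2.symm)
    refine A.T.rows_tf_pow A.Q D.res D.rext k u ⟨z ᵥ* W 2 d (by omega) + t, ?_⟩
    rw [← h1, ← hz, Matrix.add_vecMul, Matrix.vecMul_vecMul, ← D.rel 1 d (by omega),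
      Matrix.vecMul_vecMul]
  · rintro ⟨t, rfl⟩
    refine A.eq_hψ D hu ⟨0, 0, t, ?_, ?_⟩
    · rw [Matrix.zero_vecMul, zero_add, pow_zero, one_smul]
    · rw [smul_zero, _root_.map_zero, A.map_zero]

/-- the map from cycles to the hull -/
noncomputable def _root_.Pool.Agent.DQ.hφ (h : R) (ι : N → M)
    (C : ∀ k, Matrix (Fin (g k)) (Fin (g (k + 1))) R)
    (ε : (Fin (n 1) → R) →ₗ[R] N)
    (W : ∀ j k, j + k = d + 2 → Matrix (Fin (n j)) (Fin (g k)) R)
    (u : Fin (g (d + 1)) → R) : hull R h d ι :=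
  open Classical in if hm : hψ h ι C ε W u ∈ hull R h d ι then ⟨_, hm⟩ else 0

theorem coe_hφ (D : BiDat d n B ε g C W) {u : Fin (g (d + 1)) → R}
    (hu : u ᵥ* C (d + 1) = 0) : (hφ h ι C ε W u : M) = hψ h ι C ε W u := by
  have : hψ h ι C ε W u ∈ hull R h d ι := (A.mem_hull D _).2 ⟨u, hu, rfl⟩
  unfold hφ
  rw [dif_pos this]

theorem hdMod (D : BiDat d n B ε g C W) :
    HdMod R (hull R h d ι) d g C (hφ h ι C ε W) where
  add u u' hu hu' := by
    have h1 : (u + u') ᵥ* C (d + 1) = 0 := by rw [Matrix.add_vecMul, hu, hu', add_zero]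
    refine Subtype.ext ?_
    rw [A.coe_hφ D h1, Submodule.coe_add, A.coe_hφ D hu, A.coe_hφ D hu', A.hψ_add D hu hu']
  smul a u hu := by
    have h1 : (a • u) ᵥ* C (d + 1) = 0 := by rw [Matrix.smul_vecMul, hu, smul_zero]
    refine Subtype.ext ?_
    rw [A.coe_hφ D h1, Submodule.coe_smul, A.coe_hφ D hu, A.hψ_smul D a hu]
  surj e := by
    obtain ⟨u, hu, he⟩ := (A.mem_hull D _).1 e.2
    exact ⟨u, hu, Subtype.ext (by rw [A.coe_hφ D hu, he])⟩
  ker u hu := by
    rw [← A.hψ_ker D hu, ← A.coe_hφ D hu]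
    exact Submodule.coe_eq_zero.symm

/-- the lattice `N` is contained in the hull -/
theorem mem_hull_of (m : N) : ι m ∈ hull R h d ι := by
  obtain ⟨n, B, ε, g, C, W, D⟩ := A.T.exists_biDat A.Q
  refine Submodule.subset_span ⟨n, B, ε, g, C, W, D, 0, m, ?_, ?_⟩
  · rw [pow_zero, one_smul]
  · obtain ⟨v, rfl⟩ := D.res.surj m
    refine ⟨v, v ᵥ* W 1 (d + 1) (by omega), 0, rfl, ?_, ?_⟩
    · have h1 := D.rel 0 (d + 1) (by omega)
      rw [mul_eq_zero_of_mid D.res.zero] at h1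
      rw [Matrix.vecMul_vecMul]
      exact (congrArg (fun X => v ᵥ* X) h1).trans (Matrix.vecMul_zero _)
    · rw [pow_zero, one_smul, Matrix.zero_vecMul, add_zero]

theorem torMod : TorMod R h d (hull R h d ι) := by
  have := A.Q.noeth
  have := A.T.fin
  obtain ⟨n, B, ε, g, C, W, D⟩ := A.T.exists_biDat A.Q
  obtain ⟨k, hk⟩ := A.exists_rel D
  let α : N →ₗ[R] hull R h d ι :=
    { toFun := fun m => ⟨ι m, A.mem_hull_of m⟩
      map_add' := fun m m' => Subtype.ext (A.add m m')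
      map_smul' := fun a m => Subtype.ext (A.smul a m) }
  refine ⟨(A.hdMod D).finite, fun m hm => Subtype.ext (A.bij.1 ?_), fun j hj => ?_⟩
  · change h • (m : M) = h • 0
    rw [smul_zero]
    exact congrArg Subtype.val hm
  · refine A.Q.red.extTor_of_lattice α ?_ k (fun e => ?_) (A.T.ext j hj)
    · intro m m' hmm
      have h1 : ι m = ι m' := congrArg Subtype.val hmm
      exact sub_eq_zero.1 (A.inj _ (by rw [A.map_sub, h1, sub_self]))
    · obtain ⟨u, hu, he⟩ := (A.mem_hull D _).1 e.2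
      obtain ⟨m, v, t, h1, h2⟩ := hk u hu
      refine ⟨ε v, Subtype.ext ?_⟩
      change ι (ε v) = h ^ k • (e : M)
      rw [← h2, ← he, A.eq_hψ D hu ⟨k, v, t, h1, h2⟩]

theorem bidualBij : BidualBij R (hull R h d ι) d := by
  obtain ⟨n, B, ε, g, C, W, D⟩ := A.T.exists_biDat A.Q
  exact (A.hdMod D).bidualBij A.Q A.torMod D.rext.zero D.rext.mul_eq_zero
    (fun k hk u hu => A.T.rows_exact A.Q D.res D.rext k hk u hu)

theorem extZero (j : ℕ) (hj : j < d) : ExtZero R (hull R h d ι) j := A.torMod.extZero A.Q j hj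

end StSit

end hull

end Pool.Agent.DQ
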