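import Pool.Agent.Lib.MP_4aa2a9_ag.Mg.G018
import Pool.Agent.Lib.MP_4aa2a9_ag.Mg.G011

/-! # DQ, module HA2: finite free resolutions -/

set_option autoImplicit false

open Matrix RingTheory.Sequence IsLocalRing Pointwise

universe u v w

namespace Pool.Agent.DQ

theorem IsRes.congr {R : Type u} [Ring R] {M : Type v} [AddCommGroup M] [Module R M]
    {M' : Type w} [AddCommGroup M'] [Module R M'] {n : ℕ → ℕ}
    {B : ∀ k, Matrix (Fin (n (k + 1))) (Fin (n k)) R} {ε : (Fin (n 1) → R) →ₗ[R] M}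
    (h : IsRes n B ε) (e : M ≃ₗ[R] M') : IsRes n B (e.toLinearMap ∘ₗ ε) where
  zero := h.zero
  surj := e.surjective.comp h.surj
  ker v := by
    rw [← h.ker, LinearMap.comp_apply]
    exact e.map_eq_zero_iff
  exact := h.exact

/-- the ranks of the spliced resolution -/
def spN (n1 : ℕ) (n : ℕ → ℕ) : ℕ → ℕ
  | 0 => 0
  | 1 => n1
  | k + 2 => n (k + 1)

/-- the matrices of the spliced resolution -/
def spB {R : Type u} [Ring R] {n1 : ℕ} {n : ℕ → ℕ} (A : Matrix (Fin (n 1)) (Fin n1) R)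
    (B : ∀ k, Matrix (Fin (n (k + 1))) (Fin (n k)) R) :
    ∀ k, Matrix (Fin (spN n1 n (k + 1))) (Fin (spN n1 n k)) R
  | 0 => 0
  | 1 => A
  | k + 2 => B (k + 1)

/-- resolution of `M` from a resolution of the kernel of `R^{n1} → M` -/
theorem IsRes.splice {R : Type u} [Ring R] {M : Type v} [AddCommGroup M] [Module R M] {n1 : ℕ}
    (f : (Fin n1 → R) →ₗ[R] M) (hf : Function.Surjective f) {n : ℕ → ℕ}
    {B : ∀ k, Matrix (Fin (n (k + 1))) (Fin (n k)) R}
    {ε : (Fin (n 1) → R) →ₗ[R] LinearMap.ker f} (h : IsRes n B ε) :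
    ∃ A : Matrix (Fin (n 1)) (Fin n1) R, IsRes (spN n1 n) (spB A B) f := by
  let A : Matrix (Fin (n 1)) (Fin n1) R := Matrix.of fun i => (ε (Pi.single i 1) : Fin n1 → R)
  have hA : ∀ u : Fin (n 1) → R, u ᵥ* A = (ε u : Fin n1 → R) := by
    intro u
    rw [Matrix.vecMul_eq_sum]
    have h1 : u = ∑ i, u i • (Pi.single i (1 : R) : Fin (n 1) → R) := by
      ext k
      simp [Finset.sum_apply, Pi.single_apply]
    conv_rhs => rw [h1]
    rw [map_sum, Submodule.coe_sum]
    refine Finset.sum_congr rfl fun i _ => ?_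
    rw [map_smul]
    rfl
  refine ⟨A, ⟨rfl, hf, ?_, ?_⟩⟩
  · intro v
    change f v = 0 ↔ ∃ u, u ᵥ* A = v
    constructor
    · intro hv
      obtain ⟨u, hu⟩ := h.surj ⟨v, hv⟩
      exact ⟨u, by rw [hA, hu]⟩
    · rintro ⟨u, rfl⟩
      rw [hA]
      exact (ε u).2
  · intro k hk v
    obtain ⟨k, rfl⟩ : ∃ k', k = k' + 1 := ⟨k - 1, by omega⟩
    cases k with
    | zero =>
      refine (show ∀ v : Fin (n 1) → R, (v ᵥ* A = 0 ↔ ∃ u, u ᵥ* B 1 = v) from fun v => ?_) v
      rw [hA, ← h.ker]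
      exact Submodule.coe_eq_zero
    | succ k => exact h.exact (k + 1) (by omega) v

variable {R : Type u} [CommRing R]

/-- a module whose presentation splits is projective -/
theorem IsRes.projective {M : Type v} [AddCommGroup M] [Module R M] {n : ℕ → ℕ}
    {B : ∀ k, Matrix (Fin (n (k + 1))) (Fin (n k)) R} {ε : (Fin (n 1) → R) →ₗ[R] M}
    (h : IsRes n B ε) (h1 : VN (B 1)) : Module.Projective R M := by
  obtain ⟨S, hS⟩ := h1
  let e : (Fin (n 1) → R) →ₗ[R] (Fin (n 1) → R) := vecMulL R (1 - S * B 1)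
  have he : LinearMap.ker ε ≤ LinearMap.ker e := by
    intro v hv
    obtain ⟨u, rfl⟩ := (h.ker v).1 hv
    change (u ᵥ* B 1) ᵥ* (1 - S * B 1) = 0
    rw [Matrix.vecMul_vecMul, Matrix.mul_sub, Matrix.mul_one, ← Matrix.mul_assoc, hS, sub_self,
      vecMul_zero]
  let ε' : ((Fin (n 1) → R) ⧸ LinearMap.ker ε) ≃ₗ[R] M :=
    ε.quotKerEquivOfSurjective h.surj
  let i : M →ₗ[R] (Fin (n 1) → R) := (Submodule.liftQ _ e he) ∘ₗ ε'.symm.toLinearMap
  refine Module.Projective.of_split i ε ?_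
  apply LinearMap.ext
  intro m
  obtain ⟨v, rfl⟩ := h.surj m
  have h2 : ε'.symm (ε v) = Submodule.Quotient.mk v := by
    rw [LinearEquiv.symm_apply_eq]
    rfl
  have h3 : i (ε v) = e v := by
    change (Submodule.liftQ _ e he) (ε'.symm (ε v)) = e v
    rw [h2]
    rfl
  rw [LinearMap.comp_apply, h3, LinearMap.id_apply]
  change ε (v ᵥ* (1 - S * B 1)) = ε v
  rw [Matrix.vecMul_sub, Matrix.vecMul_one, map_sub, ← Matrix.vecMul_vecMul,
    (h.ker _).2 ⟨v ᵥ* S, rfl⟩, sub_zero]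

theorem exists_finite_isRes_of_free {M : Type v} [AddCommGroup M] [Module R M] [Nontrivial R]
    [Module.Finite R M] [Module.Free R M] :
    ∃ (n : ℕ → ℕ) (B : ∀ k, Matrix (Fin (n (k + 1))) (Fin (n k)) R)
      (ε : (Fin (n 1) → R) →ₗ[R] M), IsRes n B ε ∧ ∀ k, 1 < k → n k = 0 := by
  let b := Module.finBasis R M
  let n : ℕ → ℕ := fun k => if k = 1 then Module.finrank R M else 0
  refine ⟨n, fun k => 0, b.equivFun.symm.toLinearMap, ⟨rfl, b.equivFun.symm.surjective, ?_, ?_⟩, ?_⟩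
  · intro v
    rw [LinearEquiv.coe_coe, LinearEquiv.map_eq_zero_iff]
    constructor
    · rintro rfl
      exact ⟨0, by simp⟩
    · rintro ⟨u, rfl⟩
      simp
  · intro k hk v
    have : n (k + 1) = 0 := by simp only [n]; rw [if_neg (by omega)]
    have hv : v = 0 := by
      funext i
      exact absurd i.2 (by omega)
    subst hv
    simp
  · intro k hk
    simp only [n]
    rw [if_neg (by omega)]

theorem exists_finite_isRes_aux [IsNoetherianRing R] [IsLocalRing R] (d : ℕ) :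
    ∀ (M : Type u) [AddCommGroup M] [Module R M] [Module.Finite R M],
      (∀ (n : ℕ → ℕ) (B : ∀ k, Matrix (Fin (n (k + 1))) (Fin (n k)) R)
        (ε : (Fin (n 1) → R) →ₗ[R] M), IsRes n B ε → VN (B (d + 1))) →
      ∃ (n : ℕ → ℕ) (B : ∀ k, Matrix (Fin (n (k + 1))) (Fin (n k)) R)
        (ε : (Fin (n 1) → R) →ₗ[R] M), IsRes n B ε ∧ ∀ k, d + 1 < k → n k = 0 := by
  induction d with
  | zero =>
    intro M _ _ _ h
    obtain ⟨n, B, ε, hres⟩ := exists_isRes R M
    have := hres.projective (h n B ε hres)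
    have : Module.Free R M := Module.free_of_flat_of_isLocalRing
    exact exists_finite_isRes_of_free
  | succ d ih =>
    intro M _ _ _ h
    obtain ⟨n1, f, hf⟩ := Module.Finite.exists_fin' R M
    obtain ⟨n, B, ε, hres, hn⟩ := ih (LinearMap.ker f) (by
      intro n B ε hres
      obtain ⟨A, hA⟩ := hres.splice f hf
      exact h _ _ _ hA)
    obtain ⟨A, hA⟩ := hres.splice f hf
    refine ⟨_, _, _, hA, ?_⟩
    intro k hk
    obtain ⟨k, rfl⟩ : ∃ k', k = k' + 2 := ⟨k - 2, by omega⟩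
    exact hn (k + 1) (by omega)

/-- every finite module over a regular local ring has a finite free resolution of length at most
the dimension -/
theorem exists_finite_isRes [IsNoetherianRing R] [IsLocalRing R] {xs : List R} (hR : RegLoc R xs)
    (M : Type w) [AddCommGroup M] [Module R M] [Module.Finite R M] :
    ∃ (n : ℕ → ℕ) (B : ∀ k, Matrix (Fin (n (k + 1))) (Fin (n k)) R)
      (ε : (Fin (n 1) → R) →ₗ[R] M), IsRes n B ε ∧ ∀ k, xs.length + 1 < k → n k = 0 := by
  obtain ⟨n1, f, hf⟩ := Module.Finite.exists_fin' R M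
  obtain ⟨n, B, ε, h1, h2⟩ := exists_finite_isRes_aux (R := R) xs.length
    ((Fin n1 → R) ⧸ LinearMap.ker f) (by
      intro n B ε h
      exact VN.of_regLoc hR (a := 1) (fun k hk => h.exactAt hk) (by omega))
  exact ⟨n, B, _, h1.congr (f.quotKerEquivOfSurjective hf), h2⟩

end Pool.Agent.DQ
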