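import Pool.Agent.Lib.MP_4aa2a9_ag.Mg.G011

/-! # DQ, module HA2: the locus where a torsion-free module is not free -/

set_option autoImplicit false

open Matrix RingTheory.Sequence IsLocalRing Pointwise

universe u v w

namespace Pool.Agent.DQ

/-! ### minors over a field -/

section field

variable {K : Type u} [Field K] {p q : ℕ}

theorem exists_independent_rows (A : Matrix (Fin q) (Fin p) K) {s : ℕ} (hs : s ≤ A.rank) :
    ∃ f : Fin s → Fin q, LinearIndependent K (fun i => A (f i)) := by
  rw [Matrix.rank_eq_finrank_span_row] at hs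
  obtain ⟨b, h1, -, h3⟩ := Submodule.exists_fun_fin_finrank_span_eq K (Set.range A.row)
  choose g hg using h1
  refine ⟨fun i => g (Fin.castLE hs i), ?_⟩
  have h4 : (fun i => A (g (Fin.castLE hs i))) = fun i => b (Fin.castLE hs i) := by
    funext i
    exact hg _
  rw [h4]
  exact h3.comp _ (Fin.castLE_injective hs)

theorem exists_minor_of_rank (A : Matrix (Fin q) (Fin p) K) {s : ℕ} (hs : s ≤ A.rank) :
    ∃ (f : Fin s → Fin q) (g : Fin s → Fin p), (A.submatrix f g).det ≠ 0 := by
  obtain ⟨f, hf⟩ := exists_independent_rows A hs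
  have h1 : (A.submatrix f id).rank = s := by
    have : LinearIndependent K (A.submatrix f id).row := hf
    rw [this.rank_matrix, Fintype.card_fin]
  obtain ⟨g, hg⟩ := exists_independent_rows (A.submatrix f id)ᵀ (s := s)
    (by rw [Matrix.rank_transpose, h1])
  refine ⟨f, g, ?_⟩
  have h2 : LinearIndependent K (A.submatrix f g)ᵀ.row := hg
  have h3 := Matrix.linearIndependent_rows_iff_isUnit.1 h2
  rw [Matrix.isUnit_iff_isUnit_det, Matrix.det_transpose] at h3
  exact h3.ne_zero

theorem le_rank_of_minor (A : Matrix (Fin q) (Fin p) K) {s : ℕ} {f : Fin s → Fin q}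
    {g : Fin s → Fin p} (h : (A.submatrix f g).det ≠ 0) : s ≤ A.rank := by
  have h1 := Matrix.rank_of_det_ne_zero h
  rw [Fintype.card_fin] at h1
  rw [← h1]
  exact Matrix.rank_submatrix_le A f g

theorem rank_add_rank_of_add_eq_one {A B : Matrix (Fin q) (Fin q) K} (h : A + B = 1) :
    q ≤ A.rank + B.rank := by
  have h1 : (1 : Matrix (Fin q) (Fin q) K).rank = q := by simp
  have h2 : LinearMap.range (A + B).mulVecLin ≤
      LinearMap.range A.mulVecLin ⊔ LinearMap.range B.mulVecLin := by
    rintro _ ⟨v, rfl⟩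
    rw [Matrix.mulVecLin_add]
    exact Submodule.add_mem_sup ⟨v, rfl⟩ ⟨v, rfl⟩
  calc q = (A + B).rank := by rw [h, h1]
    _ ≤ Module.finrank K (LinearMap.range A.mulVecLin ⊔ LinearMap.range B.mulVecLin :
        Submodule K (Fin q → K)) := Submodule.finrank_mono h2
    _ ≤ A.rank + B.rank := Submodule.finrank_add_le_finrank_add_finrank _ _

end field

/-! ### minors of a von Neumann regular matrix -/

theorem VN.exists_unit_minor {R : Type u} [CommRing R] [IsDomain R] [IsLocalRing R] {p q : ℕ}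
    {A : Matrix (Fin q) (Fin p) R} (hA : VN A) {s : ℕ} {f : Fin s → Fin q} {g : Fin s → Fin p}
    (h : (A.submatrix f g).det ≠ 0) :
    ∃ (f : Fin s → Fin q) (g : Fin s → Fin p), IsUnit (A.submatrix f g).det := by
  obtain ⟨S, hS⟩ := hA
  let e : Matrix (Fin q) (Fin q) R := 1 - A * S
  have he : e * A = 0 := by
    simp only [e]
    rw [Matrix.sub_mul, Matrix.one_mul, hS, sub_self]
  have key : ∀ {a b c : ℕ} (C : Matrix (Fin a) (Fin b) R) (f : Fin c → Fin a) (g : Fin c → Fin b),
      ((C.map (residue R)).submatrix f g).det ≠ 0 → IsUnit (C.submatrix f g).det := by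
    intro a b c C f g hdet
    by_contra hn
    apply hdet
    have h1 : (C.submatrix f g).det ∈ maximalIdeal R := (mem_maximalIdeal _).2 hn
    rw [← residue_eq_zero_iff, RingHom.map_det] at h1
    exact h1
  have key' : ∀ {a b c : ℕ} (C : Matrix (Fin a) (Fin b) R) (f : Fin c → Fin a) (g : Fin c → Fin b),
      (C.submatrix f g).det ≠ 0 →
        ((C.map (algebraMap R (FractionRing R))).submatrix f g).det ≠ 0 := by
    intro a b c C f g hdet h1
    apply hdet
    have h2 : algebraMap R (FractionRing R) (C.submatrix f g).det = 0 := by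
      rw [RingHom.map_det]
      exact h1
    exact (IsFractionRing.injective R (FractionRing R)) (h2.trans (map_zero _).symm)
  have h1 : q ≤ (e.map (residue R)).rank + (A.map (residue R)).rank := by
    have h2 : e.map (residue R) + (A * S).map (residue R) = 1 := by
      rw [← Matrix.map_add _ (map_add _)]
      simp only [e, sub_add_cancel]
      exact Matrix.map_one _ (map_zero _) (map_one _)
    refine (rank_add_rank_of_add_eq_one h2).trans ?_
    rw [Matrix.map_mul]
    exact Nat.add_le_add_left (Matrix.rank_mul_le_left _ _) _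
  obtain ⟨f', g', hfg⟩ := exists_minor_of_rank (e.map (residue R)) le_rfl
  have h2 := le_rank_of_minor _ (key' e f' g' (key e f' g' hfg).ne_zero)
  have h3 := le_rank_of_minor _ (key' A f g h)
  have h4 : (e.map (algebraMap R (FractionRing R))).rank +
      (A.map (algebraMap R (FractionRing R))).rank ≤ q := by
    have := Matrix.rank_add_rank_le_card_of_mul_eq_zero
      (A := e.map (algebraMap R (FractionRing R))) (B := A.map (algebraMap R (FractionRing R)))
      (by rw [← Matrix.map_mul, he, Matrix.map_zero _ (map_zero _)])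
    simpa using this
  obtain ⟨f'', g'', hfg'⟩ := exists_minor_of_rank (A.map (residue R)) (s := s) (by omega)
  exact ⟨f'', g'', key A f'' g'' hfg'⟩

/-! ### the Fitting ideal of a torsion-free module -/

/-- the ideal generated by the minors of size `s` -/
def minorIdeal {R : Type u} [CommRing R] {p q : ℕ} (A : Matrix (Fin q) (Fin p) R) (s : ℕ) :
    Ideal R :=
  Ideal.span (Set.range fun x : (Fin s → Fin q) × (Fin s → Fin p) => (A.submatrix x.1 x.2).det)

variable {R : Type u} [CommRing R]

/-- a torsion-free module is a submodule of a free module (in terms of matrices) -/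
theorem exists_embedding [IsDomain R] {p q : ℕ} (A : Matrix (Fin q) (Fin p) R)
    (htf : ∀ a : R, a ≠ 0 → ∀ v, (∃ u, u ᵥ* A = a • v) → ∃ u, u ᵥ* A = v) :
    ∃ C : Matrix (Fin p) (Fin p) R, ∀ v, v ᵥ* C = 0 ↔ ∃ u, u ᵥ* A = v := by
  obtain ⟨T, hT⟩ := VN.of_field (A.map (algebraMap R (FractionRing R)))
  obtain ⟨⟨d, hd⟩, hdT⟩ := IsLocalization.exist_integer_multiples_of_finite (nonZeroDivisors R)
    (fun i : Fin p × Fin q => T i.1 i.2)
  choose T0 hT0 using hdT
  let T1 : Matrix (Fin p) (Fin q) R := Matrix.of fun i j => T0 (i, j)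
  have hd0 : d ≠ 0 := nonZeroDivisors.ne_zero hd
  have h1 : T1.map (algebraMap R (FractionRing R)) = algebraMap R (FractionRing R) d • T := by
    ext i j
    have := hT0 (i, j)
    simp only [Matrix.map_apply, T1, Matrix.of_apply, this, Matrix.smul_apply, smul_eq_mul,
      Algebra.smul_def]
  have h2 : A * T1 * A = d • A := by
    have h3 : (A * T1 * A).map (algebraMap R (FractionRing R)) =
        (d • A).map (algebraMap R (FractionRing R)) := by
      rw [Matrix.map_mul, Matrix.map_mul, h1, Matrix.mul_smul, Matrix.smul_mul, hT]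
      ext i j
      simp
    ext i j
    exact IsFractionRing.injective R (FractionRing R) (congrFun (congrFun h3 i) j)
  refine ⟨d • 1 - T1 * A, fun v => ⟨fun hv => ?_, ?_⟩⟩
  · apply htf d hd0
    refine ⟨v ᵥ* T1, ?_⟩
    rw [Matrix.vecMul_sub, Matrix.vecMul_smul, Matrix.vecMul_one, sub_eq_zero] at hv
    rw [Matrix.vecMul_vecMul, ← hv]
  · rintro ⟨u, rfl⟩
    rw [Matrix.vecMul_vecMul, Matrix.mul_sub, Matrix.mul_smul, Matrix.mul_one, ← Matrix.mul_assoc,
      h2, sub_self, vecMul_zero]

/-- a complex with given first two matrices -/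
theorem exists_complex [IsNoetherianRing R] {p q r : ℕ} (C : Matrix (Fin p) (Fin r) R)
    (A : Matrix (Fin q) (Fin p) R) (h : ∀ v, v ᵥ* C = 0 ↔ ∃ u, u ᵥ* A = v) :
    ∃ (n : ℕ → ℕ) (B : ∀ k, Matrix (Fin (n (k + 1))) (Fin (n k)) R) (h2 : n 2 = p) (h3 : n 3 = q),
      (∀ k, 1 ≤ k → ExactAt n B k) ∧ ∀ i j, B 2 (Fin.cast h3.symm i) (Fin.cast h2.symm j) = A i j := by
  have hnext : ∀ s : (Σ (q p : ℕ), Matrix (Fin p) (Fin q) R),
      ∃ (p' : ℕ) (A' : Matrix (Fin p') (Fin s.2.1) R), ∀ v, v ᵥ* s.2.2 = 0 ↔ ∃ u, u ᵥ* A' = v :=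
    fun s => exists_gens R (vecMulL R s.2.2)
  choose p' A' hA' using hnext
  let t : ℕ → (Σ (q p : ℕ), Matrix (Fin p) (Fin q) R) := fun k =>
    Nat.rec ⟨p, q, A⟩ (fun _ s => ⟨s.2.1, p' s, A' s⟩) k
  let n : ℕ → ℕ := fun k =>
    match k with
    | 0 => 0
    | 1 => r
    | k + 2 => (t k).1
  let B : ∀ k, Matrix (Fin (n (k + 1))) (Fin (n k)) R := fun k =>
    match k with
    | 0 => 0
    | 1 => C
    | k + 2 => (t k).2.2
  refine ⟨n, B, rfl, rfl, ?_, fun i j => rfl⟩
  intro k hk
  obtain ⟨k, rfl⟩ : ∃ k', k = k' + 1 := ⟨k - 1, by omega⟩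
  cases k with
  | zero => exact h
  | succ k => exact hA' (t k)

/-- The ideal of the minors of size `s` (at most the rank) of a presentation matrix of a
torsion-free module has grade at least `2`. -/
theorem gradeGE_minorIdeal [IsDomain R] [IsNoetherianRing R] [IsLocalRing R] {xs : List R}
    (hR : RegLoc R xs) {p q : ℕ} (A : Matrix (Fin q) (Fin p) R)
    (htf : ∀ a : R, a ≠ 0 → ∀ v, (∃ u, u ᵥ* A = a • v) → ∃ u, u ᵥ* A = v) {s : ℕ}
    {f : Fin s → Fin q} {g : Fin s → Fin p} (hfg : (A.submatrix f g).det ≠ 0) :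
    GradeGE (minorIdeal A s) 2 := by
  obtain ⟨C, hC⟩ := exists_embedding A htf
  obtain ⟨n, B, h2, h3, hex, hB⟩ := exists_complex C A hC
  rcases gradeGE_or_exists_prime (minorIdeal A s) 2 with h | ⟨rs, 𝔭, y, g1, g2, g3, g4, g5, g6, g7⟩
  · exact h
  exfalso
  have hvn := vn_loc (k := 2) g3 g7 hex (l := 1 + xs.length) (by omega)
    (VN.of_regLoc hR hex le_rfl) g1
  have hvn' : VN (A.map (algebraMap R (Localization.AtPrime 𝔭))) := by
    obtain ⟨S, hS⟩ := hvn
    refine ⟨S.submatrix (Fin.cast h2.symm) (Fin.cast h3.symm), ?_⟩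
    have hA : A.map (algebraMap R (Localization.AtPrime 𝔭)) =
        (locB 𝔭 B 2).submatrix (Fin.cast h3.symm) (Fin.cast h2.symm) := by
      ext i j
      simp only [Matrix.map_apply, Matrix.submatrix_apply, hB]
    rw [hA]
    have e2 : (Fin.cast h2.symm : Fin p → Fin (n 2)) = (finCongr h2.symm : Fin p ≃ Fin (n 2)) := rfl
    have e3 : (Fin.cast h3.symm : Fin q → Fin (n 3)) = (finCongr h3.symm : Fin q ≃ Fin (n 3)) := rfl
    rw [e2, e3, Matrix.submatrix_mul_equiv, Matrix.submatrix_mul_equiv]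
    exact congrArg (fun X => Matrix.submatrix X _ _) hS
  have hdom : IsDomain (Localization.AtPrime 𝔭) :=
    IsLocalization.isDomain_localization 𝔭.primeCompl_le_nonZeroDivisors
  obtain ⟨f', g', hu⟩ := hvn'.exists_unit_minor (f := f) (g := g) (by
    intro h0
    apply hfg
    have h1 : algebraMap R (Localization.AtPrime 𝔭) (A.submatrix f g).det = 0 := by
      rw [RingHom.map_det]
      exact h0
    exact (IsLocalization.injective (Localization.AtPrime 𝔭)
      𝔭.primeCompl_le_nonZeroDivisors) (h1.trans (map_zero _).symm))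
  have h5 : (A.submatrix f' g').det ∈ 𝔭 := g5 (Ideal.subset_span ⟨(f', g'), rfl⟩)
  have h6 : algebraMap R (Localization.AtPrime 𝔭) (A.submatrix f' g').det ∈
      maximalIdeal (Localization.AtPrime 𝔭) :=
    (IsLocalization.AtPrime.to_map_mem_maximal_iff (Localization.AtPrime 𝔭) 𝔭 _).2 h5
  rw [RingHom.map_det] at h6
  exact (mem_maximalIdeal _).1 h6 hu

end Pool.Agent.DQ
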