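import Pool.Agent.Lib.MP_4aa2a9_ag.Mg.G041
import Pool.Agent.Lib.MP_4aa2a9_ag.DQ.HA1p
import Pool.Agent.Lib.MP_4aa2a9_ag.Mg.G047

/-!
# DQ, module L: the sheaf of double dual lattices
-/

set_option autoImplicit false

open Set Filter Topology Matrix MulOpposite

universe u v w w'

namespace Pool.Agent.DQ

section ringsit

variable {V : Type u} [NormedAddCommGroup V] [NormedSpace ℂ V] [FiniteDimensional ℂ V]
  (𝓐 : Defo.{u, v} V)

theorem Defo.ringSit {x : V} (hx : x ∈ 𝓐.A.dom) : RingSit (𝓐.hb x) (𝓐.redHom hx) where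
  red := 𝓐.hRed hx
  noeth := 𝓐.isNoetherian hx
  noeth_op := 𝓐.isNoetherian_op hx
  noethS := O_isNoetherianRingL x
  gradeAnn := O_gradeAnn x
  pureExt := O_pureExt x
  vn := by
    obtain ⟨κ⟩ := exists_coord V
    have := O_isLocalRingL x
    exact ⟨this, _, fun n B hB k hk =>
      VN.of_regLoc (O_regLocL κ x) (a := 1) (fun k hk => hB.exact k hk) hk⟩

variable {𝓐}

/-- coherence of a sheaf which is the cohomology of a complex of free modules near `x` -/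
theorem cohAt_of_hd {F : EMod.{u, v, w} 𝓐.A} {x : V} (hxF : x ∈ F.dom) {a b c' : ℕ}
    {C1 : Fin a → Fin b → (x : V) → 𝓐.A.St x} {C2 : Fin b → Fin c' → (x : V) → 𝓐.A.St x}
    (h : HGood 𝓐 C1 C2 x) (φ : ∀ y, (Fin b → 𝓐.A.St y) → F.St y)
    (hadd : ∀ᶠ y in 𝓝 x, ∀ u u', u ᵥ* fm 𝓐 C2 y = 0 → u' ᵥ* fm 𝓐 C2 y = 0 →
      φ y (u + u') = φ y u + φ y u')
    (hsmul : ∀ᶠ y in 𝓝 x, ∀ (a : 𝓐.A.St y) u, u ᵥ* fm 𝓐 C2 y = 0 → φ y (a • u) = a • φ y u)
    (hsurj : ∀ᶠ y in 𝓝 x, ∀ m, ∃ u, u ᵥ* fm 𝓐 C2 y = 0 ∧ φ y u = m)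
    (hker : ∀ᶠ y in 𝓝 x, ∀ u, u ᵥ* fm 𝓐 C2 y = 0 → (φ y u = 0 ↔ ∃ t, t ᵥ* fm 𝓐 C1 y = u))
    (hat : ∀ u : (x : V) → Fin b → 𝓐.A.St x, (𝓐.A.free b).At u x →
      (∀ᶠ y in 𝓝 x, u y ᵥ* fm 𝓐 C2 y = 0) → F.At (fun y => φ y (u y)) x) : F.CohAt x := by
  obtain ⟨q, τ, hτ, hrel⟩ := ((𝓐.oka c').cohAt h.dom).relFG (rowsF 𝓐 C2) (fun i =>
    ⟨h.dom, fun j => h.at2 i j x rfl⟩)
  have hτat : ∀ i, (𝓐.A.free b).At (fun y j => τ i j y) x := fun i => ⟨h.dom, fun j => hτ i j⟩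
  have hcyc : ∀ᶠ y in 𝓝 x, ∀ i, (fun j => τ i j y) ᵥ* fm 𝓐 C2 y = 0 := by
    filter_upwards [hrel] with y hy i
    have h1 : (fun j => τ i j y) ∈ (𝓐.A.free c').rel (rowsF 𝓐 C2) y := by
      rw [hy]
      exact Submodule.subset_span ⟨i, rfl⟩
    rw [vecMul_eq_sum]
    exact h1
  -- sums
  have hsum : ∀ᶠ y in 𝓝 x, ∀ c : Fin q → 𝓐.A.St y,
      (∑ i, c i • fun j => τ i j y) ᵥ* fm 𝓐 C2 y = 0 ∧
        φ y (∑ i, c i • fun j => τ i j y) = ∑ i, c i • φ y (fun j => τ i j y) ∧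
        HMφ 𝓐 C1 C2 y (∑ i, c i • fun j => τ i j y) =
          ∑ i, c i • HMφ 𝓐 C1 C2 y (fun j => τ i j y) := by
    filter_upwards [hcyc, hadd, hsmul, hker, h.near] with y y1 y2 y3 y4 y5 c
    have key : ∀ s : Finset (Fin q), (∑ i ∈ s, c i • fun j => τ i j y) ᵥ* fm 𝓐 C2 y = 0 ∧
        φ y (∑ i ∈ s, c i • fun j => τ i j y) = ∑ i ∈ s, c i • φ y (fun j => τ i j y) ∧
        HMφ 𝓐 C1 C2 y (∑ i ∈ s, c i • fun j => τ i j y) =
          ∑ i ∈ s, c i • HMφ 𝓐 C1 C2 y (fun j => τ i j y) := by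
      classical
      intro s
      induction s using Finset.induction_on with
      | empty =>
        have h0 : (0 : Fin b → 𝓐.A.St y) ᵥ* fm 𝓐 C2 y = 0 := Matrix.zero_vecMul _
        rw [Finset.sum_empty, Finset.sum_empty, Finset.sum_empty]
        exact ⟨h0, (y4 0 h0).2 ⟨0, Matrix.zero_vecMul _⟩,
          (y5.φ_ker 0 h0).2 ⟨0, Matrix.zero_vecMul _⟩⟩
      | insert i s hi ih =>
        have h1 : (c i • fun j => τ i j y) ᵥ* fm 𝓐 C2 y = 0 := by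
          rw [Matrix.smul_vecMul, y1, smul_zero]
        rw [Finset.sum_insert hi, Finset.sum_insert hi, Finset.sum_insert hi]
        exact ⟨by rw [Matrix.add_vecMul, h1, ih.1, add_zero],
          by rw [y2 _ _ h1 ih.1, ih.2.1, y3 _ _ (y1 i)],
          by rw [y5.φ_add _ _ h1 ih.1, ih.2.2, y5.φ_smul _ _ (y1 i)]⟩
    exact key Finset.univ
  obtain ⟨m', ρ, hρ, hrel'⟩ := h.cohAt.relFG (fun i y => HMφ 𝓐 C1 C2 y (fun j => τ i j y))
    (fun i => h.φ_at _ (hτat i) (hcyc.mono fun y hy => hy i))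
  refine F.cohAt_of_lfp hxF (𝓐.relAt h.dom) (fun i y => φ y (fun j => τ i j y)) ρ
    (fun i => hat _ (hτat i) (hcyc.mono fun y hy => hy i)) hρ ?_ ?_
  · filter_upwards [hrel, hsum, hsurj] with y y1 y2 y3
    rw [eq_top_iff]
    intro m _
    obtain ⟨u, hu, rfl⟩ := y3 m
    have h1 : u ∈ (𝓐.A.free c').rel (rowsF 𝓐 C2) y := by
      rw [vecMul_eq_sum] at hu
      exact hu
    rw [y1] at h1
    obtain ⟨c, rfl⟩ := mem_span_fam.1 h1
    exact mem_span_fam.2 ⟨c, (y2 c).2.1⟩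
  · filter_upwards [hrel', hsum, hker, h.near] with y y1 y2 y3 y4
    rw [← y1]
    ext c
    have e1 : c ∈ F.rel (fun i y => φ y (fun j => τ i j y)) y ↔
        ∑ i, c i • φ y (fun j => τ i j y) = 0 := Iff.rfl
    have e2 : c ∈ (HM 𝓐 C1 C2).rel (fun i y => HMφ 𝓐 C1 C2 y (fun j => τ i j y)) y ↔
        ∑ i, c i • HMφ 𝓐 C1 C2 y (fun j => τ i j y) = 0 := Iff.rfl
    rw [e1, e2, ← (y2 c).2.1, ← (y2 c).2.2, y3 _ (y2 c).1, y4.φ_ker _ (y2 c).1]

end ringsit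

/-! ### The sheaf -/

section sheaf

variable {V : Type u} [NormedAddCommGroup V] [NormedSpace ℂ V] [FiniteDimensional ℂ V]

/-- the situation: `N` is a lattice in `M` near the points of `S` -/
structure LatSit (𝓐 : Defo.{u, v} V) (d : ℕ) (M : EMod.{u, v, w} 𝓐.A) (N : EMod.{u, v, w'} 𝓐.A)
    (ι : ∀ x, N.St x → M.St x) : Prop where
  dom : M.dom = N.dom
  coh : N.Coh N.dom
  st : ∀ x (hx : x ∈ N.dom),
    StSit (𝓐.hb x) (𝓐.redHom (N.dom_sub hx)) d (M := M.St x) (N := N.St x) (ι x)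
  ι_at : ∀ s x, N.At s x → M.At (fun y => ι y (s y)) x

variable {𝓐 : Defo.{u, v} V} {d : ℕ} {M : EMod.{u, v, w} 𝓐.A} {N : EMod.{u, v, w'} 𝓐.A}
  {ι : ∀ x, N.St x → M.St x}

namespace LatSit

variable (L : LatSit 𝓐 d M N ι)

include L

/-- the data near a point -/
theorem exists_data {x : V} (hx : x ∈ N.dom) : ∃ K n B G g C W, K ∈ 𝓝 x ∧ K ⊆ N.dom ∧
    BiF 𝓐 d N K n B G g C W := by
  obtain ⟨κ⟩ := exists_coord V
  obtain ⟨e, he, hsub⟩ := exists_cbox_subset κ x (N.isOpen_dom.mem_nhds hx)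
  have hgood : GoodRadii (fun _ : Fin (Module.finrank ℂ V) => (-1 : ℝ)) (fun _ => e) :=
    fun i => ⟨by norm_num, by linarith, he⟩
  obtain ⟨n, B, G, g, C, W, D⟩ := exists_biF (d := d) hgood
    (M := N) (κ := κ) (c := κ x) (fun y hy => L.coh y (hsub hy))
    (fun y hy => (L.st y (hsub hy)).T.tf)
    (fun y hy n B ε hres j hj => (L.st y (hsub hy)).T.colEx (L.st y (hsub hy)).Q hres j hj)
  refine ⟨_, n, B, G, g, C, W, ?_, hsub, D⟩
  exact Filter.mem_of_superset ((isOpen_box κ (κ x) (fun _ => -1) (fun _ => e)).mem_nhds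
      (center_mem_box κ x (fun _ => by norm_num) (fun _ => he))) (box_subset_cbox _ _ _ _)

variable {K : Set V} {n : ℕ → ℕ}
  {B : ∀ k, Fin (n (k + 1)) → Fin (n k) → (x : V) → 𝓐.A.St x}
  {G : Fin (n 1) → (x : V) → N.St x} {g : ℕ → ℕ}
  {C : ∀ k, Fin (g k) → Fin (g (k + 1)) → (x : V) → 𝓐.A.St x}
  {W : ∀ j k, j + k = d + 2 → (Fin (n j) → Fin (g k) → (x : V) → 𝓐.A.St x)}

omit [FiniteDimensional ℂ V] in
/-- the relation between cycles and elements of `M` is open -/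
theorem hrel_near (D : BiF 𝓐 d N K n B G g C W) {x : V} (hK : K ∈ 𝓝 x) (hKN : K ⊆ N.dom)
    {u : (x : V) → Fin (g (d + 1)) → 𝓐.A.St x} (hu : (𝓐.A.free (g (d + 1))).At u x)
    {s : (x : V) → M.St x} (hs : M.At s x)
    (h : HRel (𝓐.hb x) (ι x) (fC 𝓐 C x) (fe 𝓐 G x) (fun j k h => fm 𝓐 (W j k h) x) (u x) (s x)) :
    ∀ᶠ y in 𝓝 x, HRel (𝓐.hb y) (ι y) (fC 𝓐 C y) (fe 𝓐 G y) (fun j k h => fm 𝓐 (W j k h) y)
      (u y) (s y) := by
  have hxK : x ∈ K := mem_of_mem_nhds hK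
  have hxN := hKN hxK
  have hxd := N.dom_sub hxN
  obtain ⟨k, v₀, t₀, h1, h2⟩ := h
  choose v hv hv0 using fun i => 𝓐.A.surj x hxd (v₀ i)
  choose t ht ht0 using fun i => 𝓐.A.surj x hxd (t₀ i)
  have e2 : (fun i => v i x) = v₀ := funext hv0
  have e3 : (fun i => t i x) = t₀ := funext ht0
  have hpow : 𝓐.A.At (fun y => 𝓐.hb y ^ k) x := 𝓐.A.pow (𝓐.hb_at x hxd) k
  have h3 : ∀ᶠ y in 𝓝 x, (fun i => v i y) ᵥ* fm 𝓐 (W 1 (d + 1) (by omega)) y +
      (fun i => t i y) ᵥ* fm 𝓐 (C d) y = 𝓐.hb y ^ k • u y := by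
    refine (𝓐.A.free (g (d + 1))).inj (s := fun y =>
      (fun i => v i y) ᵥ* fm 𝓐 (W 1 (d + 1) (by omega)) y + (fun i => t i y) ᵥ* fm 𝓐 (C d) y)
      ⟨hxd, fun j => 𝓐.A.add
        (vecMul_at hxd (BiF.at_singleton (D.atW 1 (d + 1) (by omega)) hxK) hv j)
        (vecMul_at hxd (BiF.at_singleton (D.atC d) hxK) ht j)⟩
      ((𝓐.A.free (g (d + 1))).smul hpow hu) ?_
    change (fun i => v i x) ᵥ* fm 𝓐 (W 1 (d + 1) _) x + (fun i => t i x) ᵥ* fm 𝓐 (C d) x = _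
    rw [e2, e3]
    exact h1
  have h4 : ∀ᶠ y in 𝓝 x, 𝓐.hb y ^ k • s y = ι y (fe 𝓐 G y (fun i => v i y)) := by
    refine M.inj (M.smul hpow hs) (L.ι_at _ x (N.comb hxN hv fun i => D.atG i x hxK)) ?_
    refine h2.trans ?_
    rw [← e2]
  filter_upwards [h3, h4] with y y3 y4
  exact ⟨k, fun i => v i y, fun i => t i y, y3, y4⟩

theorem mem_hull_near {x : V} (hx : x ∈ N.dom) {s : (x : V) → M.St x} (hs : M.At s x)
    (h : s x ∈ hull (𝓐.A.St x) (𝓐.hb x) d (ι x)) :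
    ∀ᶠ y in 𝓝 x, s y ∈ hull (𝓐.A.St y) (𝓐.hb y) d (ι y) := by
  obtain ⟨K, n, B, G, g, C, W, hK, hKN, D⟩ := L.exists_data hx
  have hxK : x ∈ K := mem_of_mem_nhds hK
  have hxd := N.dom_sub hx
  obtain ⟨u₀, hu₀, h0⟩ := ((L.st x hx).mem_hull (D.dat x hxK) _).1 h
  choose u hu hu0 using fun i => 𝓐.A.surj x hxd (u₀ i)
  have e1 : (fun i => u i x) = u₀ := funext hu0
  have h1 : ∀ᶠ y in 𝓝 x, (fun i => u i y) ᵥ* fm 𝓐 (C (d + 1)) y = 0 := by
    refine (𝓐.A.free (g (d + 2))).inj (s := fun y => (fun i => u i y) ᵥ* fm 𝓐 (C (d + 1)) y)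
      (t := 0)
      ⟨hxd, fun j => vecMul_at hxd (BiF.at_singleton (D.atC (d + 1)) hxK) hu j⟩
      ((𝓐.A.free (g (d + 2))).zero x hxd) ?_
    change (fun i => u i x) ᵥ* fm 𝓐 (C (d + 1)) x = 0
    rw [e1]
    exact hu₀
  have h2 := L.hrel_near D hK hKN (u := fun y i => u i y) ⟨hxd, hu⟩ hs (by
    rw [e1, ← h0]
    exact (L.st x hx).rel_hψ (D.dat x hxK) hu₀)
  filter_upwards [h1, h2, hK] with y y1 y2 y3
  exact ((L.st y (hKN y3)).mem_hull (D.dat y y3) _).2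
    ⟨_, y1, (L.st y (hKN y3)).eq_hψ (D.dat y y3) y1 y2⟩

end LatSit

/-- the sheaf of double dual lattices -/
noncomputable def hullSh (L : LatSit 𝓐 d M N ι) : EMod.{u, v, w} 𝓐.A :=
  M.sub (fun x => hull (𝓐.A.St x) (𝓐.hb x) d (ι x)) (by
    intro x hx m hm
    obtain ⟨s, hs, rfl⟩ := M.surj x hx m
    exact ⟨s, hs, rfl, L.mem_hull_near (by rw [← L.dom]; exact hx) hs hm⟩)

namespace LatSit

variable (L : LatSit 𝓐 d M N ι)

theorem hull_cohAt {x : V} (hx : x ∈ N.dom) : (hullSh L).CohAt x := by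
  obtain ⟨K, n, B, G, g, C, W, hK, hKN, D⟩ := L.exists_data hx
  have hxK : x ∈ K := mem_of_mem_nhds hK
  have hxd := N.dom_sub hx
  have hxM : x ∈ M.dom := by rw [L.dom]; exact hx
  have hgood := D.good (hKN.trans N.dom_sub) hxK
  refine cohAt_of_hd (F := hullSh L) hxM hgood
    (fun y u => hφ (𝓐.hb y) (ι y) (fC 𝓐 C y) (fe 𝓐 G y) (fun j k h => fm 𝓐 (W j k h) y) u)
    ?_ ?_ ?_ ?_ ?_
  · filter_upwards [hK] with y hy u u' hu hu'
    exact ((L.st y (hKN hy)).hdMod (D.dat y hy)).add u u' hu hu'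
  · filter_upwards [hK] with y hy a u hu
    exact ((L.st y (hKN hy)).hdMod (D.dat y hy)).smul a u hu
  · filter_upwards [hK] with y hy m
    exact ((L.st y (hKN hy)).hdMod (D.dat y hy)).surj m
  · filter_upwards [hK] with y hy u hu
    exact ((L.st y (hKN hy)).hdMod (D.dat y hy)).ker u hu
  · intro u hu hcyc
    obtain ⟨s, hs, hs0⟩ := M.surj x hxM (hψ (𝓐.hb x) (ι x) (fC 𝓐 C x) (fe 𝓐 G x)
      (fun j k h => fm 𝓐 (W j k h) x) (u x))
    have h2 := L.hrel_near D hK hKN hu hs (by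
      rw [hs0]
      exact (L.st x hx).rel_hψ (D.dat x hxK) hcyc.self_of_nhds)
    refine M.congr hs ?_
    filter_upwards [hcyc, h2, hK] with y y1 y2 y3
    have e1 := (L.st y (hKN y3)).coe_hφ (D.dat y y3) y1
    have e2 := (L.st y (hKN y3)).eq_hψ (D.dat y y3) y1 y2
    exact (e1.trans e2).symm

theorem hull_refl : DRefl 𝓐 d (hullSh L) (hullSh L).dom where
  coh := by
    intro x hx
    have hx' : x ∈ N.dom := by
      rw [← L.dom]
      exact hx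
    filter_upwards [N.isOpen_dom.mem_nhds hx'] with y hy
    exact L.hull_cohAt hy
  tf := fun x hx => (L.st x (by rw [← L.dom]; exact hx)).torMod.tf
  ext := fun x hx => (L.st x (by rw [← L.dom]; exact hx)).extZero
  bid := fun x hx => (L.st x (by rw [← L.dom]; exact hx)).bidualBij

end LatSit

end sheaf

/-! ### The exported theorem -/

section final

variable {V : Type} [NormedAddCommGroup V] [NormedSpace ℂ V] [FiniteDimensional ℂ V]
  (𝓐 : Defo.{0, v} V)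

/-- the double dual lattice -/
theorem exists_hull (d : ℕ) (Y : Set V) (M : EMod.{0, v, w} 𝓐.A) (N : EMod.{0, v, w} 𝓐.A)
    (ι : ∀ x, N.St x → M.St x)
    (hMdom : M.dom = 𝓐.A.dom \ Y) (hNdom : N.dom = 𝓐.A.dom \ Y) (hN : N.Coh N.dom)
    (ι_add : ∀ x ∈ N.dom, ∀ m m', ι x (m + m') = ι x m + ι x m')
    (ι_smul : ∀ x ∈ N.dom, ∀ (a : 𝓐.A.St x) m, ι x (a • m) = a • ι x m)
    (ι_inj : ∀ x ∈ N.dom, ∀ m, ι x m = 0 → m = 0)
    (ι_at : ∀ s x, N.At s x → M.At (fun y => ι y (s y)) x)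
    (hbij : ∀ x ∈ N.dom, Function.Bijective fun m : M.St x => 𝓐.hb x • m)
    (hloc : ∀ x ∈ N.dom, ∀ m : M.St x, ∃ (k : ℕ) (m' : N.St x), 𝓐.hb x ^ k • m = ι x m')
    (hext : ∀ x ∈ N.dom, ∀ j, j ≠ d → ExtTor (𝓐.A.St x) (𝓐.hb x) (N.St x) j) :
    ∃ (N₂ : EMod.{0, v, w} 𝓐.A) (ι₂ : ∀ x, N₂.St x → M.St x), Hull 𝓐 d Y M N₂ ι₂ := by
  have htf : ∀ x ∈ N.dom, ∀ m : N.St x, 𝓐.hb x • m = 0 → m = 0 := by
    intro x hx m hm
    refine ι_inj x hx m ((hbij x hx).1 ?_)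
    change 𝓐.hb x • ι x m = 𝓐.hb x • 0
    rw [← ι_smul x hx, hm, smul_zero]
    have := ι_smul x hx 0 0
    rwa [zero_smul, zero_smul] at this
  have L : LatSit 𝓐 d M N ι :=
    { dom := by rw [hMdom, hNdom]
      coh := hN
      st := fun x hx =>
        { Q := 𝓐.ringSit (N.dom_sub hx)
          T := ⟨(hN.cohAt hx).finite, htf x hx, hext x hx⟩
          add := ι_add x hx
          smul := ι_smul x hx
          inj := ι_inj x hx
          bij := hbij x hx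
          loc := hloc x hx }
      ι_at := ι_at }
  refine ⟨hullSh L, fun x m => Submodule.subtype _ m, ?_⟩
  have hmem : ∀ x (m : M.St x), m ∈ range (fun m' : (hullSh L).St x =>
      (hull (𝓐.A.St x) (𝓐.hb x) d (ι x)).subtype m') ↔ m ∈ hull (𝓐.A.St x) (𝓐.hb x) d (ι x) := by
    intro x m
    constructor
    · rintro ⟨m', rfl⟩
      exact Submodule.coe_mem m'
    · intro hm
      exact ⟨⟨m, hm⟩, rfl⟩
  exact
    { dom := hMdom
      refl := L.hull_refl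
      add := fun x _ m m' => map_add (Submodule.subtype _) m m'
      smul := fun x _ a m => map_smul (Submodule.subtype _) a m
      inj := fun x => Submodule.injective_subtype _
      at_iff := fun s x => Iff.rfl
      range_near := fun s x hs hsx => by
        have hx : x ∈ N.dom := by rw [← L.dom]; exact M.mem_dom hs
        have h1 := L.mem_hull_near hx hs ((hmem x _).1 hsx)
        exact h1.mono fun y hy => (hmem y _).2 hy
      gen := fun x hx m => by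
        have hx' : x ∈ N.dom := by rw [← L.dom]; exact hx
        obtain ⟨k, m', hm'⟩ := hloc x hx' m
        exact ⟨k, ⟨ι x m', (L.st x hx').mem_hull_of m'⟩, hm'⟩ }

end final

end Pool.Agent.DQ
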