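import Pool.Agent.Lib.MP_4aa2a9_ag.Mg.G023

/-! Campaign DQ, module M12, block (f), file MF5a: the presentation over `X × ℂ ^ (d + 1)` as a one
variable step over `X × ℂ ^ d`. -/

set_option autoImplicit false
set_option linter.unusedVariables false

open Set Filter Topology

namespace Pool.Agent.DQ

namespace MF

variable {X V : Type} [NormedAddCommGroup X] [NormedSpace ℂ X] [NormedAddCommGroup V]
  [NormedSpace ℂ V] {ι : Type} {s d : ℕ}

/-- the operator `N₀` on `X × ℂ ^ d` -/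
noncomputable def upN (d : ℕ) (N₀ : Fin s → Fin s → X → ℂ) :
    Fin s → Fin s → X × (Fin d → ℂ) → ℂ := fun j l x => N₀ j l x.1

/-- the rows over `X × ℂ ^ d` for the operators number `1, …, d` -/
noncomputable def tailRows (ρ : ι → Fin s → X → ℂ) (N : Fin (d + 1) → Fin s → Fin s → X → ℂ) :
    ι ⊕ (Fin d × Fin s) → Fin s → X × (Fin d → ℂ) → ℂ :=
  bigRows (ContinuousLinearEquiv.refl ℂ (X × (Fin d → ℂ))) ρ fun i => N i.succ

/-- the projection to `X × ℂ ^ d` -/
noncomputable abbrev midR (e : V ≃L[ℂ] X × (Fin (d + 1) → ℂ)) : V ≃L[ℂ] (X × (Fin d → ℂ)) × ℂ :=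
  midL e (ContinuousLinearEquiv.refl ℂ (Fin (d + 1) → ℂ))

/-- Proof. As `Good.eventually`. -/
theorem Good1.eventually [Finite ι] {ρ : ι → Fin s → X → ℂ} {N₀ : Fin s → Fin s → X → ℂ} {c₀ : ℂ}
    {R₀ : ℝ} {b : X} (h : Good1 ρ N₀ c₀ R₀ b) : ∀ᶠ y in 𝓝 b, Good1 ρ N₀ c₀ R₀ y := by
  have hk : ∀ᶠ y in 𝓝 b, ∃ (l : ℕ) (a : Fin l → X → ℂ) (r' : ℝ), (∀ j, HolAt (a j) y) ∧
      r' < R₀ ∧ ∀ᶠ y in 𝓝 y, (∀ v, mon a y v = 0 → ‖v - c₀‖ < r') ∧
        ∀ c, chiN a N₀ y c ∈ rowSp ρ y := by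
    obtain ⟨l, a, r', ha, hr', h1⟩ := h.kill
    filter_upwards [eventually_all.mpr fun j => (ha j).eventually,
      eventually_eventually_nhds.mpr h1] with y h2 h3
    exact ⟨l, a, r', h2, hr', h3⟩
  filter_upwards [h.hρ.ev, h.hN.ev, eventually_eventually_nhds.mpr h.stab, hk] with y h1 h2 h3 h4
  exact ⟨h1, h2, h3, h4⟩

private theorem Nop_pv' {N₀ : Fin s → Fin s → X → ℂ} (y : X × (Fin d → ℂ)) {t : X}
    (h : ((ContinuousLinearEquiv.refl ℂ (X × (Fin d → ℂ))) y).1 = t) (hN : MatAt N₀ t)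
    (c : Fin s → (O X).St t) :
    Nop (upN d N₀) y (pv (ContinuousLinearEquiv.refl ℂ (X × (Fin d → ℂ))) h c) =
      pv (ContinuousLinearEquiv.refl ℂ (X × (Fin d → ℂ))) h (Nop N₀ t c) := by
  rw [Nop_apply, Nop_apply, pv_sum]
  refine Finset.sum_congr rfl fun j _ => ?_
  rw [pv_smul, pv_gv _ _ (hN j)]
  rfl

private theorem Nop_pow_pv' {N₀ : Fin s → Fin s → X → ℂ} (y : X × (Fin d → ℂ)) {t : X}
    (h : ((ContinuousLinearEquiv.refl ℂ (X × (Fin d → ℂ))) y).1 = t) (hN : MatAt N₀ t)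
    (k : ℕ) (c : Fin s → (O X).St t) :
    (Nop (upN d N₀) y ^ k) (pv (ContinuousLinearEquiv.refl ℂ (X × (Fin d → ℂ))) h c) =
      pv (ContinuousLinearEquiv.refl ℂ (X × (Fin d → ℂ))) h ((Nop N₀ t ^ k) c) := by
  induction k with
  | zero => rfl
  | succ k ih =>
    rw [pow_succ', pow_succ', Module.End.mul_apply, Module.End.mul_apply, ih, Nop_pv' y h hN]

private theorem chiN_pv' {N₀ : Fin s → Fin s → X → ℂ} {l : ℕ} {a : Fin l → X → ℂ}
    (y : X × (Fin d → ℂ)) {t : X} (h : ((ContinuousLinearEquiv.refl ℂ (X × (Fin d → ℂ))) y).1 = t)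
    (hN : MatAt N₀ t) (ha : ∀ j, HolAt (a j) t) (c : Fin s → (O X).St t) :
    chiN (fun j (x : X × (Fin d → ℂ)) => a j x.1) (upN d N₀) y
        (pv (ContinuousLinearEquiv.refl ℂ (X × (Fin d → ℂ))) h c) =
      pv (ContinuousLinearEquiv.refl ℂ (X × (Fin d → ℂ))) h (chiN a N₀ t c) := by
  unfold chiN
  rw [pv_add, pv_sum, Nop_pow_pv' y h hN]
  congr 1
  refine Finset.sum_congr rfl fun j _ => ?_
  rw [pv_smul, Nop_pow_pv' y h hN, pullS_gm _ _ (ha j)]
  rfl

/-- Operators and pull back: `Nop` for the pulled back matrix. Proof. `Nop_apply`, `pv_sum`, `pv_smul`, `pv_gv`. Here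
`gv (upN d N₀ j) y = pv (refl) rfl (gv (N₀ j) y.1)` by `pv_gv`. -/
theorem Nop_pv {N₀ : Fin s → Fin s → X → ℂ} (y : X × (Fin d → ℂ)) (hN : MatAt N₀ y.1)
    (c : Fin s → (O X).St y.1) :
    Nop (upN d N₀) y (pv (ContinuousLinearEquiv.refl ℂ (X × (Fin d → ℂ))) rfl c) =
      pv (ContinuousLinearEquiv.refl ℂ (X × (Fin d → ℂ))) rfl (Nop N₀ y.1 c) := by
  exact Nop_pv' y rfl hN c

/-- Proof. `Nop_pv` (iterated), `pv_add`, `pv_sum`, `pv_smul`, `pullS_gm`. -/
theorem chiN_pv {N₀ : Fin s → Fin s → X → ℂ} {l : ℕ} {a : Fin l → X → ℂ} (y : X × (Fin d → ℂ))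
    (hN : MatAt N₀ y.1) (ha : ∀ j, HolAt (a j) y.1) (c : Fin s → (O X).St y.1) :
    chiN (fun j (x : X × (Fin d → ℂ)) => a j x.1) (upN d N₀) y
        (pv (ContinuousLinearEquiv.refl ℂ (X × (Fin d → ℂ))) rfl c) =
      pv (ContinuousLinearEquiv.refl ℂ (X × (Fin d → ℂ))) rfl (chiN a N₀ y.1 c) := by
  exact chiN_pv' y rfl hN ha c

private theorem om_sub' {f g : V → ℂ} {x : V} (hf : HolAt f x) (hg : HolAt g x) :
    om (fun y => f y - g y) x = om f x - om g x := by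
  have h0 : om (fun y => (f y - g y) + g y) x = om (fun y => f y - g y) x + om g x :=
    om_add (hf.sub hg) hg
  have h1 : (fun y => (f y - g y) + g y) = f := by
    funext y
    exact sub_add_cancel _ _
  rw [h1] at h0
  rw [h0]
  exact (add_sub_cancel_right _ _).symm

private theorem eq_sum_single {x : V} (w : Fin s → (O V).St x) :
    w = ∑ j, w j • (Pi.single j 1 : Fin s → (O V).St x) := by
  funext i
  rw [Finset.sum_apply, Finset.sum_eq_single i]
  · simp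
  · intro j _ hj
    rw [Pi.smul_apply, Pi.single_eq_of_ne (Ne.symm hj), smul_zero]
  · intro h
    exact absurd (Finset.mem_univ i) h

private theorem Nop_single (N₀ : Fin s → Fin s → X → ℂ) (t : X) (j : Fin s) :
    Nop N₀ t (Pi.single j 1) = gv (N₀ j) t := by
  rw [Nop_apply, Finset.sum_eq_single j]
  · rw [Pi.single_eq_same, one_smul]
  · intro i _ hi
    rw [Pi.single_eq_of_ne hi, zero_smul]
  · intro h
    exact absurd (Finset.mem_univ j) h

private theorem gv_tail_inr {N : Fin (d + 1) → Fin s → Fin s → X → ℂ} (ρ : ι → Fin s → X → ℂ)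
    (y : X × (Fin d → ℂ)) {t : X} (h : ((ContinuousLinearEquiv.refl ℂ (X × (Fin d → ℂ))) y).1 = t)
    (hN : ∀ i, MatAt (N i) t) (i : Fin d) (j : Fin s) :
    gv (tailRows ρ N (Sum.inr (i, j))) y =
      om (fun y : X × (Fin d → ℂ) => y.2 i) y • (Pi.single j 1 : Fin s → (O (X × (Fin d → ℂ))).St y) -
        pv (ContinuousLinearEquiv.refl ℂ (X × (Fin d → ℂ))) h (gv (N i.succ j) t) := by
  have hcoord : HolAt (fun y : X × (Fin d → ℂ) => y.2 i) y :=
    Eventually.of_forall fun z => (((ContinuousLinearMap.proj i : (Fin d → ℂ) →L[ℂ] ℂ)).comp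
      (ContinuousLinearMap.snd ℂ X (Fin d → ℂ))).differentiableAt
  rw [pv_gv _ h (hN i.succ j)]
  funext l
  have hNl : HolAt (fun y : X × (Fin d → ℂ) => N i.succ j l y.1) y :=
    (hN i.succ j l).comp_fst (ContinuousLinearEquiv.refl ℂ (X × (Fin d → ℂ))) h
  by_cases hl : j = l
  · subst hl
    have h1 : tailRows ρ N (Sum.inr (i, j)) j =
        fun y : X × (Fin d → ℂ) => y.2 i - N i.succ j j y.1 := by
      funext y
      simp [tailRows, bigRows]
    change om (tailRows ρ N (Sum.inr (i, j)) j) y = _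
    rw [h1, om_sub' hcoord hNl, Pi.sub_apply, Pi.smul_apply, Pi.single_eq_same, smul_eq_mul, mul_one]
    rfl
  · have h1 : tailRows ρ N (Sum.inr (i, j)) l =
        fun y : X × (Fin d → ℂ) => (0 : ℂ) - N i.succ j l y.1 := by
      funext y
      simp [tailRows, bigRows, hl]
    change om (tailRows ρ N (Sum.inr (i, j)) l) y = _
    rw [h1, om_sub' (HolAt.const 0 y) hNl, Pi.sub_apply, Pi.smul_apply,
      Pi.single_eq_of_ne (Ne.symm hl), smul_zero, om_zero]
    rfl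

/-- **The hypotheses for the one variable step over `X × ℂ ^ d`.**

Proof. Let `E = refl`, `A = tailRows ρ N`. `hρ`: `bigRows_matAt`. `hN`: `HolAt.comp_fst`. All the conditions of `hG` hold at `y.1` for `y` near `x₁` (`tendsto_fst`,
and `Good.eventually`, `MatAt.ev`); fix such a `y` (rewrite `b` away first: `subst hx`).
`stab`: `rowSp A y` is spanned by the rows. Row `inl k`: it is `pv E rfl (gv (ρ k) y.1)`, so its image is `pv (Nop (N 0) _ (gv (ρ k) y.1))` (`Nop_pv`), in the row space by `hG.stab` and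
`pv_mem_big`. Row `inr (i, j)`: with `c = Pi.single j 1` it is `v_i • pv c - pv (Nop (N i.succ) c)` (`v_i = om (fun y => y.2 i) y`; `Nop (single j 1) = gv (N i.succ j)`), its image is
`v_i • pv (Nop (N 0) c) - pv (Nop (N 0) (Nop (N i.succ) c))`
`= [v_i • pv c' - pv (Nop (N i.succ) c')] + pv (Nop (N i.succ) (Nop (N 0) c) - Nop (N 0) (Nop (N i.succ) c))` with `c' = Nop (N 0) c`; the first bracket is in
the row space by `v_pv` with `vN_mem_big`, the second term by `hG.comm` and `pv_mem_big`.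
`kill`: `l`, `a`, `r'` of `hG.kill 0`, pulled back; the roots are the same (`mon (fun j x => a j x.1) y v = mon a y.1 v` by `rfl`). For `w : Fin s → _`: `w = ∑ j, w j • pv (single j 1)`
(`pv_single`), `chiN` is additive and homogeneous (it is a linear combination of powers of a linear map), `chiN_pv`, `pv_mem_big`. -/
theorem tail_good1 [Finite ι] [FiniteDimensional ℂ X] {ρ : ι → Fin s → X → ℂ}
    {N : Fin (d + 1) → Fin s → Fin s → X → ℂ} {cc : Fin (d + 1) → ℂ} {RR : Fin (d + 1) → ℝ} {b : X}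
    (hG : Good ρ N cc RR b) (x₁ : X × (Fin d → ℂ)) (hx : x₁.1 = b) :
    Good1 (tailRows ρ N) (upN d (N 0)) (cc 0) (RR 0) x₁ := by
  subst hx
  have hT : Tendsto (fun y : X × (Fin d → ℂ) => y.1) (𝓝 x₁) (𝓝 x₁.1) :=
    tendsto_fst (ContinuousLinearEquiv.refl ℂ (X × (Fin d → ℂ))) rfl
  have hGe : ∀ᶠ y : X × (Fin d → ℂ) in 𝓝 x₁, Good ρ N cc RR y.1 := hT.eventually hG.eventually
  have hE : ∀ y : X × (Fin d → ℂ), ((ContinuousLinearEquiv.refl ℂ (X × (Fin d → ℂ))) y).1 = y.1 :=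
    fun y => rfl
  refine ⟨bigRows_matAt _ (t := x₁.1) (hE x₁) hG.hρ fun i => hG.hN i.succ,
    fun k j => (hG.hN 0 k j).comp_fst (ContinuousLinearEquiv.refl ℂ (X × (Fin d → ℂ))) (hE x₁),
    ?_, ?_⟩
  · filter_upwards [hGe] with y hy
    have hstab := hy.stab.self_of_nhds
    have hcomm := hy.comm.self_of_nhds
    have hle : rowSp (tailRows ρ N) y ≤
        (rowSp (tailRows ρ N) y).comap (Nop (upN d (N 0)) y) := by
      refine Submodule.span_le.2 ?_
      rintro _ ⟨k | ⟨i, j⟩, rfl⟩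
      · have h1 : gv (tailRows ρ N (Sum.inl k)) y =
            pv (ContinuousLinearEquiv.refl ℂ (X × (Fin d → ℂ))) (hE y) (gv (ρ k) y.1) :=
          (pv_gv _ (hE y) (hy.hρ k)).symm
        change Nop (upN d (N 0)) y (gv (tailRows ρ N (Sum.inl k)) y) ∈ rowSp (tailRows ρ N) y
        rw [h1, Nop_pv' y (hE y) (hy.hN 0)]
        exact pv_mem_big _ (hE y) hy.hρ (hstab 0 _ (Submodule.subset_span ⟨k, rfl⟩))
      · change Nop (upN d (N 0)) y (gv (tailRows ρ N (Sum.inr (i, j))) y) ∈ rowSp (tailRows ρ N) y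
        rw [gv_tail_inr ρ y (hE y) hy.hN i j, map_sub, map_smul,
          ← pv_single (ContinuousLinearEquiv.refl ℂ (X × (Fin d → ℂ))) (hE y) j,
          Nop_pv' y (hE y) (hy.hN 0), Nop_pv' y (hE y) (hy.hN 0), ← Nop_single (N i.succ) y.1 j]
        have h2 := v_pv (ContinuousLinearEquiv.refl ℂ (X × (Fin d → ℂ))) (hE y)
          (N₀ := N i.succ) (φ := fun y : X × (Fin d → ℂ) => y.2 i) (rowSp (tailRows ρ N) y)
          (fun w => vN_mem_big (ContinuousLinearEquiv.refl ℂ (X × (Fin d → ℂ))) (hE y)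
            (fun i => hy.hN i.succ) i w) (Nop (N 0) y.1 (Pi.single j 1))
        have h3 : pv (ContinuousLinearEquiv.refl ℂ (X × (Fin d → ℂ))) (hE y)
            (Nop (N i.succ) y.1 (Nop (N 0) y.1 (Pi.single j 1)) -
              Nop (N 0) y.1 (Nop (N i.succ) y.1 (Pi.single j 1))) ∈ rowSp (tailRows ρ N) y :=
          pv_mem_big _ (hE y) hy.hρ (hcomm i.succ 0 (Pi.single j 1))
        rw [pv_sub] at h3
        have h4 := add_mem h2 h3
        rw [sub_add_sub_cancel] at h4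
        exact h4
    intro c hc
    exact hle hc
  · obtain ⟨l, a, r', ha, hr', h1⟩ := hG.kill 0
    refine ⟨l, fun j x => a j x.1, r',
      fun j => (ha j).comp_fst (ContinuousLinearEquiv.refl ℂ (X × (Fin d → ℂ))) (hE x₁), hr', ?_⟩
    filter_upwards [hT.eventually h1,
      hT.eventually (eventually_all.mpr fun j => (ha j).eventually), hGe] with y h2 h3 hy
    refine ⟨h2.1, fun c => ?_⟩
    let L : (Fin s → (O (X × (Fin d → ℂ))).St y) →ₗ[(O (X × (Fin d → ℂ))).St y]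
        (Fin s → (O (X × (Fin d → ℂ))).St y) :=
      Nop (upN d (N 0)) y ^ l + ∑ j : Fin l,
        om (fun x : X × (Fin d → ℂ) => a j x.1) y • Nop (upN d (N 0)) y ^ (j : ℕ)
    have hL : ∀ c, chiN (fun j (x : X × (Fin d → ℂ)) => a j x.1) (upN d (N 0)) y c = L c := by
      intro c
      simp only [L, chiN, LinearMap.add_apply, LinearMap.sum_apply, LinearMap.smul_apply]
    rw [hL, eq_sum_single c, map_sum]
    refine Submodule.sum_mem _ fun j _ => ?_
    rw [map_smul]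
    refine Submodule.smul_mem _ _ ?_
    rw [← hL, ← pv_single (ContinuousLinearEquiv.refl ℂ (X × (Fin d → ℂ))) (hE y) j,
      chiN_pv' y (hE y) (hy.hN 0) h3]
    exact pv_mem_big _ (hE y) hy.hρ (h2.2 _)

/-- Proof. Forget the operator number `0`. -/
theorem tail_good {ρ : ι → Fin s → X → ℂ} {N : Fin (d + 1) → Fin s → Fin s → X → ℂ}
    {cc : Fin (d + 1) → ℂ} {RR : Fin (d + 1) → ℝ} {b : X} (hG : Good ρ N cc RR b) :
    Good ρ (fun i => N i.succ) (fun i => cc i.succ) (fun i => RR i.succ) b := by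
  exact ⟨hG.hρ, fun i => hG.hN i.succ, hG.stab.mono fun _ h i => h i.succ,
    hG.comm.mono fun _ h i i' => h i.succ i'.succ, fun i => hG.kill i.succ⟩

/-- Proof. Both sides are spanned by the germs of the same families of functions: `stepRows .. (inl (inl k)) = bigRows .. (inl k)`,
`stepRows .. (inl (inr (i, j))) = bigRows .. (inr (i.succ, j))`, `stepRows .. (inr j) = bigRows .. (inr (0, j))`, all by `rfl` (`midL_apply`). Two inclusions with
`Submodule.span_mono` / `congrArg (Submodule.span _)` and `Set.ext`, `Fin.cases`. -/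
theorem rowSp_step_tail (e : V ≃L[ℂ] X × (Fin (d + 1) → ℂ)) (ρ : ι → Fin s → X → ℂ)
    (N : Fin (d + 1) → Fin s → Fin s → X → ℂ) (x : V) :
    rowSp (stepRows (midR e) (tailRows ρ N) (upN d (N 0))) x = rowSp (bigRows e ρ N) x := by
  refine congrArg (Submodule.span ((O V).St x)) (Set.ext fun c => ⟨?_, ?_⟩)
  · rintro ⟨(k | ⟨i, j⟩) | j, rfl⟩
    · exact ⟨Sum.inl k, rfl⟩
    · exact ⟨Sum.inr (i.succ, j), rfl⟩
    · exact ⟨Sum.inr (0, j), rfl⟩
  · rintro ⟨k | ⟨i, j⟩, rfl⟩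
    · exact ⟨Sum.inl (Sum.inl k), rfl⟩
    · refine Fin.cases ?_ (fun i => ?_) i
      · exact ⟨Sum.inr j, rfl⟩
      · exact ⟨Sum.inl (Sum.inr (i, j)), rfl⟩

/-- Proof. `mem_PD`, `Fin.forall_fin_succ`, `mem_closedBall_iff_norm`, `midL_apply`. -/
theorem mem_fib_mid (e : V ≃L[ℂ] X × (Fin (d + 1) → ℂ)) {cc : Fin (d + 1) → ℂ}
    {RR : Fin (d + 1) → ℝ} {b : X} {x : V} :
    x ∈ fib e (PD cc RR) b ↔
      (midR e x).1 ∈ fib (ContinuousLinearEquiv.refl ℂ (X × (Fin d → ℂ)))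
        (PD (fun i => cc i.succ) fun i => RR i.succ) b ∧
      x ∈ fib (midR e) (Metric.closedBall (cc 0) (RR 0)) (midR e x).1 := by
  constructor
  · rintro ⟨h1, h2⟩
    rw [mem_PD] at h2
    refine ⟨⟨h1, mem_PD.2 fun i => h2 i.succ⟩, rfl, ?_⟩
    rw [mem_closedBall_iff_norm]
    exact h2 0
  · rintro ⟨⟨h1, h2⟩, -, h3⟩
    rw [mem_PD] at h2
    rw [mem_closedBall_iff_norm] at h3
    refine ⟨h1, mem_PD.2 fun i => ?_⟩
    refine Fin.cases ?_ (fun i => ?_) i
    · exact h3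
    · exact h2 i

/-- Proof. Choose representing functions (`exists_gv`), `pv_gv` three times (`HolAt.comp_fst`). -/
theorem pv_pv (e : V ≃L[ℂ] X × (Fin (d + 1) → ℂ)) {x : V} {x₁ : X × (Fin d → ℂ)} {b : X}
    (h2 : (midR e x).1 = x₁) (h1 : x₁.1 = b) (h : (e x).1 = b) (c : Fin s → (O X).St b) :
    pv (midR e) h2 (pv (ContinuousLinearEquiv.refl ℂ (X × (Fin d → ℂ))) h1 c) = pv e h c := by
  obtain ⟨a, ha, rfl⟩ := exists_gv c
  rw [pv_gv _ h1 ha, pv_gv _ h ha, pv_gv]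
  · rfl
  · intro j
    exact (ha j).comp_fst (ContinuousLinearEquiv.refl ℂ (X × (Fin d → ℂ))) h1

end MF

end Pool.Agent.DQ
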