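import Pool.Agent.Lib.MP_4aa2a9_ag.Mg.G026
import Pool.Agent.Lib.MP_4aa2a9_ag.Mg.G025

/-! Campaign DQ, module M12, block (f), file MF5d: direct image of the cokernel of `bigRows`. -/

set_option autoImplicit false
set_option linter.unusedVariables false

open Set Filter Topology

namespace Pool.Agent.DQ

namespace MF

variable {X : Type} [NormedAddCommGroup X] [NormedSpace ℂ X] [FiniteDimensional ℂ X]
  {ι : Type} [Fintype ι] {s : ℕ}

/-- **`d` variables, injectivity.**

Proof. Induction on `d` (all other data general). `d = 0`: `zero_inj`. `d + 1`: let `E = refl` on `X × (Fin d → ℂ)`. By the induction hypothesis for `E`, `tail_good hG`, it suffices that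
`pv E hx₁.1 c ∈ rowSp (tailRows ρ N) x₁` for all `x₁` in the fibre of `E` over `b` (`tailRows` unfolds to `bigRows E ρ (fun i => N i.succ)`). For this use `step_inj` for `midR e`,
`tail_good1 hG x₁ hx₁.1`: for `x` in the fibre of `midR e` over `x₁` the point `x` is in the fibre of `e` over `b` (`mem_fib_mid`), and
`pv (midR e) _ (pv E _ c) = pv e _ c` (`pv_pv`) is in `rowSp (bigRows e ρ N) x`, which is the row space of the step (`rowSp_step_tail`). -/
theorem big_inj (d : ℕ) : ∀ {V : Type} [NormedAddCommGroup V] [NormedSpace ℂ V]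
    [FiniteDimensional ℂ V] (e : V ≃L[ℂ] X × (Fin d → ℂ)) {ρ : ι → Fin s → X → ℂ}
    {N : Fin d → Fin s → Fin s → X → ℂ} {cc : Fin d → ℂ} {RR : Fin d → ℝ} {b : X}
    (hG : Good ρ N cc RR b) (c : Fin s → (O X).St b)
    (h : ∀ x (hx : x ∈ fib e (PD cc RR) b), pv e hx.1 c ∈ rowSp (bigRows e ρ N) x),
    c ∈ rowSp ρ b := by
  induction d with
  | zero =>
    intro V _ _ _ e ρ N cc RR b hG c h
    exact zero_inj e hG.hρ c h
  | succ d ih =>
    intro V _ _ _ e ρ N cc RR b hG c h
    refine ih (ContinuousLinearEquiv.refl ℂ (X × (Fin d → ℂ))) (tail_good hG) c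
      fun x₁ hx₁ => ?_
    refine step_inj (midR e) (tail_good1 hG x₁ hx₁.1) _ fun x hx => ?_
    have h1 : x ∈ fib e (PD cc RR) b := by
      refine (mem_fib_mid e).2 ⟨?_, ?_⟩
      · rw [hx.1]
        exact hx₁
      · rw [hx.1]
        exact hx
    rw [rowSp_step_tail, pv_pv e hx.1 hx₁.1 h1.1]
    exact h x h1

/-- **`d` variables, surjectivity.**

Proof. Induction on `d`. `d = 0`: `zero_surj`. `d + 1`: `exists_solution` for `midR e`, the rows `tailRows ρ N`, `N₀ = upN d (N 0)`, `S = fib E (PD (cc ∘ succ) (RR ∘ succ)) b` (`E = refl` on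
`X × (Fin d → ℂ)`), with `tail_good1`; the `SecMod` hypothesis is `hu` transported by `SecMod.congr_rows rowSp_step_tail` and `mem_fib_mid`. It gives `u₁`. The induction hypothesis for `E`, `u₁`,
`tail_good hG` gives `c` with `u₁ x₁ - pv E hx₁.1 c ∈ rowSp (tailRows ρ N) x₁`. For `x` in the fibre of `e` over `b`, `x₁ = (midR e x).1` (`mem_fib_mid`):
`u x - pv (midR e) rfl (u₁ x₁)` is in the row space, and `pv (midR e) rfl (u₁ x₁ - pv E _ c)` too (`pv_mem_step` with `e := midR e`); add, `pv_sub`, `pv_pv`, `rowSp_step_tail`. -/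
theorem big_surj (d : ℕ) : ∀ {V : Type} [NormedAddCommGroup V] [NormedSpace ℂ V]
    [FiniteDimensional ℂ V] (e : V ≃L[ℂ] X × (Fin d → ℂ)) {ρ : ι → Fin s → X → ℂ}
    {N : Fin d → Fin s → Fin s → X → ℂ} {cc : Fin d → ℂ} {RR : Fin d → ℝ} {b : X}
    (hG : Good ρ N cc RR b) (u : (x : V) → Fin s → (O V).St x)
    (hu : ∀ x ∈ fib e (PD cc RR) b, SecMod (bigRows e ρ N) u x),
    ∃ c : Fin s → (O X).St b, ∀ x (hx : x ∈ fib e (PD cc RR) b),
      u x - pv e hx.1 c ∈ rowSp (bigRows e ρ N) x := by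
  induction d with
  | zero =>
    intro V _ _ _ e ρ N cc RR b hG u hu
    exact zero_surj e u
  | succ d ih =>
    intro V _ _ _ e ρ N cc RR b hG u hu
    obtain ⟨u₁, hu₁, hu₂⟩ := exists_solution (midR e) (ρ := tailRows ρ N) (N₀ := upN d (N 0))
      (c₀ := cc 0) (R₀ := RR 0) (fib (ContinuousLinearEquiv.refl ℂ (X × (Fin d → ℂ)))
        (PD (fun i => cc i.succ) fun i => RR i.succ) b)
      (fun x₁ hx₁ => tail_good1 hG x₁ hx₁.1) u (fun x₁ hx₁ x hx => by
        rw [SecMod.congr_rows (rowSp_step_tail e ρ N)]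
        refine hu x ((mem_fib_mid e).2 ⟨?_, ?_⟩)
        · rw [hx.1]
          exact hx₁
        · rw [hx.1]
          exact hx)
    obtain ⟨c, hc⟩ := ih (ContinuousLinearEquiv.refl ℂ (X × (Fin d → ℂ))) (tail_good hG) u₁ hu₁
    refine ⟨c, fun x hx => ?_⟩
    obtain ⟨h1, h2⟩ := (mem_fib_mid e).1 hx
    have h3 := hu₂ _ h1 x h2
    have h4 := hc _ h1
    have h5 := pv_mem_step (midR e) h2.1 (ρ := tailRows ρ N) (N₀ := upN d (N 0))
      (tail_good1 hG _ h1.1).hρ h4
    rw [pv_sub, pv_pv e h2.1 h1.1 hx.1] at h5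
    have h6 := Submodule.add_mem _ h3 h5
    rwa [sub_add_sub_cancel, rowSp_step_tail] at h6

end MF

end Pool.Agent.DQ
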