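import Pool.Agent.Lib.MP_4aa2a9_ag.Mg.G042
import Pool.Agent.Lib.MP_4aa2a9_ag.Mg.G020

/-! Geometry for M7: finite fibres of `Y`, small boxes with a shell off `Y`. -/

set_option autoImplicit false
set_option linter.unusedSectionVars false

open Set Filter Topology

universe u v w w'

namespace Pool.Agent.DQ

variable {V : Type u} [NormedAddCommGroup V] [NormedSpace ℂ V] [FiniteDimensional ℂ V]
  {n : ℕ}

theorem AnalyticNear.mono {Y U U' : Set V} (h : AnalyticNear Y U) (hU : U' ⊆ U) :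
    AnalyticNear Y U' := fun y hy => h y ⟨hy.1, hU hy.2⟩

theorem mem_box_neg {κ : V ≃L[ℂ] (Fin n → ℂ)} {c : Fin n → ℂ} {R : Fin n → ℝ} {x : V} :
    x ∈ box κ c (fun _ => -1) R ↔ ∀ i, ‖κ x i - c i‖ < R i :=
  forall_congr' fun i => ⟨fun h => h.2, fun h => ⟨by linarith [norm_nonneg (κ x i - c i)], h⟩⟩

theorem mem_cbox_neg {κ : V ≃L[ℂ] (Fin n → ℂ)} {c : Fin n → ℂ} {R : Fin n → ℝ} {x : V} :
    x ∈ cbox κ c (fun _ => -1) R ↔ ∀ i, ‖κ x i - c i‖ ≤ R i :=
  forall_congr' fun i => ⟨fun h => h.2, fun h => ⟨by linarith [norm_nonneg (κ x i - c i)], h⟩⟩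

/-- the fibres of `Y` over the coordinates off `S` are finite -/
theorem fib_finite (κ : V ≃L[ℂ] (Fin n → ℂ)) (c : Fin n → ℂ) (R : Fin n → ℝ) (S : Finset (Fin n))
    (r : Fin n → ℝ) (hr : ∀ i ∈ S, r i < R i) {Y U : Set V} (hYU : IsOpen (U \ Y))
    (hsub : box κ c (fun _ => -1) R ⊆ U) (hYan : AnalyticNear Y U)
    (hYs : ∀ x ∈ shell κ c R S r, x ∉ Y) (t : Fin n → ℂ) :
    {x | x ∈ Y ∧ x ∈ box κ c (fun _ => -1) R ∧ ∀ i ∉ S, κ x i = t i}.Finite := by
  set X := {x | x ∈ Y ∧ x ∈ box κ c (fun _ => -1) R ∧ ∀ i ∉ S, κ x i = t i} with hX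
  have hBopen := isOpen_box κ c (fun _ => -1) R
  by_cases ht : ∀ i ∉ S, ‖t i - c i‖ < R i
  swap
  · push Not at ht
    obtain ⟨i, hi, h⟩ := ht
    have : X = ∅ := by
      rw [eq_empty_iff_forall_notMem]
      rintro x ⟨_, hxb, hxt⟩
      have := (mem_box_neg.1 hxb) i
      rw [hxt i hi] at this
      linarith
    rw [this]
    exact finite_empty
  · -- the compact box
    let F : Set V := {x | (∀ i ∉ S, κ x i = t i) ∧ ∀ i ∈ S, ‖κ x i - c i‖ ≤ r i}
    have hFbox : F ⊆ box κ c (fun _ => -1) R := by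
      rintro x ⟨h1, h2⟩
      rw [mem_box_neg]
      intro i
      by_cases hi : i ∈ S
      · exact lt_of_le_of_lt (h2 i hi) (hr i hi)
      · rw [h1 i hi]
        exact ht i hi
    have hcont : ∀ i, Continuous fun x : V => κ x i := fun i =>
      (continuous_apply i).comp κ.continuous
    have hFclosed : IsClosed F := by
      have h1 : F = (⋂ i ∈ {i | i ∉ S}, {x | κ x i = t i}) ∩
          ⋂ i ∈ {i | i ∈ S}, {x | ‖κ x i - c i‖ ≤ r i} := by
        ext x
        simp only [F, mem_inter_iff, mem_iInter]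
        exact Iff.rfl
      rw [h1]
      exact (isClosed_biInter fun i _ => isClosed_eq (hcont i) continuous_const).inter
        (isClosed_biInter fun i _ => isClosed_le (((hcont i).sub continuous_const).norm)
          continuous_const)
    have hFcompact : IsCompact F :=
      (isCompact_cbox κ c (fun _ => -1) R).of_isClosed_subset hFclosed
        (hFbox.trans (box_subset_cbox _ _ _ _))
    have hXF : X = F \ (U \ Y) := by
      ext x
      constructor
      · rintro ⟨hxY, hxb, hxt⟩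
        refine ⟨⟨hxt, fun i hi => ?_⟩, fun h => h.2 hxY⟩
        by_contra h
        push Not at h
        exact hYs x ⟨hxb, i, hi, h⟩ hxY
      · rintro ⟨hxF, hx⟩
        have hxb := hFbox hxF
        refine ⟨?_, hxb, hxF.1⟩
        by_contra h
        exact hx ⟨hsub hxb, h⟩
    refine compact_analytic_finite X ?_ ?_
    · rw [hXF]
      exact hFcompact.diff hYU
    · rintro y ⟨hy, -⟩
      obtain ⟨hyY, hyb, hyt⟩ := hy
      obtain ⟨m, f, hf, hfY⟩ := hYan y ⟨hyY, hsub hyb⟩
      let g : Fin n → V → ℂ := fun i x => if i ∈ S then 0 else κ x i - t i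
      have hκi : ∀ i, Differentiable ℂ fun x : V => κ x i := fun i =>
        ((ContinuousLinearMap.proj (R := ℂ) (φ := fun _ : Fin n => ℂ) i).comp
          (κ : V →L[ℂ] (Fin n → ℂ))).differentiable
      have hg : ∀ i, HolAt (g i) y := by
        intro i
        refine Eventually.of_forall fun x => ?_
        simp only [g]
        split_ifs with hi
        · exact differentiableAt_const _
        · exact (hκi i x).sub_const _
      refine ⟨m + n, Fin.append f g, ?_, ?_⟩
      · intro j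
        refine Fin.addCases (fun i => ?_) (fun i => ?_) j
        · rw [Fin.append_left]
          exact hf i
        · rw [Fin.append_right]
          exact hg i
      · filter_upwards [hfY, hBopen.mem_nhds hyb] with x h1 h2
        constructor
        · rintro ⟨hxY, -, hxt⟩ j
          refine Fin.addCases (fun i => ?_) (fun i => ?_) j
          · rw [Fin.append_left]
            exact h1.1 hxY i
          · rw [Fin.append_right]
            simp only [g]
            split_ifs with hi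
            · rfl
            · rw [hxt i hi, sub_self]
        · intro h
          refine ⟨h1.2 fun j => ?_, h2, fun i hi => ?_⟩
          · have := h (Fin.castAdd n j)
            rwa [Fin.append_left] at this
          · have := h (Fin.natAdd m i)
            rw [Fin.append_right] at this
            simp only [g, if_neg hi] at this
            exact sub_eq_zero.1 this

/-- small boxes around every point, with a closed shell off `Y` -/
theorem exists_small_box (κ : V ≃L[ℂ] (Fin n → ℂ)) (S : Finset (Fin n)) {Y B : Set V}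
    (hB : IsOpen B) (hYB : IsOpen (B \ Y))
    (hfin : ∀ t : Fin n → ℂ, {x | x ∈ Y ∧ x ∈ B ∧ ∀ i ∉ S, κ x i = t i}.Finite)
    {x₀ : V} (hx₀ : x₀ ∈ B) {Z : Set V} (hZ : Z ∈ 𝓝 x₀) :
    ∃ R r : Fin n → ℝ, (∀ i, 0 < R i) ∧ (∀ i, 0 < r i ∧ r i < R i) ∧
      cbox κ (κ x₀) (fun _ => -1) R ⊆ Z ∩ B ∧
      ∀ x ∈ cbox κ (κ x₀) (fun _ => -1) R, (∃ i ∈ S, r i ≤ ‖κ x i - κ x₀ i‖) → x ∉ Y := by
  have hcont : ∀ i, Continuous fun x : V => κ x i := fun i =>
      (continuous_apply i).comp κ.continuous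
  -- avoid the other points of the fibre
  set X := {x | x ∈ Y ∧ x ∈ B ∧ ∀ i ∉ S, κ x i = κ x₀ i} with hX
  have hXfin : X.Finite := hfin (κ x₀)
  have h1 : (X \ {x₀})ᶜ ∈ 𝓝 x₀ :=
    (hXfin.subset sdiff_subset).isClosed.isOpen_compl.mem_nhds fun h => h.2 rfl
  obtain ⟨ρ, hρ, hsub⟩ := exists_cbox_subset κ x₀ (inter_mem (inter_mem hZ (hB.mem_nhds hx₀)) h1)
  -- the family of compact sets
  let C : ℕ → Set V := fun m => {x | (∀ i, ‖κ x i - κ x₀ i‖ ≤ ρ) ∧
    (∀ i ∉ S, ‖κ x i - κ x₀ i‖ ≤ 1 / (m + 1 : ℝ)) ∧ ∃ i ∈ S, ρ / 2 ≤ ‖κ x i - κ x₀ i‖}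
  have hnorm : ∀ i, Continuous fun x : V => ‖κ x i - κ x₀ i‖ := fun i =>
    ((hcont i).sub continuous_const).norm
  have hCclosed : ∀ m, IsClosed (C m) := by
    intro m
    have h2 : C m = ((⋂ i : Fin n, {x | ‖κ x i - κ x₀ i‖ ≤ ρ}) ∩
        (⋂ i ∈ {i | i ∉ S}, {x | ‖κ x i - κ x₀ i‖ ≤ 1 / (m + 1 : ℝ)})) ∩
        ⋃ i ∈ {i | i ∈ S}, {x | ρ / 2 ≤ ‖κ x i - κ x₀ i‖} := by
      ext x
      constructor
      · rintro ⟨a, b, i, hi, e⟩
        exact ⟨⟨mem_iInter.2 a, mem_iInter₂.2 b⟩, mem_iUnion₂.2 ⟨i, hi, e⟩⟩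
      · rintro ⟨⟨a, b⟩, e⟩
        obtain ⟨i, hi, e⟩ := mem_iUnion₂.1 e
        exact ⟨fun i => mem_iInter.1 a i, fun i hi => mem_iInter₂.1 b i hi, i, hi, e⟩
    rw [h2]
    refine ((isClosed_iInter fun i => isClosed_le (hnorm i) continuous_const).inter
      (isClosed_biInter fun i _ => isClosed_le (hnorm i) continuous_const)).inter ?_
    exact (Set.toFinite _).isClosed_biUnion fun i _ => isClosed_le continuous_const (hnorm i)
  have hCcompact : ∀ m, IsCompact (C m) := fun m =>
    (isCompact_cbox κ (κ x₀) (fun _ => -1) (fun _ => ρ)).of_isClosed_subset (hCclosed m)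
      fun x hx => mem_cbox_neg.2 hx.1
  have hinter : ⋂ m, C m ⊆ B \ Y := by
    intro x hx
    rw [mem_iInter] at hx
    have hx0 := hx 0
    have hxc : x ∈ cbox κ (κ x₀) (fun _ => -1) (fun _ => ρ) := mem_cbox_neg.2 hx0.1
    have hxs := hsub hxc
    refine ⟨hxs.1.2, fun hxY => ?_⟩
    have h3 : ∀ i ∉ S, κ x i = κ x₀ i := by
      intro i hi
      have h4 : ‖κ x i - κ x₀ i‖ ≤ 0 := by
        refine le_of_tendsto_of_tendsto' tendsto_const_nhds
          tendsto_one_div_add_atTop_nhds_zero_nat fun m => ?_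
        exact (hx m).2.1 i hi
      exact sub_eq_zero.1 (norm_le_zero_iff.1 h4)
    have h5 : x ∈ X := ⟨hxY, hxs.1.2, h3⟩
    have h6 : x ≠ x₀ := by
      rintro rfl
      obtain ⟨i, -, hi⟩ := hx0.2.2
      rw [sub_self, norm_zero] at hi
      linarith
    exact hxs.2 ⟨h5, h6⟩
  have hmono : ∀ a b : ℕ, a ≤ b → C b ⊆ C a := by
    intro a b hab x hx
    refine ⟨hx.1, fun i hi => (hx.2.1 i hi).trans ?_, hx.2.2⟩
    apply one_div_le_one_div_of_le
    · positivity
    · exact_mod_cast Nat.succ_le_succ hab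
  have hdir : Directed (fun x1 x2 : Set V => x1 ⊇ x2) C := fun a b =>
    ⟨max a b, hmono _ _ (le_max_left _ _), hmono _ _ (le_max_right _ _)⟩
  obtain ⟨m, hm⟩ := exists_subset_nhds_of_isCompact' hdir
    hCcompact hCclosed (U := B \ Y) fun x hx => hYB.mem_nhds (hinter hx)
  classical
  refine ⟨fun i => if i ∈ S then ρ else min ρ (1 / (m + 1 : ℝ)),
    fun i => (if i ∈ S then ρ else min ρ (1 / (m + 1 : ℝ))) / 2, ?_, ?_, ?_, ?_⟩
  · intro i
    dsimp only
    split_ifs
    · exact hρ
    · exact lt_min hρ (by positivity)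
  · intro i
    have : 0 < (if i ∈ S then ρ else min ρ (1 / (m + 1 : ℝ))) := by
      split_ifs
      · exact hρ
      · exact lt_min hρ (by positivity)
    exact ⟨by linarith, by linarith⟩
  · intro x hx
    have hx' : x ∈ cbox κ (κ x₀) (fun _ => -1) (fun _ => ρ) := by
      rw [mem_cbox_neg] at hx ⊢
      intro i
      have := hx i
      split_ifs at this with hi
      · exact this
      · exact this.trans (min_le_left _ _)
    exact (hsub hx').1
  · rintro x hx ⟨i, hi, hxi⟩
    dsimp only at hxi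
    rw [if_pos hi] at hxi
    rw [mem_cbox_neg] at hx
    refine (hm ⟨?_, ?_, i, hi, hxi⟩).2
    · intro j
      have := hx j
      split_ifs at this with hj
      · exact this
      · exact this.trans (min_le_left _ _)
    · intro j hj
      have := hx j
      rw [if_neg hj] at this
      exact this.trans (min_le_right _ _)

end Pool.Agent.DQ
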