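import Mathlib
import Pool.Agent.Lib.MP_4aa2a9_ag.DQ.OffR
import Pool.Agent.Lib.MP_4aa2a9_ag.Mg.G003

/-!
# Example of a DQ-algebroid, part D: derivatives (campaign DQ, S)
-/

set_option autoImplicit false

open TopologicalSpace Topology Filter Set

namespace Pool.Agent.DQOff

variable {n : ℕ}

theorem dz_congr {a : Fin n} {f g : (Fin n → ℂ) → ℂ} {z : Fin n → ℂ} (h : f =ᶠ[𝓝 z] g) :
    dz a f =ᶠ[𝓝 z] dz a g := by
  filter_upwards [h.eventuallyEq_nhds] with y hy
  unfold dz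
  rw [hy.fderiv_eq]

theorem dzs_congr {l : List (Fin n)} {f g : (Fin n → ℂ) → ℂ} {z : Fin n → ℂ} (h : f =ᶠ[𝓝 z] g) :
    dzs l f =ᶠ[𝓝 z] dzs l g := by
  induction l with
  | nil => exact h
  | cons a l ih => exact dz_congr ih

theorem dz_hol {a : Fin n} {f : (Fin n → ℂ) → ℂ} {V : Set (Fin n → ℂ)} (hV : IsOpen V)
    (h : DifferentiableOn ℂ f V) : DifferentiableOn ℂ (dz a f) V := by
  have h1 : AnalyticOnNhd ℂ f V := (DQ.F.differentiableOn_iff_analyticOnNhd hV).1 h
  have h2 : AnalyticOnNhd ℂ (fderiv ℂ f) V := h1.fderiv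
  exact fun z hz => (((h2 z hz).differentiableAt).clm_apply
    (differentiableAt_const _)).differentiableWithinAt

theorem dzs_hol {l : List (Fin n)} {f : (Fin n → ℂ) → ℂ} {V : Set (Fin n → ℂ)} (hV : IsOpen V)
    (h : DifferentiableOn ℂ f V) : DifferentiableOn ℂ (dzs l f) V := by
  induction l with
  | nil => exact h
  | cons a l ih => exact dz_hol hV ih

theorem dz_sum {a : Fin n} {ι : Type*} (s : Finset ι) {f : ι → (Fin n → ℂ) → ℂ}
    {V : Set (Fin n → ℂ)} (hV : IsOpen V) (h : ∀ i ∈ s, DifferentiableOn ℂ (f i) V)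
    {z : Fin n → ℂ} (hz : z ∈ V) : dz a (fun y => ∑ i ∈ s, f i y) z = ∑ i ∈ s, dz a (f i) z := by
  unfold dz
  rw [fderiv_fun_sum (fun i hi => (h i hi).differentiableAt (hV.mem_nhds hz))]
  simp

theorem dz_const_mul {a : Fin n} {c : ℂ} {f : (Fin n → ℂ) → ℂ} {V : Set (Fin n → ℂ)}
    (hV : IsOpen V) (h : DifferentiableOn ℂ f V) {z : Fin n → ℂ} (hz : z ∈ V) :
    dz a (fun y => c * f y) z = c * dz a f z := by
  unfold dz
  rw [fderiv_const_mul (h.differentiableAt (hV.mem_nhds hz))]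
  rfl

theorem dzs_sum {l : List (Fin n)} {ι : Type*} (s : Finset ι) {f : ι → (Fin n → ℂ) → ℂ}
    {V : Set (Fin n → ℂ)} (hV : IsOpen V) (h : ∀ i ∈ s, DifferentiableOn ℂ (f i) V)
    {z : Fin n → ℂ} (hz : z ∈ V) :
    dzs l (fun y => ∑ i ∈ s, f i y) z = ∑ i ∈ s, dzs l (f i) z := by
  induction l generalizing z with
  | nil => rfl
  | cons a l ih =>
    change dz a (dzs l _) z = ∑ i ∈ s, dz a (dzs l (f i)) z
    rw [← dz_sum s hV (fun i hi => dzs_hol hV (h i hi)) hz]
    refine (dz_congr ?_).self_of_nhds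
    filter_upwards [hV.mem_nhds hz] with y hy
    exact ih hy

theorem dzs_const_mul {l : List (Fin n)} {c : ℂ} {f : (Fin n → ℂ) → ℂ} {V : Set (Fin n → ℂ)}
    (hV : IsOpen V) (h : DifferentiableOn ℂ f V) {z : Fin n → ℂ} (hz : z ∈ V) :
    dzs l (fun y => c * f y) z = c * dzs l f z := by
  induction l generalizing z with
  | nil => rfl
  | cons a l ih =>
    change dz a (dzs l _) z = c * dz a (dzs l f) z
    rw [← dz_const_mul hV (dzs_hol hV h) hz]
    refine (dz_congr ?_).self_of_nhds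
    filter_upwards [hV.mem_nhds hz] with y hy
    exact ih hy

theorem dzs_add {l : List (Fin n)} {f g : (Fin n → ℂ) → ℂ} {V : Set (Fin n → ℂ)}
    (hV : IsOpen V) (hf : DifferentiableOn ℂ f V) (hg : DifferentiableOn ℂ g V)
    {z : Fin n → ℂ} (hz : z ∈ V) :
    dzs l (fun y => f y + g y) z = dzs l f z + dzs l g z := by
  induction l generalizing z with
  | nil => rfl
  | cons a l ih =>
    change dz a (dzs l _) z = dz a (dzs l f) z + dz a (dzs l g) z
    have h1 : dz a (fun y => dzs l f y + dzs l g y) z = dz a (dzs l f) z + dz a (dzs l g) z := by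
      unfold dz
      rw [fderiv_fun_add ((dzs_hol hV hf).differentiableAt (hV.mem_nhds hz))
        ((dzs_hol hV hg).differentiableAt (hV.mem_nhds hz))]
      rfl
    rw [← h1]
    refine (dz_congr ?_).self_of_nhds
    filter_upwards [hV.mem_nhds hz] with y hy
    exact ih hy

/-! ### Bidifferential operators -/

variable {P : BiDiff n}

theorem ev_congr {f f' g g' : (Fin n → ℂ) → ℂ} {z : Fin n → ℂ} (hf : f =ᶠ[𝓝 z] f')
    (hg : g =ᶠ[𝓝 z] g') : P.ev f g z = P.ev f' g' z := by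
  unfold BiDiff.ev
  congr 1
  refine List.map_congr_left fun t _ => ?_
  rw [(dzs_congr hf).self_of_nhds, (dzs_congr hg).self_of_nhds]

theorem ev_hol {f g : (Fin n → ℂ) → ℂ} {V : Set (Fin n → ℂ)} (hV : IsOpen V)
    (hP : ∀ t ∈ P, DifferentiableOn ℂ t.1 V) (hf : DifferentiableOn ℂ f V)
    (hg : DifferentiableOn ℂ g V) : DifferentiableOn ℂ (P.ev f g) V := by
  unfold BiDiff.ev
  induction P with
  | nil => exact differentiableOn_const _
  | cons t P ih =>
    have h1 := ih (fun s hs => hP s (List.mem_cons_of_mem _ hs))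
    simp only [List.map_cons, List.sum_cons]
    exact (((hP t List.mem_cons_self).mul (dzs_hol hV hf)).mul (dzs_hol hV hg)).add h1

theorem ev_add_left {f f' g : (Fin n → ℂ) → ℂ} {V : Set (Fin n → ℂ)} (hV : IsOpen V)
    (hf : DifferentiableOn ℂ f V) (hf' : DifferentiableOn ℂ f' V) {z : Fin n → ℂ} (hz : z ∈ V) :
    P.ev (fun y => f y + f' y) g z = P.ev f g z + P.ev f' g z := by
  unfold BiDiff.ev
  rw [← List.sum_map_add]
  congr 1
  refine List.map_congr_left fun t _ => ?_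
  rw [dzs_add hV hf hf' hz]
  ring

theorem ev_add_right {f g g' : (Fin n → ℂ) → ℂ} {V : Set (Fin n → ℂ)} (hV : IsOpen V)
    (hg : DifferentiableOn ℂ g V) (hg' : DifferentiableOn ℂ g' V) {z : Fin n → ℂ} (hz : z ∈ V) :
    P.ev f (fun y => g y + g' y) z = P.ev f g z + P.ev f g' z := by
  unfold BiDiff.ev
  rw [← List.sum_map_add]
  congr 1
  refine List.map_congr_left fun t _ => ?_
  rw [dzs_add hV hg hg' hz]
  ring

theorem ev_zero_left {g : (Fin n → ℂ) → ℂ} {z : Fin n → ℂ} : P.ev (fun _ => 0) g z = 0 := by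
  have h : ∀ l : List (Fin n), dzs l (fun _ : Fin n → ℂ => (0 : ℂ)) = fun _ => 0 := by
    intro l
    induction l with
    | nil => rfl
    | cons a l ih =>
      change dz a (dzs l _) = _
      rw [ih]
      funext y
      simp [dz]
  unfold BiDiff.ev
  refine List.sum_eq_zero fun x hx => ?_
  obtain ⟨t, _, rfl⟩ := List.mem_map.1 hx
  rw [h, mul_zero, zero_mul]

theorem ev_zero_right {f : (Fin n → ℂ) → ℂ} {z : Fin n → ℂ} : P.ev f (fun _ => 0) z = 0 := by
  have h : ∀ l : List (Fin n), dzs l (fun _ : Fin n → ℂ => (0 : ℂ)) = fun _ => 0 := by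
    intro l
    induction l with
    | nil => rfl
    | cons a l ih =>
      change dz a (dzs l _) = _
      rw [ih]
      funext y
      simp [dz]
  unfold BiDiff.ev
  refine List.sum_eq_zero fun x hx => ?_
  obtain ⟨t, _, rfl⟩ := List.mem_map.1 hx
  rw [h, mul_zero]

theorem ev_sum_left {ι : Type*} (s : Finset ι) {c : ι → ℂ} {f : ι → (Fin n → ℂ) → ℂ}
    {g : (Fin n → ℂ) → ℂ} {V : Set (Fin n → ℂ)} (hV : IsOpen V)
    (hf : ∀ i ∈ s, DifferentiableOn ℂ (f i) V) {z : Fin n → ℂ} (hz : z ∈ V) :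
    P.ev (fun y => ∑ i ∈ s, c i * f i y) g z = ∑ i ∈ s, c i * P.ev (f i) g z := by
  unfold BiDiff.ev
  have h1 : ∀ t : ((Fin n → ℂ) → ℂ) × List (Fin n) × List (Fin n),
      t.1 z * dzs t.2.1 (fun y => ∑ i ∈ s, c i * f i y) z * dzs t.2.2 g z =
        ∑ i ∈ s, c i * (t.1 z * dzs t.2.1 (f i) z * dzs t.2.2 g z) := by
    intro t
    rw [dzs_sum s hV (fun i hi => (hf i hi).const_mul (c i)) hz, Finset.mul_sum, Finset.sum_mul]
    refine Finset.sum_congr rfl fun i hi => ?_
    rw [dzs_const_mul hV (hf i hi) hz]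
    ring
  simp only [h1]
  induction P with
  | nil => simp
  | cons t P ih =>
    simp only [List.map_cons, List.sum_cons]
    rw [ih, ← Finset.sum_add_distrib]
    exact Finset.sum_congr rfl fun i _ => by ring

theorem ev_sum_right {ι : Type*} (s : Finset ι) {c : ι → ℂ} {g : ι → (Fin n → ℂ) → ℂ}
    {f : (Fin n → ℂ) → ℂ} {V : Set (Fin n → ℂ)} (hV : IsOpen V)
    (hg : ∀ i ∈ s, DifferentiableOn ℂ (g i) V) {z : Fin n → ℂ} (hz : z ∈ V) :
    P.ev f (fun y => ∑ i ∈ s, c i * g i y) z = ∑ i ∈ s, c i * P.ev f (g i) z := by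
  unfold BiDiff.ev
  have h1 : ∀ t : ((Fin n → ℂ) → ℂ) × List (Fin n) × List (Fin n),
      t.1 z * dzs t.2.1 f z * dzs t.2.2 (fun y => ∑ i ∈ s, c i * g i y) z =
        ∑ i ∈ s, c i * (t.1 z * dzs t.2.1 f z * dzs t.2.2 (g i) z) := by
    intro t
    rw [dzs_sum s hV (fun i hi => (hg i hi).const_mul (c i)) hz, Finset.mul_sum]
    refine Finset.sum_congr rfl fun i hi => ?_
    rw [dzs_const_mul hV (hg i hi) hz]
    ring
  simp only [h1]
  induction P with
  | nil => simp
  | cons t P ih =>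
    simp only [List.map_cons, List.sum_cons]
    rw [ih, ← Finset.sum_add_distrib]
    exact Finset.sum_congr rfl fun i _ => by ring

end Pool.Agent.DQOff
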