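import Mathlib
import Pool.Agent.Lib.MP_4aa2a9_ag.DQ.OffExD

/-!
# Example of a DQ-algebroid, part S: the star algebra of a star product on `ℂ^n` (campaign DQ, S)
-/

set_option autoImplicit false

open TopologicalSpace Topology Filter Set

namespace Pool.Agent.DQOff

variable {n : ℕ}

open Classical in
/-- extension by zero -/
noncomputable def cut (V : Opens (Fin n → ℂ)) (f : ℕ → (Fin n → ℂ) → ℂ) : ℕ → (Fin n → ℂ) → ℂ :=
  fun k z => if z ∈ V then f k z else 0

theorem cut_mem {V : Opens (Fin n → ℂ)} {f : ℕ → (Fin n → ℂ) → ℂ} {k : ℕ} {z : Fin n → ℂ}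
    (hz : z ∈ V) : cut V f k z = f k z := if_pos hz

theorem cut_not_mem {V : Opens (Fin n → ℂ)} {f : ℕ → (Fin n → ℂ) → ℂ} {k : ℕ} {z : Fin n → ℂ}
    (hz : z ∉ V) : cut V f k z = 0 := if_neg hz

theorem cut_eventually {V : Opens (Fin n → ℂ)} {f : ℕ → (Fin n → ℂ) → ℂ} {k : ℕ} {z : Fin n → ℂ}
    (hz : z ∈ V) : cut V f k =ᶠ[𝓝 z] f k := by
  filter_upwards [V.2.mem_nhds hz] with y hy
  exact cut_mem hy

theorem cut_isHolSeq {V : Opens (Fin n → ℂ)} {f : ℕ → (Fin n → ℂ) → ℂ}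
    (hf : ∀ k, DifferentiableOn ℂ (f k) V) : IsHolSeq (V : Set (Fin n → ℂ)) (cut V f) :=
  fun k => ⟨(hf k).congr fun _ hz => cut_mem hz, fun _ hz => cut_not_mem hz⟩

/-- sections of `O[[ħ]]` -/
abbrev HSec (V : Opens (Fin n → ℂ)) : Type := {f : ℕ → (Fin n → ℂ) → ℂ // IsHolSeq V f}

theorem HSec.hol {V : Opens (Fin n → ℂ)} (f : HSec V) (k : ℕ) : DifferentiableOn ℂ (f.1 k) V :=
  (f.2 k).1

theorem HSec.ext_on {V : Opens (Fin n → ℂ)} {f g : HSec V} (h : ∀ k, ∀ z ∈ V, f.1 k z = g.1 k z) :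
    f = g := by
  refine Subtype.ext (funext fun k => funext fun z => ?_)
  by_cases hz : z ∈ V
  · exact h k z hz
  · rw [(f.2 k).2 z hz, (g.2 k).2 z hz]

/-- the section with given values on `V` -/
noncomputable def HSec.mk' (V : Opens (Fin n → ℂ)) (f : ℕ → (Fin n → ℂ) → ℂ)
    (hf : ∀ k, DifferentiableOn ℂ (f k) V) : HSec V := ⟨cut V f, cut_isHolSeq hf⟩

theorem HSec.mk'_apply {V : Opens (Fin n → ℂ)} {f : ℕ → (Fin n → ℂ) → ℂ}
    {hf : ∀ k, DifferentiableOn ℂ (f k) V} {k : ℕ} {z : Fin n → ℂ} (hz : z ∈ V) :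
    (HSec.mk' V f hf).1 k z = f k z := cut_mem hz

theorem HSec.mk'_eventually {V : Opens (Fin n → ℂ)} {f : ℕ → (Fin n → ℂ) → ℂ}
    {hf : ∀ k, DifferentiableOn ℂ (f k) V} {k : ℕ} {z : Fin n → ℂ} (hz : z ∈ V) :
    (HSec.mk' V f hf).1 k =ᶠ[𝓝 z] f k := cut_eventually hz

/-- restriction -/
noncomputable def HSec.res {V W : Opens (Fin n → ℂ)} (h : V ≤ W) (f : HSec W) : HSec V :=
  HSec.mk' V f.1 fun k => (f.hol k).mono h

theorem HSec.res_apply {V W : Opens (Fin n → ℂ)} (h : V ≤ W) (f : HSec W) {k : ℕ}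
    {z : Fin n → ℂ} (hz : z ∈ V) : (f.res h).1 k z = f.1 k z := HSec.mk'_apply hz

theorem HSec.res_eventually {V W : Opens (Fin n → ℂ)} (h : V ≤ W) (f : HSec W) {k : ℕ}
    {z : Fin n → ℂ} (hz : z ∈ V) : (f.res h).1 k =ᶠ[𝓝 z] f.1 k := HSec.mk'_eventually hz

/-- convolution with a scalar -/
noncomputable def csmul (c : PowerSeries ℂ) (f : ℕ → (Fin n → ℂ) → ℂ) : ℕ → (Fin n → ℂ) → ℂ :=
  fun m z => ∑ p ∈ Finset.HasAntidiagonal.antidiagonal m, PowerSeries.coeff p.1 c * f p.2 z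

/-- the power series of the values at `z` -/
noncomputable def pser (f : ℕ → (Fin n → ℂ) → ℂ) (z : Fin n → ℂ) : PowerSeries ℂ :=
  PowerSeries.mk fun k => f k z

theorem pser_csmul (c : PowerSeries ℂ) (f : ℕ → (Fin n → ℂ) → ℂ) (z : Fin n → ℂ) :
    pser (csmul c f) z = c * pser f z := by
  ext m
  rw [PowerSeries.coeff_mul]
  simp [pser, csmul]

theorem eq_of_pser {f g : ℕ → (Fin n → ℂ) → ℂ} {z : Fin n → ℂ} (h : pser f z = pser g z) (k : ℕ) :
    f k z = g k z := by
  have := congrArg (PowerSeries.coeff k) h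
  simpa [pser] using this

/-- scalar multiplication -/
noncomputable def HSec.smul (V : Opens (Fin n → ℂ)) (c : PowerSeries ℂ) (f : HSec V) : HSec V :=
  ⟨csmul c f.1, fun m => ⟨DifferentiableOn.fun_sum fun p _ => (f.hol p.2).const_mul _,
    fun z hz => Finset.sum_eq_zero fun p _ => by rw [(f.2 p.2).2 z hz, mul_zero]⟩⟩

/-- addition -/
def HSec.add (V : Opens (Fin n → ℂ)) (f g : HSec V) : HSec V :=
  ⟨fun k z => f.1 k z + g.1 k z, fun k => ⟨(f.hol k).add (g.hol k), fun z hz => by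
    change f.1 k z + g.1 k z = 0
    rw [(f.2 k).2 z hz, (g.2 k).2 z hz, add_zero]⟩⟩

theorem HSec.ext_pser {V : Opens (Fin n → ℂ)} {f g : HSec V}
    (h : ∀ z ∈ V, pser f.1 z = pser g.1 z) : f = g :=
  HSec.ext_on fun k z hz => eq_of_pser (h z hz) k

theorem pser_add {V : Opens (Fin n → ℂ)} (f g : HSec V) (z : Fin n → ℂ) :
    pser (HSec.add V f g).1 z = pser f.1 z + pser g.1 z := by
  ext k
  simp [pser, HSec.add]

theorem pser_smul {V : Opens (Fin n → ℂ)} (c : PowerSeries ℂ) (f : HSec V) (z : Fin n → ℂ) :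
    pser (HSec.smul V c f).1 z = c * pser f.1 z := pser_csmul c f.1 z

theorem pser_res {V W : Opens (Fin n → ℂ)} (h : V ≤ W) (f : HSec W) {z : Fin n → ℂ} (hz : z ∈ V) :
    pser (f.res h).1 z = pser f.1 z := by
  ext k
  simp [pser, HSec.res_apply h f hz]

variable (n) in
/-- the sheaf `O[[ħ]]` on `ℂ^n` -/
noncomputable def hSheaf : Sheaf (Fin n → ℂ) where
  sec V := HSec V
  zero V := ⟨fun _ _ => 0, fun _ => ⟨differentiableOn_const _, fun _ _ => rfl⟩⟩
  add V := HSec.add V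
  neg V f := ⟨fun k z => - f.1 k z, fun k => ⟨(f.hol k).neg, fun z hz => by
    change - f.1 k z = 0
    rw [(f.2 k).2 z hz, neg_zero]⟩⟩
  smul V := HSec.smul V
  res V W h f := f.res h
  add_comm V f g := Subtype.ext (funext fun k => funext fun z => add_comm _ _)
  add_assoc V f g h := Subtype.ext (funext fun k => funext fun z => add_assoc _ _ _)
  zero_add V f := Subtype.ext (funext fun k => funext fun z => zero_add _)
  neg_add V f := Subtype.ext (funext fun k => funext fun z => neg_add_cancel _)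
  one_smul V f := HSec.ext_pser fun z _ => by rw [pser_smul, one_mul]
  mul_smul V a b f := HSec.ext_pser fun z _ => by rw [pser_smul, pser_smul, pser_smul, mul_assoc]
  smul_add V a f g := HSec.ext_pser fun z _ => by
    rw [pser_smul, pser_add, pser_add, pser_smul, pser_smul, mul_add]
  add_smul V a b f := HSec.ext_pser fun z _ => by
    rw [pser_smul, pser_add, pser_smul, pser_smul, add_mul]
  res_add V W h f g := HSec.ext_pser fun z hz => by
    rw [pser_res h _ hz, pser_add, pser_add, pser_res h _ hz, pser_res h _ hz]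
  res_smul V W h a f := HSec.ext_pser fun z hz => by
    rw [pser_res h _ hz, pser_smul, pser_smul, pser_res h _ hz]
  res_id V h f := HSec.ext_pser fun z hz => pser_res h f hz
  res_res V W Z h k l f := HSec.ext_pser fun z hz => by
    rw [pser_res h _ hz, pser_res k _ (h hz), pser_res l _ hz]
  sep V f g h := HSec.ext_on fun k z hz => by
    obtain ⟨W, hW, hzW, e⟩ := h z hz
    rw [← HSec.res_apply hW f hzW, ← HSec.res_apply hW g hzW, e]
  glue V ι U hU hc s hs := by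
    classical
    choose a ha using hc
    let t : ℕ → (Fin n → ℂ) → ℂ := fun k z => if h : z ∈ V then (s (a z h)).1 k z else 0
    have key : ∀ (b : ι) (k : ℕ) (z : Fin n → ℂ), z ∈ U b → t k z = (s b).1 k z := by
      intro b k z hz
      have hzV := hU b hz
      have h1 : z ∈ U (a z hzV) := ha z hzV
      have h2 := hs (a z hzV) b (U (a z hzV) ⊓ U b) inf_le_left inf_le_right
      have h3 : t k z = (s (a z hzV)).1 k z := dif_pos hzV
      rw [h3, ← HSec.res_apply inf_le_left (s (a z hzV)) (⟨h1, hz⟩ : z ∈ U (a z hzV) ⊓ U b), h2,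
        HSec.res_apply inf_le_right (s b) ⟨h1, hz⟩]
    have ht : IsHolSeq (V : Set (Fin n → ℂ)) t := by
      intro k
      refine ⟨fun z hz => ?_, fun z hz => dif_neg hz⟩
      have h1 : z ∈ U (a z hz) := ha z hz
      have h2 : DifferentiableAt ℂ ((s (a z hz)).1 k) z :=
        ((s (a z hz)).hol k).differentiableAt ((U (a z hz)).2.mem_nhds h1)
      refine (h2.congr_of_eventuallyEq ?_).differentiableWithinAt
      filter_upwards [(U (a z hz)).2.mem_nhds h1] with y hy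
      exact key _ k y hy
    refine ⟨⟨t, ht⟩, fun b => HSec.ext_on fun k z hz => ?_⟩
    rw [HSec.res_apply (hU b) _ hz]
    exact key b k z hz

/-! ### The product -/

/-- the truncated sums over `P k` -/
noncomputable def evp (Q : BiDiff n) (f g : ℕ → (Fin n → ℂ) → ℂ) (z : Fin n → ℂ) : PowerSeries ℂ :=
  PowerSeries.mk fun r => ∑ q ∈ Finset.HasAntidiagonal.antidiagonal r, Q.ev (f q.1) (g q.2) z

theorem starMul_eq (P : ℕ → BiDiff n) (f g : ℕ → (Fin n → ℂ) → ℂ) (m : ℕ) (z : Fin n → ℂ) :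
    starMul P f g m z = ∑ p ∈ Finset.HasAntidiagonal.antidiagonal m,
      PowerSeries.coeff p.2 (evp (P p.1) f g z) := by
  simp [starMul, evp]

theorem starMul_congr {P : ℕ → BiDiff n} {f f' g g' : ℕ → (Fin n → ℂ) → ℂ} {z : Fin n → ℂ}
    (hf : ∀ k, f k =ᶠ[𝓝 z] f' k) (hg : ∀ k, g k =ᶠ[𝓝 z] g' k) (m : ℕ) :
    starMul P f g m z = starMul P f' g' m z :=
  Finset.sum_congr rfl fun p _ => Finset.sum_congr rfl fun q _ => ev_congr (hf q.1) (hg q.2)

theorem starMul_hol {P : ℕ → BiDiff n} {f g : ℕ → (Fin n → ℂ) → ℂ} {V : Set (Fin n → ℂ)}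
    (hV : IsOpen V) (hP : ∀ k, ∀ t ∈ P k, DifferentiableOn ℂ t.1 V)
    (hf : ∀ k, DifferentiableOn ℂ (f k) V) (hg : ∀ k, DifferentiableOn ℂ (g k) V) (m : ℕ) :
    DifferentiableOn ℂ (starMul P f g m) V :=
  DifferentiableOn.fun_sum fun p _ => DifferentiableOn.fun_sum fun _ _ =>
    ev_hol hV (hP p.1) (hf _) (hg _)

/-- triple sums over antidiagonals -/
theorem sum_anti_anti (m : ℕ) (F : ℕ → ℕ → ℕ → ℂ) :
    ∑ p ∈ Finset.HasAntidiagonal.antidiagonal m,
      ∑ q ∈ Finset.HasAntidiagonal.antidiagonal p.2, F p.1 q.1 q.2 =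
    ∑ q ∈ Finset.HasAntidiagonal.antidiagonal m,
      ∑ p ∈ Finset.HasAntidiagonal.antidiagonal q.2, F p.1 q.1 p.2 := by
  rw [Finset.sum_sigma', Finset.sum_sigma']
  refine Finset.sum_bij' (fun x _ => ⟨(x.2.1, x.1.1 + x.2.2), (x.1.1, x.2.2)⟩)
    (fun x _ => ⟨(x.2.1, x.1.1 + x.2.2), (x.1.1, x.2.2)⟩) ?_ ?_ ?_ ?_ ?_
  · rintro ⟨⟨a, b⟩, ⟨c, d⟩⟩ h
    rw [Finset.mem_sigma, Finset.HasAntidiagonal.mem_antidiagonal,
      Finset.HasAntidiagonal.mem_antidiagonal] at h ⊢
    obtain ⟨h1, h2⟩ := h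
    change a + b = m at h1
    change c + d = b at h2
    change c + (a + d) = m ∧ a + d = a + d
    omega
  · rintro ⟨⟨a, b⟩, ⟨c, d⟩⟩ h
    rw [Finset.mem_sigma, Finset.HasAntidiagonal.mem_antidiagonal,
      Finset.HasAntidiagonal.mem_antidiagonal] at h ⊢
    obtain ⟨h1, h2⟩ := h
    change a + b = m at h1
    change c + d = b at h2
    change c + (a + d) = m ∧ a + d = a + d
    omega
  · rintro ⟨⟨a, b⟩, ⟨c, d⟩⟩ h
    simp only [Finset.mem_sigma, Finset.HasAntidiagonal.mem_antidiagonal] at h ⊢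
    obtain ⟨-, rfl⟩ := h
    rfl
  · rintro ⟨⟨a, b⟩, ⟨c, d⟩⟩ h
    simp only [Finset.mem_sigma, Finset.HasAntidiagonal.mem_antidiagonal] at h ⊢
    obtain ⟨-, rfl⟩ := h
    rfl
  · rintro ⟨⟨a, b⟩, ⟨c, d⟩⟩ h
    rfl

/-- the star product is homogeneous in the first argument -/
theorem starMul_csmul_left {P : ℕ → BiDiff n} {f g : ℕ → (Fin n → ℂ) → ℂ} {V : Set (Fin n → ℂ)}
    (hV : IsOpen V) (hf : ∀ k, DifferentiableOn ℂ (f k) V) (c : PowerSeries ℂ) (m : ℕ)
    {z : Fin n → ℂ} (hz : z ∈ V) :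
    starMul P (csmul c f) g m z = csmul c (starMul P f g) m z := by
  have h1 : ∀ (a b r : ℕ), (P a).ev (csmul c f b) (g r) z =
      ∑ q ∈ Finset.HasAntidiagonal.antidiagonal b,
        PowerSeries.coeff q.1 c * (P a).ev (f q.2) (g r) z := by
    intro a b r
    exact ev_sum_left _ hV (fun q _ => hf q.2) hz
  have h2 : ∀ a s : ℕ, (∑ q ∈ Finset.HasAntidiagonal.antidiagonal s,
      (P a).ev (csmul c f q.1) (g q.2) z) =
      ∑ q ∈ Finset.HasAntidiagonal.antidiagonal s,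
        PowerSeries.coeff q.1 c * ∑ p ∈ Finset.HasAntidiagonal.antidiagonal q.2,
          (P a).ev (f p.1) (g p.2) z := by
    intro a s
    have h3 : evp (P a) (csmul c f) g z = c * evp (P a) f g z := by
      have e1 : ∀ t : ℕ, PowerSeries.coeff t (evp (P a) (csmul c f) g z) =
          ∑ q ∈ Finset.HasAntidiagonal.antidiagonal t, ∑ p ∈ Finset.HasAntidiagonal.antidiagonal q.1,
            PowerSeries.coeff p.1 c * (P a).ev (f p.2) (g q.2) z := by
        intro t
        simp only [evp, PowerSeries.coeff_mk, h1]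
      ext t
      rw [e1, PowerSeries.coeff_mul]
      simp only [evp, PowerSeries.coeff_mk, Finset.mul_sum]
      rw [Finset.sum_sigma', Finset.sum_sigma']
      refine Finset.sum_bij' (fun x _ => ⟨(x.2.1, x.2.2 + x.1.2), (x.2.2, x.1.2)⟩)
        (fun x _ => ⟨(x.1.1 + x.2.1, x.2.2), (x.1.1, x.2.1)⟩) ?_ ?_ ?_ ?_ ?_
      · rintro ⟨⟨a, b⟩, ⟨c, d⟩⟩ h
        rw [Finset.mem_sigma, Finset.HasAntidiagonal.mem_antidiagonal,
          Finset.HasAntidiagonal.mem_antidiagonal] at h ⊢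
        obtain ⟨h1, h2⟩ := h
        change a + b = t at h1
        change c + d = a at h2
        change c + (d + b) = t ∧ d + b = d + b
        omega
      · rintro ⟨⟨a, b⟩, ⟨c, d⟩⟩ h
        rw [Finset.mem_sigma, Finset.HasAntidiagonal.mem_antidiagonal,
          Finset.HasAntidiagonal.mem_antidiagonal] at h ⊢
        obtain ⟨h1, h2⟩ := h
        change a + b = t at h1
        change c + d = b at h2
        change (a + c) + d = t ∧ a + c = a + c
        omega
      · rintro ⟨⟨a, b⟩, ⟨c, d⟩⟩ h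
        simp only [Finset.mem_sigma, Finset.HasAntidiagonal.mem_antidiagonal] at h ⊢
        obtain ⟨-, rfl⟩ := h
        rfl
      · rintro ⟨⟨a, b⟩, ⟨c, d⟩⟩ h
        simp only [Finset.mem_sigma, Finset.HasAntidiagonal.mem_antidiagonal] at h ⊢
        obtain ⟨-, rfl⟩ := h
        rfl
      · rintro ⟨⟨a, b⟩, ⟨c, d⟩⟩ h
        rfl
    have h4 := congrArg (PowerSeries.coeff s) h3
    rw [PowerSeries.coeff_mul] at h4
    simpa only [evp, PowerSeries.coeff_mk] using h4
  simp only [starMul, h2]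
  simp only [csmul, starMul]
  rw [sum_anti_anti m (fun a b r => PowerSeries.coeff b c *
    ∑ p ∈ Finset.HasAntidiagonal.antidiagonal r, (P a).ev (f p.1) (g p.2) z)]
  refine Finset.sum_congr rfl fun q _ => ?_
  rw [Finset.mul_sum]

/-- the star product is homogeneous in the second argument -/
theorem starMul_csmul_right {P : ℕ → BiDiff n} {f g : ℕ → (Fin n → ℂ) → ℂ} {V : Set (Fin n → ℂ)}
    (hV : IsOpen V) (hg : ∀ k, DifferentiableOn ℂ (g k) V) (c : PowerSeries ℂ) (m : ℕ)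
    {z : Fin n → ℂ} (hz : z ∈ V) :
    starMul P f (csmul c g) m z = csmul c (starMul P f g) m z := by
  have h1 : ∀ (a b r : ℕ), (P a).ev (f r) (csmul c g b) z =
      ∑ q ∈ Finset.HasAntidiagonal.antidiagonal b,
        PowerSeries.coeff q.1 c * (P a).ev (f r) (g q.2) z := by
    intro a b r
    exact ev_sum_right _ hV (fun q _ => hg q.2) hz
  have h2 : ∀ a s : ℕ, (∑ q ∈ Finset.HasAntidiagonal.antidiagonal s,
      (P a).ev (f q.1) (csmul c g q.2) z) =
      ∑ q ∈ Finset.HasAntidiagonal.antidiagonal s,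
        PowerSeries.coeff q.1 c * ∑ p ∈ Finset.HasAntidiagonal.antidiagonal q.2,
          (P a).ev (f p.1) (g p.2) z := by
    intro a s
    simp only [h1, Finset.mul_sum]
    exact sum_anti_anti s (fun x y w => PowerSeries.coeff y c * (P a).ev (f x) (g w) z)
  simp only [starMul, h2]
  simp only [csmul, starMul]
  rw [sum_anti_anti m (fun a b r => PowerSeries.coeff b c *
    ∑ p ∈ Finset.HasAntidiagonal.antidiagonal r, (P a).ev (f p.1) (g p.2) z)]
  refine Finset.sum_congr rfl fun q _ => ?_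
  rw [Finset.mul_sum]

end Pool.Agent.DQOff
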