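import Mathlib
import Pool.Agent.Lib.MP_4aa2a9_ag.DQ.OffExS

/-!
# Example of a DQ-algebroid, part A: the algebroid of a star product on `ℂ^n` (campaign DQ, S)
-/

set_option autoImplicit false

open TopologicalSpace Topology Filter Set

open scoped Manifold ContDiff

namespace Pool.Agent.DQOff

variable {n : ℕ} {P : ℕ → BiDiff n} (hP : IsStar (Set.univ : Set (Fin n → ℂ)) P)

include hP in
theorem IsStar.hol_on (V : Set (Fin n → ℂ)) (k : ℕ) (t : ((Fin n → ℂ) → ℂ) × List (Fin n) × List (Fin n))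
    (ht : t ∈ P k) : DifferentiableOn ℂ t.1 V := (hP.hol k t ht).mono (subset_univ _)

/-- the product of sections -/
noncomputable def HSec.mul (V : Opens (Fin n → ℂ)) (f g : HSec V) : HSec V :=
  HSec.mk' V (starMul P f.1 g.1) (starMul_hol V.2 (hP.hol_on V) f.hol g.hol)

theorem HSec.mul_apply {V : Opens (Fin n → ℂ)} (f g : HSec V) {m : ℕ} {z : Fin n → ℂ}
    (hz : z ∈ V) : (HSec.mul hP V f g).1 m z = starMul P f.1 g.1 m z := HSec.mk'_apply hz

theorem HSec.mul_eventually {V : Opens (Fin n → ℂ)} (f g : HSec V) (m : ℕ) {z : Fin n → ℂ}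
    (hz : z ∈ V) : (HSec.mul hP V f g).1 m =ᶠ[𝓝 z] starMul P f.1 g.1 m := HSec.mk'_eventually hz

/-- the constant sequence `1` -/
def oneSeq (n : ℕ) : ℕ → (Fin n → ℂ) → ℂ := fun k _ => if k = 0 then 1 else 0

/-- the unit -/
noncomputable def HSec.one (V : Opens (Fin n → ℂ)) : HSec V :=
  HSec.mk' V (oneSeq n) fun _ => differentiableOn_const _

theorem HSec.one_apply {V : Opens (Fin n → ℂ)} {m : ℕ} {z : Fin n → ℂ} (hz : z ∈ V) :
    (HSec.one V).1 m z = if m = 0 then 1 else 0 := HSec.mk'_apply hz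

theorem oneSeq_succ {k : ℕ} (hk : k ≠ 0) : oneSeq n k = fun _ => 0 := by
  funext z
  simp [oneSeq, hk]

theorem oneSeq_zero : oneSeq n 0 = fun _ => 1 := by
  funext z
  simp [oneSeq]

theorem sum_single (m : ℕ) (F : ℕ → ℕ → ℕ → ℂ) (h : ∀ a b c, a ≠ 0 ∨ b ≠ 0 → F a b c = 0) :
    ∑ p ∈ Finset.HasAntidiagonal.antidiagonal m,
      ∑ q ∈ Finset.HasAntidiagonal.antidiagonal p.2, F p.1 q.1 q.2 = F 0 0 m := by
  rw [Finset.sum_eq_single (0, m), Finset.sum_eq_single (0, m)]
  · rintro ⟨b, c⟩ h1 h2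
    rw [Finset.HasAntidiagonal.mem_antidiagonal] at h1
    refine h _ _ _ (Or.inr ?_)
    rintro rfl
    refine h2 (Prod.ext rfl ?_)
    simpa using h1
  · intro h1
    exact absurd (Finset.HasAntidiagonal.mem_antidiagonal.2 (by simp)) h1
  · rintro ⟨b, c⟩ h1 h2
    rw [Finset.HasAntidiagonal.mem_antidiagonal] at h1
    refine Finset.sum_eq_zero fun q _ => h _ _ _ (Or.inl ?_)
    rintro rfl
    refine h2 (Prod.ext rfl ?_)
    simpa using h1
  · intro h1
    exact absurd (Finset.HasAntidiagonal.mem_antidiagonal.2 (by simp)) h1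

include hP in
theorem one_starMul {V : Opens (Fin n → ℂ)} (f : HSec V) (m : ℕ) {z : Fin n → ℂ} (hz : z ∈ V) :
    starMul P (oneSeq n) f.1 m z = f.1 m z := by
  have h1 := sum_single m (fun a b c => (P a).ev (oneSeq n b) (f.1 c) z) (by
    intro a b c h
    by_cases hb : b = 0
    · subst hb
      have ha : 1 ≤ a := Nat.one_le_iff_ne_zero.2 (h.resolve_right fun h => h rfl)
      change (P a).ev (oneSeq n 0) (f.1 c) z = 0
      rw [oneSeq_zero]
      exact (hP.unit V (subset_univ _) V.2 (f.1 c) (f.hol c) a ha z hz).2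
    · change (P a).ev (oneSeq n b) (f.1 c) z = 0
      rw [oneSeq_succ hb]
      exact ev_zero_left)
  refine h1.trans ?_
  change (P 0).ev (oneSeq n 0) (f.1 m) z = f.1 m z
  rw [oneSeq_zero, hP.zero V (subset_univ _) V.2 _ _ (differentiableOn_const _) (f.hol m) z hz,
    one_mul]

include hP in
theorem starMul_one {V : Opens (Fin n → ℂ)} (f : HSec V) (m : ℕ) {z : Fin n → ℂ} (hz : z ∈ V) :
    starMul P f.1 (oneSeq n) m z = f.1 m z := by
  have h0 : starMul P f.1 (oneSeq n) m z = ∑ p ∈ Finset.HasAntidiagonal.antidiagonal m,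
      ∑ q ∈ Finset.HasAntidiagonal.antidiagonal p.2, (P p.1).ev (f.1 q.2) (oneSeq n q.1) z := by
    unfold starMul
    refine Finset.sum_congr rfl fun p _ => ?_
    exact (Finset.Nat.sum_antidiagonal_swap (n := p.2)
      (f := fun q => (P p.1).ev (f.1 q.1) (oneSeq n q.2) z)).symm
  have h1 := sum_single m (fun a b c => (P a).ev (f.1 c) (oneSeq n b) z) (by
    intro a b c h
    by_cases hb : b = 0
    · subst hb
      have ha : 1 ≤ a := Nat.one_le_iff_ne_zero.2 (h.resolve_right fun h => h rfl)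
      change (P a).ev (f.1 c) (oneSeq n 0) z = 0
      rw [oneSeq_zero]
      exact (hP.unit V (subset_univ _) V.2 (f.1 c) (f.hol c) a ha z hz).1
    · change (P a).ev (f.1 c) (oneSeq n b) z = 0
      rw [oneSeq_succ hb]
      exact ev_zero_right)
  refine (h0.trans h1).trans ?_
  change (P 0).ev (f.1 m) (oneSeq n 0) z = f.1 m z
  rw [oneSeq_zero, hP.zero V (subset_univ _) V.2 _ _ (f.hol m) (differentiableOn_const _) z hz,
    mul_one]

theorem starMul_add_left {V : Opens (Fin n → ℂ)} (f f' g : HSec V) (m : ℕ) {z : Fin n → ℂ}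
    (hz : z ∈ V) : starMul P (HSec.add V f f').1 g.1 m z =
      starMul P f.1 g.1 m z + starMul P f'.1 g.1 m z := by
  unfold starMul
  rw [← Finset.sum_add_distrib]
  refine Finset.sum_congr rfl fun p _ => ?_
  rw [← Finset.sum_add_distrib]
  exact Finset.sum_congr rfl fun q _ => ev_add_left V.2 (f.hol _) (f'.hol _) hz

theorem starMul_add_right {V : Opens (Fin n → ℂ)} (f g g' : HSec V) (m : ℕ) {z : Fin n → ℂ}
    (hz : z ∈ V) : starMul P f.1 (HSec.add V g g').1 m z =
      starMul P f.1 g.1 m z + starMul P f.1 g'.1 m z := by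
  unfold starMul
  rw [← Finset.sum_add_distrib]
  refine Finset.sum_congr rfl fun p _ => ?_
  rw [← Finset.sum_add_distrib]
  exact Finset.sum_congr rfl fun q _ => ev_add_right V.2 (g.hol _) (g'.hol _) hz

section laws

variable {V W : Opens (Fin n → ℂ)}

theorem HSec.add_apply (f g : HSec V) (m : ℕ) (z : Fin n → ℂ) :
    (HSec.add V f g).1 m z = f.1 m z + g.1 m z := rfl

theorem HSec.add_mul (b c a : HSec V) : HSec.mul hP V (HSec.add V b c) a =
    HSec.add V (HSec.mul hP V b a) (HSec.mul hP V c a) := HSec.ext_on fun m z hz => by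
  rw [HSec.add_apply, HSec.mul_apply hP _ _ hz, HSec.mul_apply hP _ _ hz,
    HSec.mul_apply hP _ _ hz, starMul_add_left b c a m hz]

theorem HSec.mul_add (b a c : HSec V) : HSec.mul hP V b (HSec.add V a c) =
    HSec.add V (HSec.mul hP V b a) (HSec.mul hP V b c) := HSec.ext_on fun m z hz => by
  rw [HSec.add_apply, HSec.mul_apply hP _ _ hz, HSec.mul_apply hP _ _ hz,
    HSec.mul_apply hP _ _ hz, starMul_add_right b a c m hz]

theorem HSec.smul_mul (r : PowerSeries ℂ) (b a : HSec V) : HSec.mul hP V (HSec.smul V r b) a =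
    HSec.smul V r (HSec.mul hP V b a) := HSec.ext_on fun m z hz => by
  rw [HSec.mul_apply hP _ _ hz]
  refine (starMul_csmul_left V.2 b.hol r m hz).trans ?_
  exact Finset.sum_congr rfl fun p _ => by rw [HSec.mul_apply hP _ _ hz]

theorem HSec.mul_smul' (r : PowerSeries ℂ) (b a : HSec V) : HSec.mul hP V b (HSec.smul V r a) =
    HSec.smul V r (HSec.mul hP V b a) := HSec.ext_on fun m z hz => by
  rw [HSec.mul_apply hP _ _ hz]
  refine (starMul_csmul_right V.2 a.hol r m hz).trans ?_
  exact Finset.sum_congr rfl fun p _ => by rw [HSec.mul_apply hP _ _ hz]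

theorem HSec.res_one' (h : V ≤ W) : (HSec.one W).res h = HSec.one V :=
  HSec.ext_on fun m z hz => by
    rw [HSec.res_apply h _ hz, HSec.one_apply hz, HSec.one_apply (h hz)]

theorem HSec.res_mul (h : V ≤ W) (b a : HSec W) :
    (HSec.mul hP W b a).res h = HSec.mul hP V (b.res h) (a.res h) :=
  HSec.ext_on fun m z hz => by
    rw [HSec.res_apply h _ hz, HSec.mul_apply hP _ _ hz, HSec.mul_apply hP _ _ (h hz)]
    exact starMul_congr (fun k => (HSec.res_eventually h b hz).symm)
      (fun k => (HSec.res_eventually h a hz).symm) m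

theorem HSec.one_mul' (a : HSec V) : HSec.mul hP V (HSec.one V) a = a :=
  HSec.ext_on fun m z hz => by
    rw [HSec.mul_apply hP _ _ hz, ← one_starMul hP a m hz]
    exact starMul_congr (fun k => HSec.mk'_eventually hz) (fun k => EventuallyEq.rfl) m

theorem HSec.mul_one' (a : HSec V) : HSec.mul hP V a (HSec.one V) = a :=
  HSec.ext_on fun m z hz => by
    rw [HSec.mul_apply hP _ _ hz, ← starMul_one hP a m hz]
    exact starMul_congr (fun k => EventuallyEq.rfl) (fun k => HSec.mk'_eventually hz) m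

theorem HSec.mul_assoc' (c b a : HSec V) : HSec.mul hP V c (HSec.mul hP V b a) =
    HSec.mul hP V (HSec.mul hP V c b) a := HSec.ext_on fun m z hz => by
  rw [HSec.mul_apply hP _ _ hz, HSec.mul_apply hP _ _ hz]
  have h1 := hP.assoc V (subset_univ _) V.2 c.1 b.1 a.1 c.hol b.hol a.hol m z hz
  rw [starMul_congr (fun k => EventuallyEq.rfl) (fun k => HSec.mul_eventually hP b a k hz) m,
    starMul_congr (fun k => HSec.mul_eventually hP c b k hz) (fun k => EventuallyEq.rfl) m, h1]

end laws

/-- the algebroid (with one object) of a star product on `ℂ^n` -/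
noncomputable def starAlg : Algebroid (Fin n → ℂ) where
  Obj := PUnit
  dom _ := ⊤
  covers _ := ⟨⟨⟩, trivial⟩
  Hom _ _ := hSheaf n
  one _ V := HSec.one V
  comp _ _ _ V b a := HSec.mul hP V b a
  add_comp _ _ _ _ b c a := HSec.add_mul hP b c a
  comp_add _ _ _ _ b a c := HSec.mul_add hP b a c
  smul_comp _ _ _ _ r b a := HSec.smul_mul hP r b a
  comp_smul _ _ _ _ r b a := HSec.mul_smul' hP r b a
  res_one _ _ _ h _ := HSec.res_one' h
  res_comp _ _ _ _ _ h _ _ _ b a := HSec.res_mul hP h b a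
  one_comp _ _ _ _ _ a := HSec.one_mul' hP a
  comp_one _ _ _ _ _ a := HSec.mul_one' hP a
  assoc _ _ _ _ _ _ _ _ _ c b a := HSec.mul_assoc' hP c b a
  locally_iso _ _ _ _ _ := ⟨⊤, trivial, le_top, le_top, HSec.one ⊤, HSec.one ⊤,
    HSec.one_mul' hP _, HSec.one_mul' hP _⟩

theorem starAlg_isDQ : IsDQ n (starAlg hP) := by
  intro i x _
  refine ⟨chartAt (Fin n → ℂ) x, IsManifold.chart_mem_maximalAtlas x, ⊤, P,
    fun W a => a.1, trivial, ?_, ?_⟩
  · intro y _
    rw [chartAt_self_eq]
    trivial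
  · have e1 : ∀ W : Opens (Fin n → ℂ), (chartAt (Fin n → ℂ) x) '' (W : Set (Fin n → ℂ)) = W := by
      intro W
      rw [chartAt_self_eq]
      exact image_id _
    exact
      { dom := le_top
        star := by
          rw [e1]
          exact ⟨fun k t ht => hP.hol_on _ k t ht,
            fun V _ => hP.zero V (subset_univ _), fun V _ => hP.unit V (subset_univ _),
            fun V _ => hP.assoc V (subset_univ _)⟩
        hol := fun W _ a => by
          rw [e1]
          exact a.2
        surj := fun W _ f hf => by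
          rw [e1] at hf
          exact ⟨⟨f, hf⟩, rfl⟩
        inj := fun W _ a b h => Subtype.ext h
        add := fun W _ a b m z => rfl
        smul := fun W _ c a m z => rfl
        mul := fun W _ b a m z hz => by
          rw [e1] at hz
          exact HSec.mul_apply hP b a hz
        res := fun W W' h _ a m z hz => by
          rw [e1] at hz
          exact HSec.res_apply h a hz }

end Pool.Agent.DQOff
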