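import Mathlib
import Pool.Agent.Lib.MP_4aa2a9_ag.Mg.G031

/-!
# The resolutions used in the official definitions exist (campaign DQ, S)

`Mod.ExtZero` and `Mod.Reflexive` quantify over all resolutions of the stalks.  For a coherent
module over a DQ-algebroid such resolutions exist (`Mod.exists_isRes`), and for every resolution
`B` of the stalk the further data `g C W` in the definition of `BidualBij` exist
(`Mod.exists_bidual_data`).
-/

set_option autoImplicit false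

open TopologicalSpace Topology Filter Set

open scoped Manifold ContDiff

universe u

namespace Pool.Agent.DQ

variable {n : ℕ} {X : Type u} [TopologicalSpace X] [ChartedSpace (Fin n → ℂ) X]
  [IsManifold 𝓘(ℂ, Fin n → ℂ) ω X] {A : Algebroid X} {D : Opens X}

/-- a chart with an analysis of `End i` at every point of the domain of `i` -/
theorem exists_loc_chartAt (hA : IsDQ n A) (i : A.Obj) (x : X) (hx : x ∈ A.dom i) :
    ∃ C : Loc n A, C.i = i ∧ x ∈ C.V := by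
  obtain ⟨C, h1, -, h3, -⟩ := exists_loc hA i x hx (chartAt (Fin n → ℂ) x)
    (IsManifold.chart_mem_maximalAtlas x) (mem_chart_source _ x) ⊤ (Opens.mem_top x)
  exact ⟨C, h1, h3⟩

theorem Algebroid.noeth (hA : IsDQ n A) (i : A.Obj) (x : A.dom i) :
    IsNoetherianRing (A.R i x) ∧ IsNoetherianRing (A.R i x)ᵐᵒᵖ := by
  obtain ⟨C, rfl, hxV⟩ := exists_loc_chartAt hA i x.1 x.2
  have hz : C.e x.1 ∈ C.e '' ((C.V ⊓ ⊤ : Opens X) : Set X) :=
    mem_image_of_mem _ ⟨hxV, Opens.mem_top _⟩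
  have hx' : x = A.pt C.i (C.mpt (C.e x.1) hz) :=
    Subtype.ext (C.e.left_inv (C.src hxV)).symm
  have hy : C.e x.1 ∈ C.defo.A.dom := mem_image_of_mem _ hxV
  have h1 : IsNoetherianRing (C.St (C.e x.1)) := C.defo.isNoetherian hy
  have h2 : IsNoetherianRing (C.St (C.e x.1))ᵐᵒᵖ := C.defo.isNoetherian_op hy
  have key : IsNoetherianRing (A.R C.i (A.pt C.i (C.mpt (C.e x.1) hz))) ∧
      IsNoetherianRing (A.R C.i (A.pt C.i (C.mpt (C.e x.1) hz)))ᵐᵒᵖ :=
    ⟨isNoetherianRing_of_ringEquiv _ (C.stEquiv (C.e x.1) hz).symm,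
      isNoetherianRing_of_ringEquiv _ (RingEquiv.op (C.stEquiv (C.e x.1) hz).symm)⟩
  rw [← hx'] at key
  exact key

/-- the stalks of a coherent module over a DQ-algebroid have resolutions by finite free modules -/
theorem Mod.exists_isRes (hA : IsDQ n A) (M : Mod A D) (hM : M.Coherent) (i : A.Obj)
    (x : ↥(A.dom i ⊓ D)) : ∃ (n : ℕ → ℕ)
      (B : ∀ k, Matrix (Fin (n (k + 1))) (Fin (n k)) (A.R i (A.pt i x)))
      (ε : (Fin (n 1) → A.R i (A.pt i x)) →ₗ[A.R i (A.pt i x)] M.St i x), IsRes n B ε := by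
  obtain ⟨C, rfl, hxV⟩ := exists_loc_chartAt hA i x.1 x.2.1
  have hz : C.e x.1 ∈ C.e '' ((C.V ⊓ D : Opens X) : Set X) :=
    mem_image_of_mem _ ⟨hxV, x.2.2⟩
  have hx' : x = C.mpt (C.e x.1) hz := Subtype.ext (C.e.left_inv (C.src hxV)).symm
  have hy : C.e x.1 ∈ C.defo.A.dom := mem_image_of_mem _ hxV
  have h1 : IsNoetherianRing (C.St (C.e x.1)) := C.defo.isNoetherian hy
  have h3 : (M.emod C.toCh).CohAt (C.e x.1) := M.coh_of_coherent C.toCh hM hz
  have h4 : Module.Finite (C.St (C.e x.1)) (M.est C.toCh (C.e x.1)) :=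
    EMod.CohAt.finite (𝓐 := C.defo) h3
  obtain ⟨n', B, ε, hB⟩ := Pool.Agent.DQ.exists_isRes (C.St (C.e x.1)) (M.est C.toCh (C.e x.1))
  have key : ∃ (n : ℕ → ℕ)
      (B : ∀ k, Matrix (Fin (n (k + 1))) (Fin (n k)) (A.R C.i (A.pt C.i (C.mpt (C.e x.1) hz))))
      (ε : (Fin (n 1) → A.R C.i (A.pt C.i (C.mpt (C.e x.1) hz)))
        →ₗ[A.R C.i (A.pt C.i (C.mpt (C.e x.1) hz))] M.St C.i (C.mpt (C.e x.1) hz)),
      IsRes n B ε :=
    ⟨n', _, _, hB.transport_iso (C.stEquiv (C.e x.1) hz).symm (M.stEquiv C.toCh (C.e x.1) hz).symm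
      (hf_symm (C.stEquiv (C.e x.1) hz) (M.stEquiv C.toCh (C.e x.1) hz)
        (M.stEquiv_smul C.toCh (C.e x.1) hz))⟩
  rw [← hx'] at key
  exact key

/-- for a resolution `B` of a stalk of a module with `Ext^j(M, A) = 0` for `j < d`, the data
`g C W` in the definition of `BidualBij` exist -/
theorem Mod.exists_bidual_data (hA : IsDQ n A) (M : Mod A D) {d : ℕ}
    (hext : ∀ j < d, M.ExtZero j) (i : A.Obj) (x : ↥(A.dom i ⊓ D)) (n : ℕ → ℕ)
    (B : ∀ k, Matrix (Fin (n (k + 1))) (Fin (n k)) (A.R i (A.pt i x)))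
    (ε : (Fin (n 1) → A.R i (A.pt i x)) →ₗ[A.R i (A.pt i x)] M.St i x) (hB : IsRes n B ε) :
    ∃ (g : ℕ → ℕ) (C : ∀ k, Matrix (Fin (g k)) (Fin (g (k + 1))) (A.R i (A.pt i x)))
      (W : ∀ j k, j + k = d + 2 → Matrix (Fin (n j)) (Fin (g k)) (A.R i (A.pt i x))),
      IsResExt d n B g C (W (d + 1) 1 (by omega)) ∧
      ∀ j k (h : j + k = d + 1), W (j + 1) k (by omega) * C k = B j * W j (k + 1) (by omega) := by
  have := (Algebroid.noeth hA i (A.pt i x)).2
  obtain ⟨g, C, W1, h⟩ := exists_isResExt (R := A.R i (A.pt i x)) d n B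
  obtain ⟨W, rfl, h3⟩ := exists_W h (fun j hj w hw => hext j hj i x n B ε hB w hw)
  exact ⟨g, C, W, h, h3⟩

end Pool.Agent.DQ
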