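import Mathlib
import Pool.Agent.Lib.MP_4aa2a9_ag.Mg.G001
import Pool.Agent.Lib.MP_4aa2a9_ag.DQ.OffNonvac

/-!
# Example of a DQ-algebroid, part M: the regular module is coherent (campaign DQ, S)
-/

set_option autoImplicit false

open TopologicalSpace Topology Filter Set

open scoped Manifold ContDiff

universe u

namespace Pool.Agent.DQ

variable {n : ℕ} {X : Type u} [TopologicalSpace X]

/-- the module `Hom(j, -)` -/
noncomputable def Mod.reg (A : Algebroid X) (j : A.Obj) (D : Opens X) (hD : D ≤ A.dom j) :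
    Mod A D where
  sh i := A.Hom j i
  act {i k} V := A.comp (i := j) (j := i) (k := k) V
  res_act h hi hk hV a s := A.res_comp h (hV.trans hD) hi hk a s
  one_act V hi hV s := A.one_comp V (hV.trans hD) hi s
  comp_act V hi hj hk hV b a s := (A.assoc V (hV.trans hD) hi hj hk b a s).symm

section

variable {A : Algebroid X} (C : Ch n A) {D : Opens X} (hD : D ≤ A.dom C.i)

/-- in the stalk of the regular module the action is the multiplication -/
theorem Mod.reg_smul (x : ↥(A.dom C.i ⊓ D)) (a m : A.R C.i (A.pt C.i x)) :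
    (show A.R C.i (A.pt C.i x) from
      a • (show (Mod.reg A C.i D hD).St C.i x from m)) = a * m := by
  obtain ⟨V, hx, hV, s, t, r, rfl, rfl, -⟩ := A.exists_gm₃ C.i (A.pt C.i x) a m m
  have hx' : x.1 ∈ V ⊓ D := ⟨hx, x.2.2⟩
  have h1 : V ⊓ D ≤ A.dom C.i ⊓ D := inf_le_inf_right D hV
  have h2 := (Mod.reg A C.i D hD).gm_smul C.i x hx' h1 ((A.Hom C.i C.i).res inf_le_left s)
    ((A.Hom C.i C.i).res inf_le_left t)
  have e1 : A.gm C.i (A.pt C.i x) (V ⊓ D) hx' ((A.Hom C.i C.i).res inf_le_left s) =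
      A.gm C.i (A.pt C.i x) V hx s := (A.Hom C.i C.i).germ_res x.1 inf_le_left hx' s
  have e2 : (Mod.reg A C.i D hD).gm C.i x (V ⊓ D) hx' ((A.Hom C.i C.i).res inf_le_left t) =
      A.gm C.i (A.pt C.i x) V hx t := (A.Hom C.i C.i).germ_res x.1 inf_le_left hx' t
  rw [e1, e2] at h2
  refine h2.symm.trans ?_
  have e3 := A.gm_mul C.i (A.pt C.i x) hx hV s t
  refine Eq.trans ?_ e3
  have e4 := (A.Hom C.i C.i).germ_res x.1 (inf_le_left : V ⊓ D ≤ V) hx' (A.comp V s t)
  refine Eq.trans ?_ e4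
  have e5 := A.res_comp (inf_le_left : V ⊓ D ≤ V) hV hV hV s t
  exact congrArg ((A.Hom C.i C.i).germ x.1 (V ⊓ D) hx') e5.symm

/-- comparison of the free module of rank one with the regular module -/
noncomputable def Mod.regMap (z : Fin n → ℂ) (v : Fin 1 → C.St z) :
    (Mod.reg A C.i D hD).est C z :=
  fun h => v 0 ⟨C.memV h.down⟩

open Classical in
theorem Mod.reg_isExt : IsExt (R := C.sheafR) (C.sheafR.free 1) ((Mod.reg A C.i D hD).emod C)
    (Mod.regMap C hD) (C.e '' ((C.V ⊓ D : Opens X) : Set X)) ∅ where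
  dom := fun z hz => C.memV hz
  add _ _ _ _ := rfl
  smul z _ a m := by
    funext h
    exact (Mod.reg_smul C hD (C.mpt z h.down) (a ⟨C.memV h.down⟩) (m 0 ⟨C.memV h.down⟩)).symm
  inj z hz m hm := by
    funext i
    obtain rfl : i = 0 := Subsingleton.elim _ _
    funext h
    exact congrFun hm ⟨hz.1⟩
  at_map s z hz hs := by
    obtain ⟨h1, U, a, hU, hzU, h2⟩ := hs.2 0
    have hz' := symm_mem C.e (C.srcD D) le_rfl hz.1
    refine ⟨hz.1, U ⊓ D, (A.Hom C.i C.i).res inf_le_left a, inf_le_inf_right D hU,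
      ⟨hzU, hz'.2⟩, fun w hw hwU => ?_⟩
    have h3 := h2 w (C.memV hw) hwU.1
    refine Eq.trans h3 ?_
    exact ((A.Hom C.i C.i).germ_res (C.e.symm w) inf_le_left hwU a).symm
  ext Z hZ hZo s hs := by
    refine ⟨fun z _ h => if hz : z ∈ C.e '' ((C.V ⊓ D : Opens X) : Set X) then
      (show A.R C.i (C.pt z h.down) from s z ⟨hz⟩) else 0, fun z hz => ?_, fun z hz => ?_⟩
    · have hz' := hZ hz
      obtain ⟨h1, U, a, hU, hzU, h2⟩ := hs z ⟨hz, notMem_empty z⟩
      refine ⟨C.memV hz', fun _ => ⟨C.memV hz', U, a, hU.trans inf_le_left, hzU,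
        fun w hw hwU => ?_⟩⟩
      have h3 : w ∈ C.e '' ((C.V ⊓ D : Opens X) : Set X) :=
        (mem_image_iff C.e (C.srcD D) le_rfl).2
          ⟨((mem_image_iff C.e C.src le_rfl).1 hw).1, hU hwU⟩
      refine Eq.trans (dif_pos h3) (h2 w h3 hwU)
    · funext h
      exact dif_pos h.down
  uniq Z _ _ t _ h x hx := h x ⟨hx, notMem_empty x⟩

theorem Mod.reg_isExt_id (M : Mod A D) : IsExt (R := C.sheafR) (M.emod C) (M.emod C)
    (fun _ m => m) (C.e '' ((C.V ⊓ D : Opens X) : Set X)) ∅ where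
  dom := subset_rfl
  add _ _ _ _ := rfl
  smul _ _ _ _ := rfl
  inj _ _ _ h := h
  at_map _ _ _ h := h
  ext Z _ _ s hs := ⟨s, fun z hz => hs z ⟨hz, notMem_empty z⟩, fun _ _ => rfl⟩
  uniq _ _ _ _ _ h x hx := h x ⟨hx, notMem_empty x⟩

end

theorem Mod.reg_cohAt {A : Algebroid X} (C : Loc n A) {D : Opens X} (hD : D ≤ A.dom C.i)
    {z : Fin n → ℂ} (hz : z ∈ C.e '' ((C.V ⊓ D : Opens X) : Set X)) :
    ((Mod.reg A C.i D hD).emod C.toCh).CohAt z := by
  have h1 : (C.defo.A.free 1).CohAt z := (C.defo.oka 1 z (C.memV hz)).self_of_nhds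
  exact IsExt.cohAt (isOpen_image C.e (C.srcD D) le_rfl) (Mod.reg_isExt C.toCh hD)
    (Mod.reg_isExt_id C.toCh _) hz h1

variable [ChartedSpace (Fin n → ℂ) X] [IsManifold 𝓘(ℂ, Fin n → ℂ) ω X]

/-- the regular module of a DQ-algebroid with one object is coherent -/
theorem Mod.reg_coherent {A : Algebroid X} (hA : IsDQ n A) (hs : ∀ i j : A.Obj, i = j)
    (j : A.Obj) (D : Opens X) (hD : D ≤ A.dom j) : (Mod.reg A j D hD).Coherent := by
  refine (Mod.reg A j D hD).coherent_of_charts (n := n) fun i x hx hxD => ?_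
  obtain ⟨C, rfl, hxV⟩ := exists_loc_chartAt hA i x hx
  obtain rfl := hs j C.i
  exact ⟨C.toCh, rfl, hxV, Mod.reg_cohAt C hD (mem_image_of_mem _ ⟨hxV, hxD⟩)⟩

end Pool.Agent.DQ

namespace Pool.Agent.DQOff

variable {X : Type u} [TopologicalSpace X]

/-- the module `Hom(j, -)` -/
def Mod.reg (A : Algebroid X) (j : A.Obj) (D : Opens X) (hD : D ≤ A.dom j) : Mod A D where
  sh i := A.Hom j i
  act i k V := A.comp j i k V
  add_act i k V := A.add_comp j i k V
  act_add i k V := A.comp_add j i k V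
  smul_act i k V := A.smul_comp j i k V
  act_smul i k V := A.comp_smul j i k V
  res_act i k V W h hi hk hV := A.res_comp j i k V W h (hV.trans hD) hi hk
  one_act i V hi hV := A.one_comp j i V (hV.trans hD) hi
  comp_act i k l V hi hk hl hV b a s := (A.assoc j i k l V (hV.trans hD) hi hk hl b a s).symm

theorem Mod.reg_coherent {n : ℕ} [ChartedSpace (Fin n → ℂ) X] [IsManifold 𝓘(ℂ, Fin n → ℂ) ω X]
    {A : Algebroid X} (hA : DQ.IsDQ n A.toAlg) (hs : ∀ i j : A.Obj, i = j) (j : A.Obj)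
    (D : Opens X) (hD : D ≤ A.dom j) : (Mod.reg A j D hD).Coherent :=
  (Mod.reg A j D hD).coherent_iff.2 (DQ.Mod.reg_coherent hA hs j D hD)

end Pool.Agent.DQOff
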