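import Mathlib
import Pool.Agent.Lib.MP_4aa2a9_ag.DQ.OffR

/-!
# Example of a DQ-algebroid, part R: free modules of rank one are `0`-reflexive (campaign DQ, S)
-/

set_option autoImplicit false

open Matrix

universe v w

namespace Pool.Agent.DQ

theorem bidualBij_of_rank_one {R : Type v} [Ring R] {T : Type w} [AddCommGroup T] [Module R T]
    (e0 : T) (he : Function.Bijective fun r : R => r • e0) : BidualBij R T 0 := by
  intro n B ε hB g C W hE hW
  choose e he' using fun i => he.2 (ε (Pi.single i 1))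
  have hn0 : IsEmpty (Fin (n 0)) := by rw [hB.zero]; infer_instance
  have hg0 : IsEmpty (Fin (g 0)) := by rw [hE.zero]; infer_instance
  have hε : ∀ v, ε v = (v ⬝ᵥ e) • e0 := by
    intro v
    have h1 : v = ∑ i, v i • (Pi.single i (1 : R) : Fin (n 1) → R) := by
      funext j
      simp [Finset.sum_apply, Pi.single_apply]
    conv_lhs => rw [h1]
    rw [map_sum, dotProduct, Finset.sum_smul]
    refine Finset.sum_congr rfl fun i _ => ?_
    have h2 : e i • e0 = ε (Pi.single i 1) := he' i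
    rw [map_smul, ← h2, smul_smul]
  have hε0 : ∀ v, ε v = 0 ↔ v ⬝ᵥ e = 0 := by
    intro v
    rw [hε]
    constructor
    · intro h
      refine he.1 ?_
      change (v ⬝ᵥ e) • e0 = (0 : R) • e0
      rw [h, zero_smul]
    · intro h
      rw [h, zero_smul]
  obtain ⟨s, hs⟩ := hB.surj e0
  have hse : s ⬝ᵥ e = 1 := by
    refine he.1 ?_
    change (s ⬝ᵥ e) • e0 = (1 : R) • e0
    rw [← hε, hs, one_smul]
  -- `B 1 *ᵥ e = 0`
  have hBe : B (0 + 1) *ᵥ e = 0 := by
    funext i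
    change (B (0 + 1) i) ⬝ᵥ e = 0
    rw [← hε0, hB.ker]
    exact ⟨Pi.single i 1, by rw [Matrix.single_one_vecMul]; rfl⟩
  -- cocycles are multiples of `e`
  have hmult : ∀ w : Fin (n 1) → R, B (0 + 1) *ᵥ w = 0 → ∀ i, w i = e i * (s ⬝ᵥ w) := by
    intro w hw i
    have h1 : ε (Pi.single i 1 - e i • s) = 0 := by
      rw [map_sub, map_smul, hs]
      exact sub_eq_zero.2 (he' i).symm
    obtain ⟨u, hu⟩ := (hB.ker _).1 h1
    have h2 : (u ᵥ* B 1) ⬝ᵥ w = 0 := by
      rw [← Matrix.dotProduct_mulVec]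
      have h3 : B 1 *ᵥ w = 0 := hw
      rw [h3, dotProduct_zero]
    rw [hu, sub_dotProduct, smul_dotProduct] at h2
    simp only [single_dotProduct, one_mul, smul_eq_mul] at h2
    exact sub_eq_zero.1 h2
  have hB0 : ∀ t : Fin (n 0) → R, B 0 *ᵥ t = 0 := by
    intro t
    funext i
    simp [Matrix.mulVec, dotProduct]
  have hC0 : ∀ t : Fin (g 0) → R, t ᵥ* C 0 = 0 := by
    intro t
    funext i
    simp [Matrix.vecMul, dotProduct]
  obtain ⟨x0, t0, hx0⟩ := hE.surj e hBe
  rw [hB0, add_zero] at hx0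
  refine ⟨?_, ?_⟩
  · rintro v ⟨t, hv⟩
    rw [hC0] at hv
    rw [hε0]
    have h1 : (v ᵥ* W 1 (0 + 1) (by omega)) ⬝ᵥ x0 = v ⬝ᵥ e := by
      rw [← Matrix.dotProduct_mulVec]
      exact congrArg (fun y => v ⬝ᵥ y) hx0
    rw [← h1, hv, zero_dotProduct]
  · intro u hu
    refine ⟨(u ⬝ᵥ x0) • s, 0, ?_⟩
    rw [hC0, add_zero]
    have key : ∀ x : Fin (g 1) → R, u ⬝ᵥ x = (((u ⬝ᵥ x0) • s) ᵥ* W 1 (0 + 1) (by omega)) ⬝ᵥ x := by
      intro x
      set r := s ⬝ᵥ (W (0 + 1) 1 (by omega) *ᵥ x) with hr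
      have hc : B (0 + 1) *ᵥ (W (0 + 1) 1 (by omega) *ᵥ x) = 0 := by
        rw [Matrix.mulVec_mulVec, hE.cocycle, Matrix.zero_mulVec]
      have h1 : W (0 + 1) 1 (by omega) *ᵥ (x - fun i => x0 i * r) = 0 := by
        rw [Matrix.mulVec_sub]
        funext i
        have h2 := hmult _ hc i
        rw [Pi.sub_apply, h2, ← hx0]
        have h3 : (W (0 + 1) 1 (by omega) *ᵥ fun i => x0 i * r) i =
            (W (0 + 1) 1 (by omega) *ᵥ x0) i * r := by
          simp only [Matrix.mulVec, dotProduct, Finset.sum_mul, mul_assoc]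
        rw [h3, hr]
        simp
      obtain ⟨y, hy⟩ := (hE.ker _).1 ⟨0, by rw [h1, hB0]⟩
      have h4 : u ⬝ᵥ (x - fun i => x0 i * r) = 0 := by
        rw [← hy, Matrix.dotProduct_mulVec]
        have h5 : u ᵥ* C 1 = 0 := hu
        rw [h5, zero_dotProduct]
      have h6 : u ⬝ᵥ (fun i => x0 i * r) = (u ⬝ᵥ x0) * r := by
        simp only [dotProduct, Finset.sum_mul, mul_assoc]
      rw [dotProduct_sub, h6, sub_eq_zero] at h4
      rw [h4, ← Matrix.dotProduct_mulVec, smul_dotProduct]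
      rfl
    funext j
    have h7 := key (Pi.single j 1)
    simp only [dotProduct_single, mul_one] at h7
    exact h7.symm

end Pool.Agent.DQ
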