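import Mathlib
import Pool.Agent.Lib.MP_4aa2a9_ag.DQ.OffR
import Pool.Agent.Lib.MP_4aa2a9_ag.Mg.G003

/-!
# The normal ordered star product

`f ⋆ g = ∑ ħ^k / k! ∂_a^k f ∂_b^k g` is a star product on `ℂ^n` for all coordinates `a`, `b`.
-/

set_option autoImplicit false

open Set (EqOn)
open Finset.HasAntidiagonal

namespace Pool.Agent.DQOff.Star

variable {n : ℕ} {V : Set (Fin n → ℂ)}

theorem dz_congr (hV : IsOpen V) {f g : (Fin n → ℂ) → ℂ} (h : EqOn f g V) (a : Fin n) :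
    EqOn (dz a f) (dz a g) V := by
  intro z hz
  have : f =ᶠ[nhds z] g := by
    filter_upwards [hV.mem_nhds hz] with w hw
    exact h hw
  simp only [dz, this.fderiv_eq]

theorem hol_at (hV : IsOpen V) {f : (Fin n → ℂ) → ℂ} (hf : DifferentiableOn ℂ f V)
    {z : Fin n → ℂ} (hz : z ∈ V) : DifferentiableAt ℂ f z :=
  hf.differentiableAt (hV.mem_nhds hz)

theorem hol_fderiv (hV : IsOpen V) {f : (Fin n → ℂ) → ℂ} (hf : DifferentiableOn ℂ f V)
    {z : Fin n → ℂ} (hz : z ∈ V) : DifferentiableAt ℂ (fderiv ℂ f) z := by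
  have h1 := (_root_.DQ.F.differentiableOn_iff_analyticOnNhd hV).1 hf
  exact (h1 z hz).fderiv.differentiableAt

theorem dz_hol (hV : IsOpen V) {f : (Fin n → ℂ) → ℂ} (hf : DifferentiableOn ℂ f V) (a : Fin n) :
    DifferentiableOn ℂ (dz a f) V := by
  intro z hz
  exact ((hol_fderiv hV hf hz).clm_apply (differentiableAt_const _)).differentiableWithinAt

theorem dzs_hol (hV : IsOpen V) {f : (Fin n → ℂ) → ℂ} (hf : DifferentiableOn ℂ f V)
    (l : List (Fin n)) : DifferentiableOn ℂ (dzs l f) V := by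
  induction l with
  | nil => exact hf
  | cons a l ih => exact dz_hol hV ih a

theorem dzs_congr (hV : IsOpen V) {f g : (Fin n → ℂ) → ℂ} (h : EqOn f g V) (l : List (Fin n)) :
    EqOn (dzs l f) (dzs l g) V := by
  induction l with
  | nil => exact h
  | cons a l ih => exact dz_congr hV ih a

theorem dz_comm (hV : IsOpen V) {f : (Fin n → ℂ) → ℂ} (hf : DifferentiableOn ℂ f V)
    (a b : Fin n) : EqOn (dz a (dz b f)) (dz b (dz a f)) V := by
  intro z hz
  have h1 := (_root_.DQ.F.differentiableOn_iff_analyticOnNhd hV).1 hf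
  have h2 : IsSymmSndFDerivAt ℂ f z :=
    ((h1 z hz).contDiffAt (n := 2)).isSymmSndFDerivAt (by simp)
  have h3 : ∀ c d : Fin n, dz c (dz d f) z =
      fderiv ℂ (fderiv ℂ f) z (Pi.single c 1) (Pi.single d 1) := by
    intro c d
    have h4 := (hol_fderiv hV hf hz).hasFDerivAt.clm_apply
      (hasFDerivAt_const (Pi.single d (1 : ℂ) : Fin n → ℂ) z)
    have h5 : fderiv ℂ (dz d f) z = _ := h4.fderiv
    simp only [dz] at h5 ⊢
    rw [h5]
    simp
  rw [h3, h3]
  exact h2 _ _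

theorem dzs_append (l m : List (Fin n)) (f : (Fin n → ℂ) → ℂ) :
    dzs (l ++ m) f = dzs l (dzs m f) := by
  simp [dzs, List.foldr_append]

/-- `∂_a^k` -/
noncomputable def dk (a : Fin n) (k : ℕ) (f : (Fin n → ℂ) → ℂ) : (Fin n → ℂ) → ℂ :=
  dzs (List.replicate k a) f

theorem dk_zero (a : Fin n) (f : (Fin n → ℂ) → ℂ) : dk a 0 f = f := rfl

theorem dk_succ (a : Fin n) (k : ℕ) (f : (Fin n → ℂ) → ℂ) : dk a (k + 1) f = dz a (dk a k f) := rfl

theorem dk_add (a : Fin n) (k l : ℕ) (f : (Fin n → ℂ) → ℂ) :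
    dk a k (dk a l f) = dk a (k + l) f := by
  rw [dk, dk, dk, ← dzs_append, List.replicate_append_replicate]

theorem dk_hol (hV : IsOpen V) {f : (Fin n → ℂ) → ℂ} (hf : DifferentiableOn ℂ f V)
    (a : Fin n) (k : ℕ) : DifferentiableOn ℂ (dk a k f) V := dzs_hol hV hf _

theorem dk_congr (hV : IsOpen V) {f g : (Fin n → ℂ) → ℂ} (h : EqOn f g V) (a : Fin n) (k : ℕ) :
    EqOn (dk a k f) (dk a k g) V := dzs_congr hV h _

theorem dz_dk_comm (hV : IsOpen V) {f : (Fin n → ℂ) → ℂ} (hf : DifferentiableOn ℂ f V)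
    (a b : Fin n) (k : ℕ) : EqOn (dz a (dk b k f)) (dk b k (dz a f)) V := by
  induction k with
  | zero => exact fun _ _ => rfl
  | succ k ih =>
    rw [dk_succ, dk_succ]
    exact (dz_comm hV (dk_hol hV hf b k) a b).trans (dz_congr hV ih b)

theorem dk_comm (hV : IsOpen V) {f : (Fin n → ℂ) → ℂ} (hf : DifferentiableOn ℂ f V)
    (a b : Fin n) (k l : ℕ) : EqOn (dk a k (dk b l f)) (dk b l (dk a k f)) V := by
  induction k with
  | zero => exact fun _ _ => rfl
  | succ k ih =>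
    rw [dk_succ, dk_succ]
    exact (dz_congr hV ih a).trans (dz_dk_comm hV (dk_hol hV hf a k) a b l)

theorem dz_sum (hV : IsOpen V) {ι : Type*} (s : Finset ι) (F : ι → (Fin n → ℂ) → ℂ)
    (hF : ∀ i ∈ s, DifferentiableOn ℂ (F i) V) (a : Fin n) :
    EqOn (dz a fun z => ∑ i ∈ s, F i z) (fun z => ∑ i ∈ s, dz a (F i) z) V := by
  intro z hz
  simp only [dz]
  rw [fderiv_fun_sum fun i hi => hol_at hV (hF i hi) hz]
  simp

theorem dz_cmul (hV : IsOpen V) (c : ℂ) {f : (Fin n → ℂ) → ℂ} (hf : DifferentiableOn ℂ f V)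
    (a : Fin n) : EqOn (dz a fun z => c * f z) (fun z => c * dz a f z) V := by
  intro z hz
  simp only [dz]
  rw [fderiv_const_mul (hol_at hV hf hz)]
  simp

theorem dz_mul (hV : IsOpen V) {f g : (Fin n → ℂ) → ℂ} (hf : DifferentiableOn ℂ f V)
    (hg : DifferentiableOn ℂ g V) (a : Fin n) :
    EqOn (dz a fun z => f z * g z) (fun z => dz a f z * g z + f z * dz a g z) V := by
  intro z hz
  simp only [dz]
  rw [fderiv_fun_mul (hol_at hV hf hz) (hol_at hV hg hz)]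
  simp
  ring

theorem dk_sum (hV : IsOpen V) {ι : Type*} (s : Finset ι) (F : ι → (Fin n → ℂ) → ℂ)
    (hF : ∀ i ∈ s, DifferentiableOn ℂ (F i) V) (a : Fin n) (k : ℕ) :
    EqOn (dk a k fun z => ∑ i ∈ s, F i z) (fun z => ∑ i ∈ s, dk a k (F i) z) V := by
  induction k with
  | zero => exact fun _ _ => rfl
  | succ k ih =>
    rw [dk_succ]
    exact (dz_congr hV ih a).trans (dz_sum hV s _ (fun i hi => dk_hol hV (hF i hi) a k) a)

theorem dk_cmul (hV : IsOpen V) (c : ℂ) {f : (Fin n → ℂ) → ℂ} (hf : DifferentiableOn ℂ f V)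
    (a : Fin n) (k : ℕ) : EqOn (dk a k fun z => c * f z) (fun z => c * dk a k f z) V := by
  induction k with
  | zero => exact fun _ _ => rfl
  | succ k ih =>
    rw [dk_succ]
    exact (dz_congr hV ih a).trans (dz_cmul hV c (dk_hol hV hf a k) a)

/-- Leibniz rule -/
theorem dk_mul (hV : IsOpen V) {f g : (Fin n → ℂ) → ℂ} (hf : DifferentiableOn ℂ f V)
    (hg : DifferentiableOn ℂ g V) (a : Fin n) (k : ℕ) :
    EqOn (dk a k fun z => f z * g z) (fun z => ∑ p ∈ antidiagonal k,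
      (k.choose p.1 : ℂ) * (dk a p.1 f z * dk a p.2 g z)) V := by
  induction k with
  | zero =>
    intro z hz
    simp [dk_zero]
  | succ k ih =>
    rw [dk_succ]
    refine (dz_congr hV ih a).trans ?_
    refine (dz_sum hV _ _ (fun p _ => ?_) a).trans ?_
    · exact ((dk_hol hV hf a _).mul (dk_hol hV hg a _)).const_mul _
    intro z hz
    have h1 : ∀ p : ℕ × ℕ, dz a (fun z => (k.choose p.1 : ℂ) * (dk a p.1 f z * dk a p.2 g z)) z =
        (k.choose p.1 : ℂ) * (dk a (p.1 + 1) f z * dk a p.2 g z) +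
          (k.choose p.1 : ℂ) * (dk a p.1 f z * dk a (p.2 + 1) g z) := by
      intro p
      have e1 := dz_cmul hV (k.choose p.1 : ℂ) ((dk_hol hV hf a p.1).mul (dk_hol hV hg a p.2)) a hz
      have e2 := dz_mul hV (dk_hol hV hf a p.1) (dk_hol hV hg a p.2) a hz
      refine e1.trans ?_
      simp only [dk_succ]
      rw [show dz a (dk a p.1 f * dk a p.2 g) z = _ from e2]
      ring
    simp only [h1, Finset.sum_add_distrib]
    have h2 := Finset.sum_antidiagonal_choose_succ_mul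
      (fun i j => dk a i f z * dk a j g z) k
    rw [h2, add_comm]
    congr 1
    refine Finset.sum_congr rfl fun p hp => ?_
    rw [mem_antidiagonal] at hp
    rw [Nat.choose_symm_of_eq_add hp.symm]

/-- the normal ordered product -/
noncomputable def nP (n : ℕ) (a b : Fin n) : ℕ → BiDiff n :=
  fun k => [(fun _ => 1 / (k.factorial : ℂ), List.replicate k a, List.replicate k b)]

theorem nP_ev (a b : Fin n) (k : ℕ) (f g : (Fin n → ℂ) → ℂ) (z : Fin n → ℂ) :
    (nP n a b k).ev f g z = 1 / (k.factorial : ℂ) * (dk a k f z * dk b k g z) := by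
  simp [nP, BiDiff.ev, dk, mul_assoc]

theorem starMul_nP (a b : Fin n) (f g : ℕ → (Fin n → ℂ) → ℂ) (m : ℕ) :
    starMul (nP n a b) f g m = fun z => ∑ p ∈ antidiagonal m, ∑ q ∈ antidiagonal p.2,
      1 / (p.1.factorial : ℂ) * (dk a p.1 (f q.1) z * dk b p.1 (g q.2) z) := by
  funext z
  simp only [starMul, nP_ev]

theorem dk_starMul (hV : IsOpen V) (a b c : Fin n) {f g : ℕ → (Fin n → ℂ) → ℂ}
    (hf : ∀ k, DifferentiableOn ℂ (f k) V) (hg : ∀ k, DifferentiableOn ℂ (g k) V) (k m : ℕ)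
    {z : Fin n → ℂ} (hz : z ∈ V) :
    dk c k (starMul (nP n a b) f g m) z = ∑ p ∈ antidiagonal m, ∑ q ∈ antidiagonal p.2,
      ∑ w ∈ antidiagonal k, 1 / (p.1.factorial : ℂ) * ((k.choose w.1 : ℂ) *
        (dk c w.1 (dk a p.1 (f q.1)) z * dk c w.2 (dk b p.1 (g q.2)) z)) := by
  have hp : ∀ (i j l : ℕ), DifferentiableOn ℂ (fun z => dk a i (f j) z * dk b i (g l) z) V :=
    fun i j l => (dk_hol hV (hf j) a i).mul (dk_hol hV (hg l) b i)
  have hc : ∀ (i j l : ℕ), DifferentiableOn ℂ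
      (fun z => 1 / (i.factorial : ℂ) * (dk a i (f j) z * dk b i (g l) z)) V :=
    fun i j l => (hp i j l).const_mul _
  rw [starMul_nP]
  refine (dk_sum hV _ _ (fun p _ => DifferentiableOn.fun_sum fun q _ => hc _ _ _) c k hz).trans ?_
  refine Finset.sum_congr rfl fun p _ => ?_
  refine (dk_sum hV _ _ (fun q _ => hc _ _ _) c k hz).trans ?_
  refine Finset.sum_congr rfl fun q _ => ?_
  refine (dk_cmul hV _ (hp _ _ _) c k hz).trans ?_
  have e := dk_mul hV (dk_hol hV (hf q.1) a p.1) (dk_hol hV (hg q.2) b p.1) c k hz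
  simp only at e ⊢
  rw [e, Finset.mul_sum]

theorem fact_choose (u v : ℕ) :
    1 / ((u + v).factorial : ℂ) * ((u + v).choose u : ℂ) =
      1 / (u.factorial : ℂ) * (1 / (v.factorial : ℂ)) := by
  have h : (u + v).choose u * u.factorial * v.factorial = (u + v).factorial := by
    have := Nat.choose_mul_factorial_mul_factorial (Nat.le_add_right u v)
    rwa [Nat.add_sub_cancel_left] at this
  have h' : ((u + v).choose u : ℂ) * (u.factorial : ℂ) * (v.factorial : ℂ) =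
      ((u + v).factorial : ℂ) := by exact_mod_cast h
  have h1 : (u.factorial : ℂ) ≠ 0 := by exact_mod_cast u.factorial_ne_zero
  have h2 : (v.factorial : ℂ) ≠ 0 := by exact_mod_cast v.factorial_ne_zero
  have h3 : ((u + v).factorial : ℂ) ≠ 0 := by exact_mod_cast (u + v).factorial_ne_zero
  field_simp
  linear_combination h'

theorem nP_assoc (hV : IsOpen V) (a b : Fin n) {f g h : ℕ → (Fin n → ℂ) → ℂ}
    (hf : ∀ k, DifferentiableOn ℂ (f k) V) (hg : ∀ k, DifferentiableOn ℂ (g k) V)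
    (hh : ∀ k, DifferentiableOn ℂ (h k) V) (m : ℕ) {z : Fin n → ℂ} (hz : z ∈ V) :
    starMul (nP n a b) (starMul (nP n a b) f g) h m z =
      starMul (nP n a b) f (starMul (nP n a b) g h) m z := by
  rw [starMul_nP a b (starMul (nP n a b) f g) h, starMul_nP a b f (starMul (nP n a b) g h)]
  simp only [dk_starMul hV a b _ hf hg _ _ hz, dk_starMul hV a b _ hg hh _ _ hz, Finset.sum_mul,
    Finset.mul_sum]
  simp only [Finset.sum_sigma']
  refine Finset.sum_nbij'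
    (fun x => ⟨(x.2.2.1.1 + x.2.2.2.2.1,
        x.2.2.2.1.1 + (x.2.2.2.2.2 + (x.2.2.2.1.2 + x.2.1.2))),
      (x.2.2.2.1.1, x.2.2.2.2.2 + (x.2.2.2.1.2 + x.2.1.2)),
      (x.2.2.2.2.2, x.2.2.2.1.2 + x.2.1.2), (x.2.2.2.1.2, x.2.1.2),
      (x.2.2.1.1, x.2.2.2.2.1)⟩)
    (fun x => ⟨(x.2.2.2.2.2 + x.2.2.1.1,
        (x.2.2.2.2.1 + (x.2.1.1 + x.2.2.2.1.1)) + x.2.2.2.1.2),
      (x.2.2.2.2.1 + (x.2.1.1 + x.2.2.2.1.1), x.2.2.2.1.2),
      (x.2.2.2.2.1, x.2.1.1 + x.2.2.2.1.1), (x.2.1.1, x.2.2.2.1.1),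
      (x.2.2.2.2.2, x.2.2.1.1)⟩) ?_ ?_ ?_ ?_ ?_
  · rintro ⟨⟨k, t⟩, ⟨x, l⟩, ⟨s, y⟩, ⟨i, j⟩, ⟨u, v⟩⟩ hx
    simp only [Finset.mem_sigma, mem_antidiagonal] at hx ⊢
    obtain ⟨h1, h2, h3, h4, h5⟩ := hx
    exact ⟨by omega, trivial, trivial, trivial, trivial⟩
  · rintro ⟨⟨k, t⟩, ⟨i, x⟩, ⟨v, y⟩, ⟨j, l⟩, ⟨s, u⟩⟩ hx
    simp only [Finset.mem_sigma, mem_antidiagonal] at hx ⊢
    obtain ⟨h1, h2, h3, h4, h5⟩ := hx
    exact ⟨by omega, trivial, trivial, trivial, trivial⟩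
  · rintro ⟨⟨k, t⟩, ⟨x, l⟩, ⟨s, y⟩, ⟨i, j⟩, ⟨u, v⟩⟩ hx
    simp only [Finset.mem_sigma, mem_antidiagonal] at hx
    obtain ⟨h1, h2, h3, h4, h5⟩ := hx
    subst h1 h5 h2 h3 h4
    rfl
  · rintro ⟨⟨k, t⟩, ⟨i, x⟩, ⟨v, y⟩, ⟨j, l⟩, ⟨s, u⟩⟩ hx
    simp only [Finset.mem_sigma, mem_antidiagonal] at hx
    obtain ⟨h1, h2, h3, h4, h5⟩ := hx
    subst h1 h5 h2 h3 h4
    rfl
  · rintro ⟨⟨k, t⟩, ⟨x, l⟩, ⟨s, y⟩, ⟨i, j⟩, ⟨u, v⟩⟩ hx
    simp only [Finset.mem_sigma, mem_antidiagonal] at hx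
    obtain ⟨h1, h2, h3, h4, h5⟩ := hx
    subst h1 h5 h2 h3 h4
    have e1 : dk a u (dk a s (f i)) z = dk a (s + u) (f i) z := by rw [dk_add, add_comm]
    have e2 : dk b u (dk b v (h l)) z = dk b (u + v) (h l) z := by rw [dk_add]
    have e3 : dk b s (dk a v (g j)) z = dk a v (dk b s (g j)) z := dk_comm hV (hg j) b a s v hz
    have f1 := fact_choose u v
    have f2 := fact_choose s u
    simp only
    rw [e1, e2, e3]
    linear_combination (1 / (s.factorial : ℂ) * dk a (s + u) (f i) z * dk a v (dk b s (g j)) z *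
      dk b (u + v) (h l) z) * f1 - (1 / (v.factorial : ℂ) * dk a (s + u) (f i) z *
        dk a v (dk b s (g j)) z * dk b (u + v) (h l) z) * f2

theorem dz_const (c : ℂ) (a : Fin n) : dz a (fun _ : Fin n → ℂ => c) = fun _ => 0 := by
  funext z
  simp [dz]

theorem dk_one (a : Fin n) (k : ℕ) (hk : 1 ≤ k) : dk a k (fun _ : Fin n → ℂ => (1 : ℂ)) =
    fun _ => 0 := by
  induction k with
  | zero => omega
  | succ k ih =>
    rw [dk_succ]
    rcases Nat.eq_zero_or_pos k with rfl | h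
    · exact dz_const 1 a
    · rw [ih h]
      exact dz_const 0 a

/-- **The normal ordered product** `f ⋆ g = ∑ ħ^k / k! ∂_a^k f ∂_b^k g` is a star product. -/
theorem nP_isStar (n : ℕ) (a b : Fin n) : IsStar (Set.univ : Set (Fin n → ℂ)) (nP n a b) where
  hol := by
    intro k t ht
    simp only [nP, List.mem_singleton] at ht
    subst ht
    exact differentiableOn_const _
  zero := by
    intro V _ _ f g _ _ z _
    rw [nP_ev]
    simp [dk_zero]
  unit := by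
    intro V _ _ f _ k hk z _
    rw [nP_ev, nP_ev, dk_one b k hk, dk_one a k hk]
    simp
  assoc := by
    intro V _ hV f g h hf hg hh m z hz
    exact nP_assoc hV a b hf hg hh m hz

end Pool.Agent.DQOff.Star
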