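import Mathlib
import Pool.Agent.Lib.MP_4aa2a9_ag.Mg.G001
import Pool.Agent.Lib.MP_4aa2a9_ag.Mg.G031

/-!
# MP_4aa2a9_ag in the official form (campaign DQ, S)
-/

set_option autoImplicit false

open TopologicalSpace Topology

open scoped Manifold ContDiff

universe u

namespace Pool.Agent.DQOff

variable {X : Type u} [TopologicalSpace X] {A : Algebroid X} {D : Opens X}

/-! ### Stalks -/

/-- germs of sections of `End i` -/
noncomputable def ggm (i : A.toAlg.Obj) (x : ↥(A.toAlg.dom i ⊓ D)) (V : Opens X) (h : x.1 ∈ V)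
    (a : (A.Hom i i).sec V) : A.toAlg.R i (A.toAlg.pt i x) := A.toAlg.gm i (A.toAlg.pt i x) V h a

/-- germs of sections of `M` -/
noncomputable def Mod.hgm (M : Mod A D) (i : A.toAlg.Obj) (x : ↥(A.toAlg.dom i ⊓ D)) (V : Opens X)
    (h : x.1 ∈ V) (a : (M.sh i).sec V) : M.toMod.St i x := M.toMod.gm i x V h a

theorem Mod.isStalkMod (M : Mod A D) (i : A.toAlg.Obj) (x : ↥(A.toAlg.dom i ⊓ D)) :
    IsStalkMod M i x.1 (A.toAlg.R i (A.toAlg.pt i x)) (M.toMod.St i x) (ggm i x) (M.hgm i x) where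
  ring :=
    { surj := fun t => by
        obtain ⟨V, h, s, e⟩ := DQ.Sh.exists_germ (A.toAlg.Hom i i) x.1 t
        exact ⟨V, h, s, e.symm⟩
      eq_iff := fun V W h k s t => DQ.Sh.germ_eq_iff (A.toAlg.Hom i i) x.1 h k s t
      add := fun V h s t => A.toAlg.gm_add i (A.toAlg.pt i x) h s t }
  module :=
    { surj := fun t => by
        obtain ⟨V, h, s, e⟩ := DQ.Sh.exists_germ (M.toMod.sh i) x.1 t
        exact ⟨V, h, s, e.symm⟩
      eq_iff := fun V W h k s t => DQ.Sh.germ_eq_iff (M.toMod.sh i) x.1 h k s t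
      add := fun V h s t => M.toMod.gm_add i x h s t }
  one V k hV := A.toAlg.gm_one i (A.toAlg.pt i x) k hV
  mul V k hV b a := A.toAlg.gm_mul i (A.toAlg.pt i x) k hV b a
  smul V k hV hD a s := M.toMod.gm_smul i x k (le_inf hV hD) a s

theorem Mod.ExtZero.toMod {M : Mod A D} {j : ℕ} (h : M.ExtZero j) : M.toMod.ExtZero j :=
  fun i x => h i x.1 x.2.1 x.2.2 _ _ (ggm i x) (M.hgm i x) (M.isStalkMod i x)

theorem Mod.Reflexive.toMod {M : Mod A D} {d : ℕ} (h : M.Reflexive d) : M.toMod.Reflexive d :=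
  ⟨fun i V h1 h2 s hs => h.1 i V h1 h2 s hs, fun j hj => (h.2.1 j hj).toMod,
    fun i x => h.2.2 i x.1 x.2.1 x.2.2 _ _ (ggm i x) (M.hgm i x) (M.isStalkMod i x)⟩

/-! ### Star products -/

section star

variable {n : ℕ}

theorem IsStar.conv {W : Set (Fin n → ℂ)} {P : ℕ → BiDiff n} (h : IsStar W P) : DQ.IsStar W P :=
  ⟨h.hol, h.zero, h.unit, h.assoc⟩

theorem IsStarChart.conv {i : A.Obj} {e : OpenPartialHomeomorph X (Fin n → ℂ)}
    {V : Opens X} {P : ℕ → BiDiff n}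
    {Θ : ∀ W : Opens X, (A.Hom i i).sec W → ℕ → (Fin n → ℂ) → ℂ}
    (hV : (V : Set X) ⊆ e.source) (h : IsStarChart n A i e V P Θ) :
    DQ.IsStarChart n A.toAlg i e V P Θ where
  dom := h.dom
  src := hV
  star := h.star.conv
  hol := h.hol
  surj := h.surj
  inj := h.inj
  add W hW a b := by
    funext m z
    exact h.add W hW a b m z
  smul W hW c a m := by
    funext z
    rw [Finset.sum_apply]
    exact h.smul W hW c a m z
  mul W hW b a m z hz := h.mul W hW b a m z hz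
  res W W' hW hV a m z hz := h.res W W' hW hV a m z hz

theorem IsDQ.conv [ChartedSpace (Fin n → ℂ) X] (h : IsDQ n A) : DQ.IsDQ n A.toAlg := by
  intro i x hx
  obtain ⟨e, he, V, P, Θ, hxV, hV, hS⟩ := h i x hx
  exact ⟨e, he, V, P, Θ, hxV, IsStarChart.conv hV hS⟩

theorem eq_compl {Y : Set X} (hY : IsClosed Y) (hD : (D : Set X) = Yᶜ) : D = DQ.compl Y hY :=
  Opens.ext hD

end star

/-- MP_4aa2a9_ag -/
theorem statementA (n d : ℕ) (X : Type u) [TopologicalSpace X] [ChartedSpace (Fin n → ℂ) X]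
    [IsManifold 𝓘(ℂ, Fin n → ℂ) ω X] (A : Algebroid X) (hA : IsDQ n A) (Y : Set X)
    (hY : IsAnalytic n Y) (hcodim : HasCodimGE n Y (d + 3)) (D : Opens X) (hD : (D : Set X) = Yᶜ)
    (M : Mod A D) (hM : M.Coherent) (hrefl : M.Reflexive d) :
    (∃ (P : Mod A ⊤) (r : ∀ i V, (P.sh i).sec V → (M.sh i).sec (V ⊓ D)), IsPush M P r) ∧
    ∀ (P : Mod A ⊤) (r : ∀ i V, (P.sh i).sec V → (M.sh i).sec (V ⊓ D)),
      IsPush M P r → P.Coherent := by
  refine ⟨⟨M.push, fun _ _ s => s, M.isPush⟩, fun P r h => h.coherent (M.push_coherent ?_)⟩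
  obtain rfl := eq_compl hY.1 hD
  exact DQ.statementA n d X A.toAlg hA.conv Y hY hcodim M.toMod (M.coherent_iff.1 hM) hrefl.toMod

end Pool.Agent.DQOff
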