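import Mathlib
import Pool.Agent.Lib.MP_4aa2a9_ag.DQ.OffExStar
import Pool.Agent.Lib.MP_4aa2a9_ag.DQ.OffExA
import Pool.Agent.Lib.MP_4aa2a9_ag.DQ.OffExM
import Pool.Agent.Lib.MP_4aa2a9_ag.DQ.OffExR
import Pool.Agent.Lib.MP_4aa2a9_ag.DQ.OffFinalA

/-!
# The hypotheses of MP_4aa2a9_ag are satisfied by a non-commutative example (campaign DQ, S)

On `X = ℂ^3` the normal ordered product `f ⋆ g = ∑ ħ^k/k! ∂_0^k f ∂_1^k g` defines a
non-commutative DQ-algebroid, `Y = {0}` is a closed analytic subset of codimension `3` and the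
regular module on the complement of `Y` is coherent, nonzero and `0`-reflexive.
-/

set_option autoImplicit false

open TopologicalSpace Topology Filter Set

open scoped Manifold ContDiff

universe u

namespace Pool.Agent.DQOff

section

variable {X : Type u} [TopologicalSpace X]

/-- the regular module is `0`-reflexive if `End j` has no `ħ`-torsion -/
theorem Mod.reg_reflexive (A : Algebroid X) (hs : ∀ i j : A.Obj, i = j) (j : A.Obj) (D : Opens X)
    (hD : D ≤ A.dom j)
    (ht : ∀ V (s : (A.Hom j j).sec V),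
      (A.Hom j j).smul V PowerSeries.X s = (A.Hom j j).zero V → s = (A.Hom j j).zero V) :
    (Mod.reg A j D hD).Reflexive 0 := by
  refine ⟨fun i V _ _ s h => ?_, fun k hk => absurd hk (Nat.not_lt_zero k), ?_⟩
  · obtain rfl := hs j i
    exact ht V s h
  · intro i x hx hxD R T _ _ _ g h H
    obtain rfl := hs j i
    refine DQ.bidualBij_of_rank_one (h (A.dom j) hx (A.one j (A.dom j))) ⟨?_, ?_⟩
    · intro r r' hr
      obtain ⟨V, hV, a, rfl⟩ := H.ring.surj r
      obtain ⟨W, hW, b, rfl⟩ := H.ring.surj r'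
      -- restrict everything to a common neighbourhood
      let Z : Opens X := (V ⊓ W) ⊓ (A.dom j ⊓ D)
      have hZ : x ∈ Z := ⟨⟨hV, hW⟩, hx, hxD⟩
      have kV : Z ≤ V := inf_le_left.trans inf_le_left
      have kW : Z ≤ W := inf_le_left.trans inf_le_right
      have kj : Z ≤ A.dom j := inf_le_right.trans inf_le_left
      have kD : Z ≤ D := inf_le_right.trans inf_le_right
      have e1 : g V hV a = g Z hZ ((A.Hom j j).res Z V kV a) :=
        (H.ring.eq_iff _ _ hV hZ _ _).2 ⟨Z, kV, le_rfl, hZ, by rw [(A.Hom j j).res_id]⟩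
      have e2 : g W hW b = g Z hZ ((A.Hom j j).res Z W kW b) :=
        (H.ring.eq_iff _ _ hW hZ _ _).2 ⟨Z, kW, le_rfl, hZ, by rw [(A.Hom j j).res_id]⟩
      have e3 : h (A.dom j) hx (A.one j (A.dom j)) = h Z hZ (A.one j Z) := by
        refine (H.module.eq_iff _ _ hx hZ _ _).2 ⟨Z, kj, le_rfl, hZ, ?_⟩
        refine (A.res_one j Z (A.dom j) kj le_rfl).trans ?_
        exact ((A.Hom j j).res_id Z le_rfl _).symm
      have key : ∀ c : (A.Hom j j).sec Z, g Z hZ c • h Z hZ (A.one j Z) = h Z hZ c := by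
        intro c
        exact (H.smul Z hZ kj kD c (A.one j Z)).symm.trans
          (congrArg (h Z hZ) (A.comp_one j j Z kj kj c))
      change g V hV a • h (A.dom j) hx _ = g W hW b • h (A.dom j) hx _ at hr
      rw [e1, e2, e3, key, key] at hr
      rw [e1, e2]
      obtain ⟨Z', h1, h2, hZ', e⟩ := (H.module.eq_iff _ _ hZ hZ _ _).1 hr
      exact (H.ring.eq_iff _ _ hZ hZ _ _).2 ⟨Z', h1, h2, hZ', e⟩
    · intro t
      obtain ⟨V, hV, a, rfl⟩ := H.module.surj t
      let Z : Opens X := V ⊓ (A.dom j ⊓ D)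
      have hZ : x ∈ Z := ⟨hV, hx, hxD⟩
      have kV : Z ≤ V := inf_le_left
      have kj : Z ≤ A.dom j := inf_le_right.trans inf_le_left
      have kD : Z ≤ D := inf_le_right.trans inf_le_right
      have e3 : h (A.dom j) hx (A.one j (A.dom j)) = h Z hZ (A.one j Z) := by
        refine (H.module.eq_iff _ _ hx hZ _ _).2 ⟨Z, kj, le_rfl, hZ, ?_⟩
        refine (A.res_one j Z (A.dom j) kj le_rfl).trans ?_
        exact ((A.Hom j j).res_id Z le_rfl _).symm
      refine ⟨g Z hZ ((A.Hom j j).res Z V kV a), ?_⟩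
      change g Z hZ _ • h (A.dom j) hx _ = _
      rw [e3]
      refine (H.smul Z hZ kj kD _ (A.one j Z)).symm.trans ?_
      refine (H.module.eq_iff _ _ hZ hV _ _).2 ⟨Z, le_rfl, kV, hZ, ?_⟩
      refine ((A.Hom j j).res_id Z le_rfl _).trans ?_
      exact A.comp_one j j Z kj kj _

end

/-- `O[[ħ]]` has no `ħ`-torsion -/
theorem hSheaf_torsionFree {n : ℕ} (V : Opens (Fin n → ℂ)) (s : (hSheaf n).sec V)
    (h : (hSheaf n).smul V PowerSeries.X s = (hSheaf n).zero V) : s = (hSheaf n).zero V := by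
  have key : ∀ f : HSec V, HSec.smul V PowerSeries.X f =
      (⟨fun _ _ => 0, fun _ => ⟨differentiableOn_const _, fun _ _ => rfl⟩⟩ : HSec V) →
      f = ⟨fun _ _ => 0, fun _ => ⟨differentiableOn_const _, fun _ _ => rfl⟩⟩ := by
    intro f hf
    refine HSec.ext_pser fun z hz => ?_
    have h1 := pser_smul PowerSeries.X f z
    rw [hf] at h1
    have h2 : pser (n := n) (fun _ _ => 0) z = 0 := by
      ext k
      simp [pser]
    have h3 : PowerSeries.X * pser f.1 z = 0 := by
      rw [← h1]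
      exact h2
    rcases mul_eq_zero.1 h3 with h4 | h4
    · exact absurd h4 PowerSeries.X_ne_zero
    · rw [h4]
      exact h2.symm
  exact key s h

/-- coordinate functions -/
noncomputable def coordSec {n : ℕ} (a : Fin n) : HSec (⊤ : Opens (Fin n → ℂ)) :=
  HSec.mk' ⊤ (fun k z => if k = 0 then z a else 0) fun k => by
    by_cases hk : k = 0
    · simp only [hk, if_true]
      exact (differentiable_apply a).differentiableOn
    · simp only [hk, if_false]
      exact differentiableOn_const _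

theorem dz_coord {n : ℕ} (a b : Fin n) (z : Fin n → ℂ) :
    dz a ((coordSec b).1 0) z = if b = a then 1 else 0 := by
  have h1 : (coordSec b).1 0 =ᶠ[𝓝 z] fun y => y b := by
    refine (HSec.mk'_eventually (Opens.mem_top z)).trans ?_
    exact Eventually.of_forall fun y => by simp
  rw [(dz_congr h1).self_of_nhds]
  unfold dz
  have h2 : HasFDerivAt (fun y : Fin n → ℂ => y b) (ContinuousLinearMap.proj b) z :=
    (ContinuousLinearMap.proj (R := ℂ) (φ := fun _ : Fin n => ℂ) b).hasFDerivAt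
  rw [h2.fderiv]
  simp [Pi.single_apply]

theorem coord_zero {n : ℕ} (b : Fin n) : (coordSec b).1 0 0 = 0 := by
  rw [coordSec, HSec.mk'_apply (Opens.mem_top _)]
  simp

theorem starMul_coord {n : ℕ} (a b c d : Fin n) :
    starMul (Star.nP n a b) (coordSec c).1 (coordSec d).1 1 0 =
      (if c = a then 1 else 0) * (if d = b then 1 else 0) := by
  unfold starMul
  rw [Finset.Nat.sum_antidiagonal_succ]
  simp only [Finset.Nat.antidiagonal_zero, Finset.sum_singleton]
  rw [Finset.Nat.sum_antidiagonal_succ]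
  simp only [Finset.Nat.antidiagonal_zero, Finset.sum_singleton, Star.nP_ev, Star.dk_zero,
    Star.dk_succ, zero_add, Nat.factorial, Nat.cast_one]
  rw [dz_coord, dz_coord, coord_zero, coord_zero]
  simp

theorem exists_example : ∃ (A : Algebroid (Fin 3 → ℂ)) (Y : Set (Fin 3 → ℂ))
    (D : Opens (Fin 3 → ℂ)) (M : Mod A D), IsDQ 3 A ∧
    (∃ (i : A.Obj) (a b : (A.Hom i i).sec ⊤), A.comp i i i ⊤ a b ≠ A.comp i i i ⊤ b a) ∧
    IsAnalytic 3 Y ∧ HasCodimGE 3 Y 3 ∧ Y.Nonempty ∧ (D : Set (Fin 3 → ℂ)) = Yᶜ ∧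
    M.Coherent ∧ M.Reflexive 0 ∧ ∃ (i : A.Obj) (s : (M.sh i).sec D), s ≠ (M.sh i).zero D := by
  have hP := Star.nP_isStar 3 0 1
  have hY : IsClosed ({0} : Set (Fin 3 → ℂ)) := isClosed_singleton
  have hDQ := starAlg_isDQ hP
  have hs : ∀ i j : (starAlg hP).Obj, i = j := fun _ _ => rfl
  have hc : ∀ z : Fin 3 → ℂ, chartAt (Fin 3 → ℂ) z = OpenPartialHomeomorph.refl _ := fun z =>
    chartAt_self_eq
  refine ⟨starAlg hP, {0}, ⟨{0}ᶜ, hY.isOpen_compl⟩, Mod.reg (starAlg hP) ⟨⟩ _ le_top, hDQ,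
    ⟨⟨⟩, coordSec 0, coordSec 1, ?_⟩, ⟨hY, ?_⟩, ?_, ⟨0, rfl⟩, rfl,
    Mod.reg_coherent hDQ.conv hs _ _ _,
    Mod.reg_reflexive _ hs _ _ _ fun V s => hSheaf_torsionFree V s, ⟨⟨⟩, HSec.one _, ?_⟩⟩
  · intro h
    have h1 : (HSec.mul hP ⊤ (coordSec 0) (coordSec 1)).1 1 0 =
        (HSec.mul hP ⊤ (coordSec 1) (coordSec 0)).1 1 0 :=
      congrArg (fun f : HSec ⊤ => f.1 1 0) h
    rw [HSec.mul_apply hP _ _ (Opens.mem_top _), HSec.mul_apply hP _ _ (Opens.mem_top _),
      starMul_coord, starMul_coord] at h1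
    simp at h1
  · intro y hy
    refine ⟨chartAt (Fin 3 → ℂ) y, IsManifold.chart_mem_maximalAtlas y, mem_chart_source _ y, ⊤, 3,
      fun j z => z j, Opens.mem_top _, ?_, fun j => (differentiable_apply j).differentiableOn, ?_⟩
    · rw [hc]
      exact fun _ _ => trivial
    · intro z _
      rw [hc]
      change z = 0 ↔ _
      exact funext_iff
  · intro y hy
    refine ⟨chartAt (Fin 3 → ℂ) y, IsManifold.chart_mem_maximalAtlas y, mem_chart_source _ y, ⊤,
      by simp, ⊤, Opens.mem_top _, ?_, fun x _ hx _ => ?_⟩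
    · rw [hc]
      exact fun _ _ => trivial
    · rw [mem_singleton_iff.1 hx, mem_singleton_iff.1 hy]
  · intro h
    have h1 : (HSec.one (⟨{0}ᶜ, hY.isOpen_compl⟩ : Opens (Fin 3 → ℂ))).1 0 1 = 0 :=
      congrArg (fun f : HSec (⟨{0}ᶜ, hY.isOpen_compl⟩ : Opens (Fin 3 → ℂ)) => f.1 0 1) h
    rw [HSec.one_apply] at h1
    · simp at h1
    · exact fun h => one_ne_zero (congrFun (mem_singleton_iff.1 h) 0)

end Pool.Agent.DQOff
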