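import Mathlib
import Pool.Agent.DQ.Mg_MP_4aa2a9_ag.G003

/-!
# Morphisms of sheaves on stalks (campaign DQ, S)
-/

set_option autoImplicit false

open TopologicalSpace Topology Filter Set

universe u v

namespace Pool.Agent.DQ

variable {X : Type u} [TopologicalSpace X] {E : Type v} [TopologicalSpace E]

/-- a morphism of sheaves over the open set `D₀` -/
structure ShMor (F G : Sh X) (D₀ : Opens X) where
  f : ∀ V, F.sec V →ₗ[K] G.sec V
  res : ∀ {V W : Opens X} (h : V ≤ W), W ≤ D₀ → ∀ s, f V (F.res h s) = G.res h (f W s)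

namespace ShMor

variable {F G : Sh X} {D₀ : Opens X} (m : ShMor F G D₀)

/-- the map on stalks -/
noncomputable def st (x : X) (hx : x ∈ D₀) : F.Stalk x → G.Stalk x :=
  Quotient.lift (fun s => G.germ x (s.1.1 ⊓ D₀) ⟨s.1.2, hx⟩ (m.f _ (F.res inf_le_left s.2))) (by
    rintro ⟨⟨U, hxU⟩, s⟩ ⟨⟨U', hxU'⟩, s'⟩ ⟨W, h, h', hxW, e⟩
    refine (G.germ_eq_iff x _ _ _ _).2 ⟨W ⊓ D₀, inf_le_inf_right _ h, inf_le_inf_right _ h',
      ⟨hxW, hx⟩, ?_⟩
    rw [← m.res _ inf_le_right, ← m.res _ inf_le_right]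
    have e' := congrArg (F.res (inf_le_left : W ⊓ D₀ ≤ W)) e
    simp only [Sh.res_res] at e' ⊢
    rw [e'])

theorem st_germ {x : X} (hx : x ∈ D₀) {V : Opens X} (hV : V ≤ D₀) (hxV : x ∈ V) (s : F.sec V) :
    m.st x hx (F.germ x V hxV s) = G.germ x V hxV (m.f V s) := by
  refine (G.germ_eq_iff x _ _ _ _).2 ⟨V, le_inf le_rfl hV, le_rfl, hxV, ?_⟩
  rw [← m.res _ inf_le_right, ← m.res _ hV]
  simp only [Sh.res_res]

variable {e : OpenPartialHomeomorph X E} {D : Opens X} (hD : (D : Set X) ⊆ e.source)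
  (hD₀ : D ≤ D₀)

/-- the map on stalks in a chart -/
noncomputable def emap (z : E) (a : ESt F e D z) : ESt G e D z :=
  fun h => m.st (e.symm z) (hD₀ (symm_mem e hD le_rfl h.down)) (a h)

theorem emap_ffam {U : Opens X} (hU : U ≤ D) (s : F.sec U) {z : E} (hz : z ∈ e '' (U : Set X)) :
    m.emap hD hD₀ z (ffam F e D U s z) = ffam G e D U (m.f U s) z := by
  have h1 := symm_mem e hD hU hz
  funext ⟨h0⟩
  have h2 : m.emap hD hD₀ z (ffam F e D U s z) ⟨h0⟩ =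
    m.st (e.symm z) (hD₀ (symm_mem e hD le_rfl h0)) (ffam F e D U s z ⟨h0⟩) := rfl
  rw [h2, ffam_apply _ h0 h1, ffam_apply _ h0 h1, m.st_germ _ (hU.trans hD₀)]

theorem emap_at {s : ∀ z, ESt F e D z} {z : E} (h : EAt F e D s z) :
    EAt G e D (fun z => m.emap hD hD₀ z (s z)) z := by
  obtain ⟨U, a, hU, hzU, h1⟩ := h.exists_ffam hD
  refine EAt.congr hD (ffam_at hD hU (m.f U a) hzU) ?_
  filter_upwards [(isOpen_image e hD hU).mem_nhds hzU] with w hw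
  rw [h1 w hw, m.emap_ffam hD hD₀ hU a hw]

theorem exists_ffam₂ {F G : Sh X} {e : OpenPartialHomeomorph X E} {D : Opens X}
    (hD : (D : Set X) ⊆ e.source) {z : E} (hz : z ∈ e '' (D : Set X)) (a : ESt F e D z)
    (b : ESt G e D z) :
    ∃ (U : Opens X) (s : F.sec U) (t : G.sec U), U ≤ D ∧ z ∈ e '' (U : Set X) ∧
      a = ffam F e D U s z ∧ b = ffam G e D U t z := by
  obtain ⟨U, s, hU, hzU, rfl⟩ := exists_ffam hD hz a
  obtain ⟨W, t, hW, hzW, rfl⟩ := exists_ffam hD hz b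
  have h1 := mem_of_mem hD (U := U ⊓ W) (inf_le_left.trans hU) hz
    ⟨symm_mem e hD hU hzU, symm_mem e hD hW hzW⟩
  exact ⟨U ⊓ W, F.res inf_le_left s, G.res inf_le_right t, inf_le_left.trans hU, h1,
    (ffam_res hD _ hU s h1).symm, (ffam_res hD _ hW t h1).symm⟩

theorem emap_add (z : E) (a b : ESt F e D z) :
    m.emap hD hD₀ z (a + b) = m.emap hD hD₀ z a + m.emap hD hD₀ z b := by
  by_cases hz : z ∈ e '' (D : Set X)
  · obtain ⟨U, s, t, hU, hzU, rfl, rfl⟩ := exists_ffam₂ hD hz a b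
    rw [← ffam_add hD hU _ _ hzU, m.emap_ffam hD hD₀ hU _ hzU, m.emap_ffam hD hD₀ hU _ hzU,
      m.emap_ffam hD hD₀ hU _ hzU, map_add, ffam_add hD hU _ _ hzU]
  · funext ⟨h⟩
    exact absurd h hz

/-- the kernel of the map on stalks -/
theorem emap_eq_zero {z : E} (hz : z ∈ e '' (D : Set X)) {a : ESt F e D z}
    (h : m.emap hD hD₀ z a = 0) : ∃ (U : Opens X) (s : F.sec U), U ≤ D ∧ z ∈ e '' (U : Set X) ∧
      a = ffam F e D U s z ∧ m.f U s = 0 := by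
  obtain ⟨U, s, hU, hzU, rfl⟩ := exists_ffam hD hz a
  rw [m.emap_ffam hD hD₀ hU _ hzU, ← ffam_zero hD hU hzU] at h
  obtain ⟨W, hW, hW', hzW, e1⟩ := (ffam_eq_iff hD hU hU _ _ hzU hzU).1 h
  refine ⟨W, F.res hW s, hW.trans hU, hzW, (ffam_res hD hW hU s hzW).symm, ?_⟩
  rw [m.res hW (hU.trans hD₀), e1, map_zero]

end ShMor

end Pool.Agent.DQ
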