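import Mathlib
import Pool.Agent.Lib.MP_4aa2a9_ag.DQ.OffFinalA
import Pool.Agent.Lib.MP_4aa2a9_ag.Mg.G050

/-!
# MP_b4eb46_ag in the official form (campaign DQ, S)
-/

set_option autoImplicit false

open TopologicalSpace Topology

open scoped Manifold ContDiff

universe u

namespace Pool.Agent.DQOff

variable {X : Type u} [TopologicalSpace X] {A A' : Algebroid X} {D : Opens X} {o : A.Obj → A'.Obj}

/-- conversion of additive homogeneous maps -/
noncomputable def lin (E F : Sheaf X) (V : Opens X) (f : E.sec V → F.sec V)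
    (h1 : ∀ a b, f (E.add V a b) = F.add V (f a) (f b))
    (h2 : ∀ r a, f (E.smul V r a) = F.smul V r (f a)) :
    E.toSh.sec V →ₗ[DQ.K] F.toSh.sec V where
  toFun := f
  map_add' := h1
  map_smul' := h2

/-- the bijection of the local objects -/
noncomputable def objEquiv (ho : Function.Bijective o) : A.toAlg.Obj ≃ A'.toAlg.Obj :=
  Equiv.ofBijective o ho

/-- the localisation map -/
noncomputable def locMap {φ : ∀ i j V, (A.Hom i j).sec V → (A'.Hom (o i) (o j)).sec V}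
    (h : IsLoc A A' o φ) (i j : A.toAlg.Obj) (V : Opens X) :
    (A.toAlg.Hom i j).sec V →ₗ[DQ.K] (A'.toAlg.Hom (objEquiv h.obj i) (objEquiv h.obj j)).sec V :=
  lin (A.Hom i j) (A'.Hom (o i) (o j)) V (φ i j V) (h.add i j V) (h.smul i j V)

theorem IsLoc.conv {φ : ∀ i j V, (A.Hom i j).sec V → (A'.Hom (o i) (o j)).sec V}
    (h : IsLoc A A' o φ) : DQ.IsLoc A.toAlg A'.toAlg (objEquiv h.obj) (locMap h) where
  dom := h.dom
  res i j {V W} hVW a hi hj := h.res i j V W hVW a hi hj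
  one i V hi := h.one i V hi
  comp i j k V hi hj hk b a := h.comp i j k V hi hj hk b a
  bij i j V hi hj := h.bij i j V hi hj
  ker i j V hi hj a ha x hx := by
    obtain ⟨W, hW, hxW, k, e⟩ := h.ker i j V hi hj a ha x hx
    exact ⟨W, hW, hxW, k, e⟩
  surj i j V hi hj a x hx := by
    obtain ⟨W, hW, hxW, k, b, e⟩ := h.surj i j V hi hj a x hx
    exact ⟨W, hW, hxW, k, b, e⟩

/-- the inclusion of the lattice -/
noncomputable def latMap {φ : ∀ i j V, (A.Hom i j).sec V → (A'.Hom (o i) (o j)).sec V}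
    (hL : IsLoc A A' o φ) {M : Mod A' D} {N : Mod A D}
    {ι : ∀ i V, (N.sh i).sec V → (M.sh (o i)).sec V} (h : IsLattice o φ M N ι)
    (i : A.toAlg.Obj) (V : Opens X) :
    (N.toMod.sh i).sec V →ₗ[DQ.K] (M.toMod.sh (objEquiv hL.obj i)).sec V :=
  lin (N.sh i) (M.sh (o i)) V (ι i V) (h.add i V) (h.smul i V)

theorem IsLattice.conv {φ : ∀ i j V, (A.Hom i j).sec V → (A'.Hom (o i) (o j)).sec V}
    (hL : IsLoc A A' o φ) {M : Mod A' D} {N : Mod A D}
    {ι : ∀ i V, (N.sh i).sec V → (M.sh (o i)).sec V} (h : IsLattice o φ M N ι) :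
    DQ.IsLattice (objEquiv hL.obj) (locMap hL) M.toMod N.toMod (latMap hL h) where
  coherent := N.coherent_iff.1 h.coherent
  res i {V W} hVW s hi hD := h.res i V W hVW s hi hD
  act i j V hi hj hD a s := h.act i j V hi hj hD a s
  inj i V hi hD s hs := h.inj i V hi hD s hs
  surj i V hi hD s x hx := by
    obtain ⟨W, hW, hxW, k, t, e⟩ := h.surj i V hi hD s x hx
    exact ⟨W, hW, hxW, k, t, e⟩

/-- MP_b4eb46_ag -/
theorem statementB (n d : ℕ) (X : Type u) [TopologicalSpace X] [ChartedSpace (Fin n → ℂ) X]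
    [IsManifold 𝓘(ℂ, Fin n → ℂ) ω X] (A : Algebroid X) (hA : IsDQ n A)
    (A' : Algebroid X) (o : A.Obj → A'.Obj)
    (φ : ∀ i j V, (A.Hom i j).sec V → (A'.Hom (o i) (o j)).sec V) (hL : IsLoc A A' o φ)
    (Y : Set X) (hY : IsAnalytic n Y) (hcodim : HasCodimGE n Y (d + 3))
    (D : Opens X) (hD : (D : Set X) = Yᶜ) (M : Mod A' D) (N : Mod A D)
    (ι : ∀ i V, (N.sh i).sec V → (M.sh (o i)).sec V)
    (hM : M.Coherent) (hN : IsLattice o φ M N ι) (hext : ∀ k, k ≠ d → M.ExtZero k) :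
    (∃ (P : Mod A' ⊤) (r : ∀ i V, (P.sh i).sec V → (M.sh i).sec (V ⊓ D)), IsPush M P r) ∧
    ∀ (P : Mod A' ⊤) (r : ∀ i V, (P.sh i).sec V → (M.sh i).sec (V ⊓ D)),
      IsPush M P r → P.Coherent := by
  refine ⟨⟨M.push, fun _ _ s => s, M.isPush⟩, fun P r h => h.coherent (M.push_coherent ?_)⟩
  obtain rfl := eq_compl hY.1 hD
  exact DQ.statementB n d X A.toAlg hA.conv A'.toAlg (objEquiv hL.obj) (locMap hL) hL.conv Y hY hcodim
    M.toMod N.toMod (latMap hL hN) (M.coherent_iff.1 hM) (hN.conv hL)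
    (fun k hk => (hext k hk).toMod)

end Pool.Agent.DQOff
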