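import Mathlib
import Pool.Agent.Lib.MP_4aa2a9_ag.DQ.Alg

/-!
# `ExtZero` and `BidualBij` are invariant under isomorphisms (campaign DQ, S)
-/

set_option autoImplicit false

open Matrix

universe v v' w w'

namespace Pool.Agent.DQ

section

variable {R : Type v} [Ring R] {R' : Type v'} [Ring R'] {M : Type w} [AddCommGroup M] [Module R M]
  {M' : Type w'} [AddCommGroup M'] [Module R' M'] (e : R ≃+* R') (f : M ≃+ M')
  (hf : ∀ (r : R) (m : M), f (r • m) = e r • f m)

/-- apply `e` to all entries of a matrix -/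
def emap {p q : ℕ} (B : Matrix (Fin p) (Fin q) R) : Matrix (Fin p) (Fin q) R' := B.map e

/-- apply `e` to all entries of a vector -/
def evec {p : ℕ} (v : Fin p → R) : Fin p → R' := fun i => e (v i)

theorem evec_mulVec {p q : ℕ} (B : Matrix (Fin p) (Fin q) R) (v : Fin q → R) :
    emap e B *ᵥ evec e v = evec e (B *ᵥ v) := by
  funext i
  simp [emap, evec, mulVec, dotProduct, map_sum]

theorem evec_vecMul {p q : ℕ} (B : Matrix (Fin p) (Fin q) R) (v : Fin p → R) :
    evec e v ᵥ* emap e B = evec e (v ᵥ* B) := by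
  funext i
  simp [emap, evec, vecMul, dotProduct, map_sum]

theorem emap_mul {p q r : ℕ} (B : Matrix (Fin p) (Fin q) R) (C : Matrix (Fin q) (Fin r) R) :
    emap e (B * C) = emap e B * emap e C := by
  ext i j
  simp [emap, Matrix.mul_apply, map_sum]

theorem evec_add {p : ℕ} (v w : Fin p → R) : evec e (v + w) = evec e v + evec e w := by
  funext i
  simp [evec]

theorem evec_inj {p : ℕ} {v w : Fin p → R} : evec e v = evec e w ↔ v = w := by
  constructor
  · intro h
    funext i
    exact e.injective (congrFun h i)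
  · rintro rfl
    rfl

theorem evec_zero {p : ℕ} : evec e (0 : Fin p → R) = 0 := by
  funext i
  simp [evec]

theorem emap_zero {p q : ℕ} : emap e (0 : Matrix (Fin p) (Fin q) R) = 0 := by
  ext i j
  simp [emap]

theorem evec_symm {p : ℕ} (v : Fin p → R') : evec e (evec e.symm v) = v := by
  funext i
  simp [evec]

theorem evec_symm' {p : ℕ} (v : Fin p → R) : evec e.symm (evec e v) = v := by
  funext i
  simp [evec]

theorem emap_symm {p q : ℕ} (B : Matrix (Fin p) (Fin q) R') : emap e (emap e.symm B) = B := by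
  ext i j
  simp [emap]

/-- transport of the augmentation -/
def eeps {p : ℕ} (ε : (Fin p → R) →ₗ[R] M) : (Fin p → R') →ₗ[R'] M' where
  toFun v := f (ε (evec e.symm v))
  map_add' v w := by rw [evec_add, map_add, map_add]
  map_smul' r v := by
    have h : evec e.symm (r • v) = e.symm r • evec e.symm v := by
      funext i
      simp [evec]
    rw [h, map_smul, hf]
    simp

include hf in
theorem IsRes.transport_iso {n : ℕ → ℕ} {B : ∀ k, Matrix (Fin (n (k + 1))) (Fin (n k)) R}
    {ε : (Fin (n 1) → R) →ₗ[R] M} (h : IsRes n B ε) :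
    IsRes n (fun k => emap e (B k)) (eeps e f hf ε) where
  zero := h.zero
  surj m := by
    obtain ⟨v, hv⟩ := h.surj (f.symm m)
    refine ⟨evec e v, ?_⟩
    change f (ε (evec e.symm (evec e v))) = m
    rw [evec_symm', hv, f.apply_symm_apply]
  ker v := by
    change f (ε (evec e.symm v)) = 0 ↔ _
    rw [map_eq_zero_iff f f.injective, h.ker]
    constructor
    · rintro ⟨u, hu⟩
      exact ⟨evec e u, by rw [evec_vecMul, hu, evec_symm]⟩
    · rintro ⟨u, hu⟩
      refine ⟨evec e.symm u, ?_⟩
      rw [← evec_inj e, ← evec_vecMul, evec_symm, hu, evec_symm]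
  exact k hk v := by
    have h1 := h.exact k hk (evec e.symm v)
    have h2 : v ᵥ* emap e (B k) = 0 ↔ evec e.symm v ᵥ* B k = 0 := by
      rw [← evec_inj e, ← evec_vecMul, evec_symm, evec_zero]
    rw [h2, h1]
    constructor
    · rintro ⟨u, hu⟩
      exact ⟨evec e u, by rw [evec_vecMul, hu, evec_symm]⟩
    · rintro ⟨u, hu⟩
      refine ⟨evec e.symm u, ?_⟩
      rw [← evec_inj e, ← evec_vecMul, evec_symm, hu, evec_symm]

include hf in
theorem hf_symm (r : R') (m : M') : f.symm (r • m) = e.symm r • f.symm m := by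
  apply f.injective
  rw [f.apply_symm_apply, hf, f.apply_symm_apply, e.apply_symm_apply]

end

theorem ExtZero.transport_iso {R : Type v} [Ring R] {R' : Type v'} [Ring R'] {M : Type w}
    [AddCommGroup M] [Module R M] {M' : Type w'} [AddCommGroup M'] [Module R' M'] (e : R ≃+* R')
    (f : M ≃+ M') (hf : ∀ (r : R) (m : M), f (r • m) = e r • f m) {j : ℕ} (h : ExtZero R M j) :
    ExtZero R' M' j := by
  intro n B ε hB w hw
  have h1 := hB.transport_iso e.symm f.symm (hf_symm e f hf)
  obtain ⟨u, hu⟩ := h n _ _ h1 (evec e.symm w) (by rw [evec_mulVec, hw, evec_zero])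
  refine ⟨evec e u, ?_⟩
  rw [← evec_inj e.symm, ← evec_mulVec, evec_symm', hu]

theorem IsResExt.transport_iso {R : Type v} [Ring R] {R' : Type v'} [Ring R'] (e : R ≃+* R') {d : ℕ}
    {n : ℕ → ℕ} {B : ∀ k, Matrix (Fin (n (k + 1))) (Fin (n k)) R} {g : ℕ → ℕ}
    {C : ∀ k, Matrix (Fin (g k)) (Fin (g (k + 1))) R} {W : Matrix (Fin (n (d + 1))) (Fin (g 1)) R}
    (h : IsResExt d n B g C W) :
    IsResExt d n (fun k => emap e (B k)) g (fun k => emap e (C k)) (emap e W) where
  zero := h.zero
  cocycle := by rw [← emap_mul, h.cocycle, emap_zero]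
  surj w hw := by
    obtain ⟨u, t, hut⟩ := h.surj (evec e.symm w) (by
      rw [← evec_inj e, ← evec_mulVec, evec_symm, hw, evec_zero])
    refine ⟨evec e u, evec e t, ?_⟩
    rw [evec_mulVec, evec_mulVec, ← evec_add, hut, evec_symm]
  ker u := by
    have h1 := h.ker (evec e.symm u)
    have h2 : (∃ t, emap e W *ᵥ u = emap e (B d) *ᵥ t) ↔
        ∃ t, W *ᵥ evec e.symm u = B d *ᵥ t := by
      constructor
      · rintro ⟨t, ht⟩
        refine ⟨evec e.symm t, ?_⟩
        rw [← evec_inj e, ← evec_mulVec, ← evec_mulVec, evec_symm, evec_symm, ht]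
      · rintro ⟨t, ht⟩
        refine ⟨evec e t, ?_⟩
        rw [evec_mulVec, ← ht, ← evec_mulVec, evec_symm]
    rw [h2, h1]
    constructor
    · rintro ⟨v, hv⟩
      exact ⟨evec e v, by rw [evec_mulVec, hv, evec_symm]⟩
    · rintro ⟨v, hv⟩
      refine ⟨evec e.symm v, ?_⟩
      rw [← evec_inj e, ← evec_mulVec, evec_symm, hv, evec_symm]
  exact k hk u := by
    have h1 := h.exact k hk (evec e.symm u)
    have h2 : emap e (C k) *ᵥ u = 0 ↔ C k *ᵥ evec e.symm u = 0 := by
      rw [← evec_inj e, ← evec_mulVec, evec_symm, evec_zero]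
    rw [h2, h1]
    constructor
    · rintro ⟨v, hv⟩
      exact ⟨evec e v, by rw [evec_mulVec, hv, evec_symm]⟩
    · rintro ⟨v, hv⟩
      refine ⟨evec e.symm v, ?_⟩
      rw [← evec_inj e, ← evec_mulVec, evec_symm, hv, evec_symm]

theorem BidualBij.transport_iso {R : Type v} [Ring R] {R' : Type v'} [Ring R'] {M : Type w}
    [AddCommGroup M] [Module R M] {M' : Type w'} [AddCommGroup M'] [Module R' M'] (e : R ≃+* R')
    (f : M ≃+ M') (hf : ∀ (r : R) (m : M), f (r • m) = e r • f m) {d : ℕ} (h : BidualBij R M d) :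
    BidualBij R' M' d := by
  intro n B ε hB g C W hC hW
  have h1 := hB.transport_iso e.symm f.symm (hf_symm e f hf)
  have h2 := hC.transport_iso e.symm
  obtain ⟨h3, h4⟩ := h n _ _ h1 g _ (fun j k hjk => emap e.symm (W j k hjk)) h2 (by
    intro j k hjk
    rw [← emap_mul, ← emap_mul, hW j k hjk])
  constructor
  · rintro v ⟨t, ht⟩
    have h5 := h3 (evec e.symm v) ⟨evec e.symm t, by
      rw [evec_vecMul, evec_vecMul, ht]⟩
    change f.symm (ε (evec e.symm.symm (evec e.symm v))) = 0 at h5
    rw [evec_symm', map_eq_zero_iff f.symm f.symm.injective] at h5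
    exact h5
  · intro u hu
    obtain ⟨v, t, hvt⟩ := h4 (evec e.symm u) (by rw [evec_vecMul, hu, evec_zero])
    refine ⟨evec e v, evec e t, ?_⟩
    rw [← evec_inj e.symm, evec_add, ← evec_vecMul, ← evec_vecMul, evec_symm', evec_symm', hvt]

end Pool.Agent.DQ
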